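import Pool.Agent.Q206.MH.Roots

namespace Pool.Agent.Q206.MH

open Real Filter Topology

lemma hasSum_T {q : ℝ} (h0 : 0 ≤ q) (h1 : q < 1) :
    HasSum (fun j : ℕ => (2 * (j : ℝ) + 1) * q ^ (2 * j + 1))
      (q * (1 + q ^ 2) / (1 - q ^ 2) ^ 2) := by
  have hx1 : q ^ 2 < 1 := by nlinarith
  have hx : ‖q ^ 2‖ < 1 := by rw [Real.norm_of_nonneg (by positivity)]; exact hx1
  have a1 := hasSum_coe_mul_geometric_of_norm_lt_one hx
  have a2 := hasSum_geometric_of_norm_lt_one hx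
  have a3 := ((a1.mul_left 2).add a2).mul_left q
  have e1 : (fun j : ℕ => (2 * (j : ℝ) + 1) * q ^ (2 * j + 1)) =
      fun i : ℕ => q * (2 * (↑i * (q ^ 2) ^ i) + (q ^ 2) ^ i) := by
    funext j; rw [pow_succ, pow_mul]; ring
  have e2 : q * (1 + q ^ 2) / (1 - q ^ 2) ^ 2 =
      q * (2 * (q ^ 2 / (1 - q ^ 2) ^ 2) + (1 - q ^ 2)⁻¹) := by
    have : (1 : ℝ) - q ^ 2 ≠ 0 := by intro h; linarith
    field_simp; ring
  rw [e1, e2]
  exact a3

lemma ell_eq {k : ℕ} (hk : 1 ≤ k) : 2 * (k : ℝ) / (2 * k - 1) - (2 * (k : ℝ) + 2) / (2 * k + 1) =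
    2 / ((2 * k - 1) * (2 * k + 1)) := by
  have hk1 : (1 : ℝ) ≤ k := by exact_mod_cast hk
  have h2 : (0 : ℝ) < 2 * k - 1 := by linarith
  have h3 : (0 : ℝ) < 2 * k + 1 := by linarith
  field_simp; ring

lemma D_lower {k : ℕ} (hk : 1 ≤ k) {r : ℝ} (hr : 1 < r) :
    2 / ((2 * (k : ℝ) - 1) * (2 * k + 1)) * (exp ((r - 1) / (2 * k + 2)) -
      exp (-((r - 1) / (2 * k + 1))) * (1 + exp (-((r - 1) / (2 * k + 1))) ^ 2) /
        (1 - exp (-((r - 1) / (2 * k + 1))) ^ 2) ^ 2) ≤ (f k r - f (k + 1) r) / r := by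
  have hk1 : (1 : ℝ) ≤ k := by exact_mod_cast hk
  have h2 : (0 : ℝ) < 2 * k - 1 := by linarith
  have h3 : (0 : ℝ) < 2 * k + 1 := by linarith
  have h4 : (0 : ℝ) < 2 * k + 2 := by linarith
  have hr0 : 0 < r := by linarith
  have hr1 : 0 < r - 1 := by linarith
  set Q : ℝ := exp (-((r - 1) / (2 * k + 1))) with hQ
  have hQ0 : 0 ≤ Q := (Real.exp_pos _).le
  have hQ1 : Q < 1 := by
    rw [hQ, Real.exp_lt_one_iff]
    have : 0 < (r - 1) / (2 * (k : ℝ) + 1) := by positivity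
    linarith
  have esum : ∀ (t X : ℝ) (F : ℕ → ℝ), (X - ∑ i ∈ Finset.range k, F i) / t =
      X / t - ∑ i ∈ Finset.range k, F i / t := by
    intro t X F; rw [sub_div, Finset.sum_div]
  rw [D_decomp hk hr0, esum, mul_sub]
  have hab : (2 * (k : ℝ) + 2) / (2 * k + 1) ≤ 2 * (k : ℝ) / (2 * k - 1) := by
    rw [div_le_div_iff₀ h3 h2]; nlinarith
  refine sub_le_sub ?_ ?_
  · refine le_trans ?_ (Q_ge (by positivity) hab hr.le)
    rw [ell_eq hk]
    refine mul_le_mul_of_nonneg_left ?_ (by positivity)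
    have ha0 : 0 < (2 * (k : ℝ) + 2) / (2 * k + 1) := by positivity
    rw [Real.rpow_def_of_pos ha0]
    refine Real.exp_le_exp.2 ?_
    have h5 := Real.one_sub_inv_le_log_of_pos ha0
    have e : 1 - ((2 * (k : ℝ) + 2) / (2 * k + 1))⁻¹ = 1 / (2 * k + 2) := by
      rw [inv_div]; field_simp; ring
    rw [e] at h5
    calc (r - 1) / (2 * (k : ℝ) + 2) = 1 / (2 * k + 2) * (r - 1) := by ring
      _ ≤ _ := mul_le_mul_of_nonneg_right h5 hr1.le
  · have hsum := sum_le_hasSum (Finset.range k) (fun j _ => by positivity) (hasSum_T hQ0 hQ1)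
    refine le_trans ?_ (mul_le_mul_of_nonneg_left hsum (by positivity))
    rw [← Finset.sum_range_reflect, Finset.mul_sum]
    refine Finset.sum_le_sum fun i hi => ?_
    have hi' : i + 1 ≤ k := Finset.mem_range.1 hi
    have hik : (i : ℝ) + 1 ≤ k := by exact_mod_cast hi'
    have e : (((k - 1 - i : ℕ) : ℝ)) = k - 1 - i := by
      rw [show k - 1 - i = k - (i + 1) by omega, Nat.cast_sub hi']; push_cast; ring
    rw [e]
    have hcd : 2 * ((k : ℝ) - 1 - i) / (2 * k - 1) ≤ 2 * ((k : ℝ) - 1 - i + 1) / (2 * k + 1) := by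
      rw [div_le_div_iff₀ h2 h3]
      nlinarith [(Nat.cast_nonneg i : (0 : ℝ) ≤ (i : ℝ))]
    refine (P_le (div_nonneg (by linarith) h2.le) hcd hr.le).trans ?_
    have e3 : 2 * ((k : ℝ) - 1 - i + 1) / (2 * k + 1) - 2 * ((k : ℝ) - 1 - i) / (2 * k - 1) =
        2 / ((2 * k - 1) * (2 * k + 1)) * (2 * (i : ℝ) + 1) := by
      field_simp; ring
    rw [e3, mul_assoc]
    refine mul_le_mul_of_nonneg_left ?_ (by positivity)
    refine mul_le_mul_of_nonneg_left ?_ (by positivity)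
    have hc0 : 0 < 2 * ((k : ℝ) - 1 - i + 1) / (2 * k + 1) := div_pos (by linarith) h3
    rw [Real.rpow_def_of_pos hc0, hQ, ← Real.exp_nat_mul]
    refine Real.exp_le_exp.2 ?_
    have h5 := Real.log_le_sub_one_of_pos hc0
    have e4 : 2 * ((k : ℝ) - 1 - i + 1) / (2 * k + 1) - 1 = -((2 * i + 1) / (2 * k + 1)) := by
      field_simp; ring
    rw [e4] at h5
    refine (mul_le_mul_of_nonneg_right h5 hr1.le).trans (le_of_eq ?_)
    push_cast
    ring

lemma D_upper {k J : ℕ} (hJ : J < k) {r : ℝ} (hr : 1 < r) :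
    (f k r - f (k + 1) r) / r ≤ 2 / ((2 * (k : ℝ) - 1) * (2 * k + 1)) *
      (exp ((r - 1) / (2 * k - 1)) - ∑ j ∈ Finset.range J, (2 * (j : ℝ) + 1) *
        exp (-((r - 1) / (2 * (k - J)))) ^ (2 * j + 1)) := by
  have hk : 1 ≤ k := by omega
  have hk1 : (1 : ℝ) ≤ k := by exact_mod_cast hk
  have h2 : (0 : ℝ) < 2 * k - 1 := by linarith
  have h3 : (0 : ℝ) < 2 * k + 1 := by linarith
  have hJk : (J : ℝ) + 1 ≤ k := by exact_mod_cast hJ
  have hr0 : 0 < r := by linarith
  have hr1 : 0 < r - 1 := by linarith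
  have esum : ∀ (t X : ℝ) (F : ℕ → ℝ), (X - ∑ i ∈ Finset.range k, F i) / t =
      X / t - ∑ i ∈ Finset.range k, F i / t := by
    intro t X F; rw [sub_div, Finset.sum_div]
  rw [D_decomp hk hr0, esum, mul_sub]
  have hab : (2 * (k : ℝ) + 2) / (2 * k + 1) ≤ 2 * (k : ℝ) / (2 * k - 1) := by
    rw [div_le_div_iff₀ h3 h2]; nlinarith
  refine sub_le_sub ?_ ?_
  · refine (P_le (by positivity) hab hr.le).trans ?_
    rw [ell_eq hk]
    refine mul_le_mul_of_nonneg_left ?_ (by positivity)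
    have hb0 : 0 < 2 * (k : ℝ) / (2 * k - 1) := by positivity
    rw [Real.rpow_def_of_pos hb0]
    refine Real.exp_le_exp.2 ?_
    have h5 := Real.log_le_sub_one_of_pos hb0
    have e : 2 * (k : ℝ) / (2 * k - 1) - 1 = 1 / (2 * k - 1) := by field_simp; ring
    rw [e] at h5
    refine (mul_le_mul_of_nonneg_right h5 hr1.le).trans (le_of_eq ?_)
    ring
  · rw [← Finset.sum_range_reflect (fun i : ℕ => ((2 * ((i : ℝ) + 1) / (2 * k + 1)) ^ r -
      (2 * (i : ℝ) / (2 * k - 1)) ^ r) / r), Finset.mul_sum]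
    have hcd : ∀ i : ℕ, i < k →
        2 * ((k : ℝ) - 1 - i) / (2 * k - 1) ≤ 2 * ((k : ℝ) - 1 - i + 1) / (2 * k + 1) := by
      intro i hi
      have hik : (i : ℝ) + 1 ≤ k := by exact_mod_cast hi
      rw [div_le_div_iff₀ h2 h3]
      nlinarith [(Nat.cast_nonneg i : (0 : ℝ) ≤ (i : ℝ))]
    have e : ∀ i : ℕ, i < k → (((k - 1 - i : ℕ) : ℝ)) = k - 1 - i := by
      intro i hi
      rw [show k - 1 - i = k - (i + 1) by omega, Nat.cast_sub hi]; push_cast; ring
    refine le_trans ?_ (Finset.sum_le_sum_of_subset_of_nonneg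
      (Finset.range_subset_range.2 hJ.le) fun i hi _ => ?_)
    · refine Finset.sum_le_sum fun i hi => ?_
      have hiJ : i < J := Finset.mem_range.1 hi
      have hiJ' : (i : ℝ) + 1 ≤ J := by exact_mod_cast hiJ
      have hik : i < k := by omega
      rw [e i hik]
      have hd0 : 0 < 2 * ((k : ℝ) - 1 - i) / (2 * k - 1) := div_pos (by linarith) h2
      refine le_trans ?_ (Q_ge hd0.le (hcd i hik) hr.le)
      have e3 : 2 * ((k : ℝ) - 1 - i + 1) / (2 * k + 1) - 2 * ((k : ℝ) - 1 - i) / (2 * k - 1) =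
          2 / ((2 * k - 1) * (2 * k + 1)) * (2 * (i : ℝ) + 1) := by
        field_simp; ring
      rw [e3, mul_assoc]
      refine mul_le_mul_of_nonneg_left ?_ (by positivity)
      refine mul_le_mul_of_nonneg_left ?_ (by positivity)
      rw [Real.rpow_def_of_pos hd0, ← Real.exp_nat_mul]
      refine Real.exp_le_exp.2 ?_
      have h5 := Real.one_sub_inv_le_log_of_pos hd0
      have hne : (k : ℝ) - 1 - i ≠ 0 := by intro h; linarith
      have e4 : 1 - (2 * ((k : ℝ) - 1 - i) / (2 * k - 1))⁻¹ = -((2 * i + 1) / (2 * (k - 1 - i))) := by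
        rw [inv_div]; field_simp; ring
      rw [e4] at h5
      refine le_trans ?_ (mul_le_mul_of_nonneg_right h5 hr1.le)
      have h6 : (2 * (i : ℝ) + 1) / (2 * (k - 1 - i)) ≤ (2 * (i : ℝ) + 1) / (2 * (k - J)) := by
        refine div_le_div_of_nonneg_left (by positivity) (by linarith) (by linarith)
      have h7 := mul_le_mul_of_nonneg_right h6 hr1.le
      push_cast
      calc (2 * (i : ℝ) + 1) * -((r - 1) / (2 * (k - J))) =
            -((2 * (i : ℝ) + 1) / (2 * (k - J)) * (r - 1)) := by ring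
        _ ≤ -((2 * (i : ℝ) + 1) / (2 * (k - 1 - i)) * (r - 1)) := by linarith
        _ = _ := by ring
    · have hik : i < k := Finset.mem_range.1 hi
      have hik' : (i : ℝ) + 1 ≤ k := by exact_mod_cast hik
      rw [e i hik]
      have hd0 : 0 ≤ 2 * ((k : ℝ) - 1 - i) / (2 * k - 1) := div_nonneg (by linarith) h2.le
      exact div_nonneg (sub_nonneg.2 (Real.rpow_le_rpow hd0 (hcd i hik) hr0.le)) hr0.le

lemma tendsto_lin (t c d : ℝ) : Tendsto (fun k : ℕ => (t * (k : ℝ) + c) / (2 * (k : ℝ) + d)) atTop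
    (𝓝 (t / 2)) := by
  have h1 : Tendsto (fun k : ℕ => (t + c / (k : ℝ)) / (2 + d / (k : ℝ))) atTop
      (𝓝 ((t + 0) / (2 + 0))) := by
    refine Tendsto.div ?_ ?_ (by norm_num)
    · exact tendsto_const_nhds.add (tendsto_const_div_atTop_nhds_zero_nat c)
    · exact tendsto_const_nhds.add (tendsto_const_div_atTop_nhds_zero_nat d)
  rw [add_zero, add_zero] at h1
  refine h1.congr' ?_
  filter_upwards [eventually_ge_atTop 1] with k hk
  have hk0 : (k : ℝ) ≠ 0 := by
    have : k ≠ 0 := by omega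
    exact_mod_cast this
  have e1 : t + c / (k : ℝ) = (t * k + c) / k := by field_simp
  have e2 : 2 + d / (k : ℝ) = (2 * k + d) / k := by field_simp
  rw [e1, e2, div_div_div_cancel_right₀ hk0]

/-- Above `k log 3` -/
lemma ev_gt {t : ℝ} (ht : Real.log 3 < t) :
    ∀ᶠ k : ℕ in atTop, f (k + 1) (t * k) < f k (t * k) := by
  have hl3 : 0 < Real.log 3 := Real.log_pos (by norm_num)
  have ht0 : 0 < t := by linarith
  set q : ℝ := exp (-(t / 2)) with hq
  have hq0 : 0 < q := Real.exp_pos _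
  have hq2 : q ^ 2 < 1 / 3 := by
    rw [hq, ← Real.exp_nat_mul]
    have : ((2 : ℕ) : ℝ) * -(t / 2) = -t := by push_cast; ring
    rw [this, ← Real.exp_log (by norm_num : (0 : ℝ) < 1 / 3)]
    refine Real.exp_lt_exp.2 ?_
    rw [one_div, Real.log_inv]
    linarith
  have hne : (1 : ℝ) - q ^ 2 ≠ 0 := by intro h; linarith
  have hA : Tendsto (fun k : ℕ => exp ((t * (k : ℝ) - 1) / (2 * k + 2))) atTop (𝓝 (exp (t / 2))) :=
    (Real.continuous_exp.tendsto _).comp (tendsto_lin t (-1) 2)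
  have hB : Tendsto (fun k : ℕ => exp (-((t * (k : ℝ) - 1) / (2 * k + 1)))) atTop (𝓝 q) :=
    (Real.continuous_exp.tendsto _).comp (tendsto_lin t (-1) 1).neg
  have hC : Tendsto (fun k : ℕ => exp ((t * (k : ℝ) - 1) / (2 * k + 2)) -
      exp (-((t * (k : ℝ) - 1) / (2 * k + 1))) *
        (1 + exp (-((t * (k : ℝ) - 1) / (2 * k + 1))) ^ 2) /
        (1 - exp (-((t * (k : ℝ) - 1) / (2 * k + 1))) ^ 2) ^ 2) atTop
      (𝓝 (exp (t / 2) - q * (1 + q ^ 2) / (1 - q ^ 2) ^ 2)) := by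
    refine hA.sub (Tendsto.div (hB.mul (tendsto_const_nhds.add (hB.pow 2)))
      ((tendsto_const_nhds.sub (hB.pow 2)).pow 2) (pow_ne_zero 2 hne))
  have hpos : 0 < exp (t / 2) - q * (1 + q ^ 2) / (1 - q ^ 2) ^ 2 := by
    have e : exp (t / 2) = 1 / q := by
      rw [hq, Real.exp_neg]; simp
    rw [e, sub_pos, div_lt_div_iff₀ (by positivity) hq0]
    nlinarith
  filter_upwards [hC.eventually (lt_mem_nhds hpos), eventually_ge_atTop 1,
    (tendsto_natCast_atTop_atTop (R := ℝ)).eventually_gt_atTop (1 / t)] with k h1 h2 h3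
  have hk1 : (1 : ℝ) ≤ k := by exact_mod_cast h2
  have h4 : (0 : ℝ) < 2 * k - 1 := by linarith
  have hr : 1 < t * (k : ℝ) := by
    rw [div_lt_iff₀ ht0] at h3; linarith
  have h5 := D_lower h2 hr
  have h6 : 0 < (f k (t * k) - f (k + 1) (t * k)) / (t * k) :=
    lt_of_lt_of_le (mul_pos (by positivity) h1) h5
  by_contra hcon
  push Not at hcon
  have := div_nonpos_of_nonpos_of_nonneg (sub_nonpos.2 hcon) (by linarith : 0 ≤ t * (k : ℝ))
  linarith

/-- Below `k log 3` -/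
lemma ev_lt {t : ℝ} (ht0 : 0 < t) (ht : t < Real.log 3) :
    ∀ᶠ k : ℕ in atTop, f k (t * k) < f (k + 1) (t * k) := by
  set q : ℝ := exp (-(t / 2)) with hq
  have hq0 : 0 < q := Real.exp_pos _
  have hq1 : q < 1 := by rw [hq, Real.exp_lt_one_iff]; linarith
  have hq2 : 1 / 3 < q ^ 2 := by
    rw [hq, ← Real.exp_nat_mul]
    have : ((2 : ℕ) : ℝ) * -(t / 2) = -t := by push_cast; ring
    rw [this, ← Real.exp_log (by norm_num : (0 : ℝ) < 1 / 3)]
    refine Real.exp_lt_exp.2 ?_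
    rw [one_div, Real.log_inv]
    linarith
  have hq3 : 0 < 1 - q ^ 2 := by nlinarith
  have e : exp (t / 2) = 1 / q := by
    rw [hq, Real.exp_neg]; simp
  have hlim : exp (t / 2) < q * (1 + q ^ 2) / (1 - q ^ 2) ^ 2 := by
    rw [e, div_lt_div_iff₀ hq0 (by positivity)]
    nlinarith
  obtain ⟨J, hJ⟩ := ((hasSum_T hq0.le hq1).tendsto_sum_nat.eventually (lt_mem_nhds hlim)).exists
  have hA : Tendsto (fun k : ℕ => exp ((t * (k : ℝ) - 1) / (2 * k - 1))) atTop (𝓝 (exp (t / 2))) :=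
    (Real.continuous_exp.tendsto _).comp (tendsto_lin t (-1) (-1))
  have hB : Tendsto (fun k : ℕ => exp (-((t * (k : ℝ) - 1) / (2 * (k - J))))) atTop (𝓝 q) := by
    have h1 := (tendsto_lin t (-1) (-(2 * (J : ℝ)))).neg
    have h2 := (Real.continuous_exp.tendsto _).comp h1
    refine h2.congr fun k => ?_
    simp only [Function.comp_apply]
    congr 3; ring
  have hC : Tendsto (fun k : ℕ => exp ((t * (k : ℝ) - 1) / (2 * k - 1)) -
      ∑ j ∈ Finset.range J, (2 * (j : ℝ) + 1) *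
        exp (-((t * (k : ℝ) - 1) / (2 * (k - J)))) ^ (2 * j + 1)) atTop
      (𝓝 (exp (t / 2) - ∑ j ∈ Finset.range J, (2 * (j : ℝ) + 1) * q ^ (2 * j + 1))) := by
    refine hA.sub (tendsto_finsetSum _ fun j _ => ?_)
    exact (hB.pow (2 * j + 1)).const_mul _
  have hneg : exp (t / 2) - ∑ j ∈ Finset.range J, (2 * (j : ℝ) + 1) * q ^ (2 * j + 1) < 0 := by
    linarith
  filter_upwards [hC.eventually (gt_mem_nhds hneg), eventually_gt_atTop J,
    (tendsto_natCast_atTop_atTop (R := ℝ)).eventually_gt_atTop (1 / t)] with k h1 h2 h3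
  have hk1 : (1 : ℝ) ≤ k := by
    have : 1 ≤ k := by omega
    exact_mod_cast this
  have h4 : (0 : ℝ) < 2 * k - 1 := by linarith
  have hr : 1 < t * (k : ℝ) := by
    rw [div_lt_iff₀ ht0] at h3; linarith
  have h5 := D_upper h2 hr
  have h6 : (f k (t * k) - f (k + 1) (t * k)) / (t * k) < 0 :=
    lt_of_le_of_lt h5 (mul_neg_of_pos_of_neg (by positivity) h1)
  by_contra hcon
  push Not at hcon
  have := div_nonneg (sub_nonneg.2 hcon) (by linarith : 0 ≤ t * (k : ℝ))
  linarith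

theorem ρ_asymp : Tendsto (fun k : ℕ => ρ k / (k * Real.log 3)) atTop (𝓝 1) := by
  have hl3 : 0 < Real.log 3 := Real.log_pos (by norm_num)
  refine tendsto_order.2 ⟨fun c hc => ?_, fun c hc => ?_⟩
  · set c' : ℝ := (max c 0 + 1) / 2 with hc'
    have hm : max c 0 < 1 := max_lt hc one_pos
    have h1 : c < c' := by
      have := le_max_left c 0
      rw [hc']; linarith
    have h0 : 0 < c' := by
      have := le_max_right c 0
      rw [hc']; linarith
    have h2 : c' < 1 := by rw [hc']; linarith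
    filter_upwards [ev_lt (t := c' * Real.log 3) (by positivity) (by nlinarith),
      eventually_ge_atTop 1] with k hk1 hk2
    have hk3 : (1 : ℝ) ≤ k := by exact_mod_cast hk2
    have h3 : c' * Real.log 3 * k ≤ ρ k := by
      by_contra hcon
      push Not at hcon
      exact absurd hk1 (not_lt.2 (f_gt_of_gt hk2 hcon).le)
    rw [lt_div_iff₀ (by positivity)]
    have h4 : c * (k * Real.log 3) < c' * (k * Real.log 3) :=
      mul_lt_mul_of_pos_right h1 (by positivity)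
    linarith
  · set c' : ℝ := (1 + c) / 2 with hc'
    have h1 : c' < c := by rw [hc']; linarith
    have h2 : 1 < c' := by rw [hc']; linarith
    filter_upwards [ev_gt (t := c' * Real.log 3) (by nlinarith),
      eventually_ge_atTop 1] with k hk1 hk2
    have hk3 : (1 : ℝ) ≤ k := by exact_mod_cast hk2
    have h3 : ρ k ≤ c' * Real.log 3 * k := by
      by_contra hcon
      push Not at hcon
      exact absurd hk1 (not_lt.2 (f_lt_of_lt hk2 hcon).le)
    rw [div_lt_iff₀ (by positivity)]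
    have h4 : c' * (k * Real.log 3) < c * (k * Real.log 3) :=
      mul_lt_mul_of_pos_right h1 (by positivity)
    linarith

end Pool.Agent.Q206.MH
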