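import Mathlib

/-!
# Random walk Metropolis chains on `ℤ`: the unit-lag moment ratio

Definitions shared by the hand-ins on `MP_819a4a_pr` and `MP_499f6d_pr`.
-/

namespace Pool.Agent.Q206.MH

open scoped ENNReal

/-- The power sum `S(k;r) = ∑_{i=1}^k i^r`. -/
noncomputable def S (k : ℕ) (r : ℝ) : ℝ := ∑ i ∈ Finset.range k, ((i : ℝ) + 1) ^ r

/-- `g(k;r) = (2k-1)^r / S(k;r)`. -/
noncomputable def g (k : ℕ) (r : ℝ) : ℝ := (2 * (k : ℝ) - 1) ^ r / S k r

/-- A target and a proposal step distribution on `ℤ` which are admissible for the exponent `r`. -/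
structure Admissible (r : ℝ) (π φ : ℤ → ℝ) : Prop where
  target_nonneg : ∀ x, 0 ≤ π x
  target_sum : HasSum π 1
  target_symm : ∀ x, π (-x) = π x
  target_unimodal : ∀ x y, |x| ≤ |y| → π y ≤ π x
  /-- the target is not a point mass -/
  target_nondeg : ∀ a, π a ≠ 1
  target_moment : Summable fun x : ℤ => |(x : ℝ)| ^ r * π x
  step_nonneg : ∀ z, 0 ≤ φ z
  step_sum : HasSum φ 1
  step_symm : ∀ z, φ (-z) = φ z
  /-- the step distribution is supported on the odd integers -/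
  step_odd : ∀ z, Even z → φ z = 0

/-- The acceptance probability of the proposal `x + z` in state `x`. -/
noncomputable def acc (π φ : ℤ → ℝ) (x z : ℤ) : ℝ :=
  if π x * φ z = 0 then 1 else min 1 (π (x + z) * φ (-z) / (π x * φ z))

/-- The transition probabilities of the random walk Metropolis-Hastings chain. -/
noncomputable def trans (π φ : ℤ → ℝ) (x y : ℤ) : ℝ≥0∞ :=
  ENNReal.ofReal (φ (y - x) * acc π φ x (y - x)) +
    if y = x then ∑' z, ENNReal.ofReal (φ z * (1 - acc π φ x z)) else 0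

/-- `E |X₁ - X₀|^r` for the stationary chain. -/
noncomputable def jump (r : ℝ) (π φ : ℤ → ℝ) : ℝ≥0∞ :=
  ∑' x : ℤ, ∑' y : ℤ, ENNReal.ofReal (π x) * trans π φ x y *
    ENNReal.ofReal (|((y - x : ℤ) : ℝ)| ^ r)

/-- `E |X₀|^r`. -/
noncomputable def moment (r : ℝ) (π : ℤ → ℝ) : ℝ≥0∞ :=
  ∑' x : ℤ, ENNReal.ofReal (π x) * ENNReal.ofReal (|(x : ℝ)| ^ r)

/-- The extremal ratio `s(r) = sup E|X₁-X₀|^r / E|X₀|^r` over all admissible pairs. -/
noncomputable def s (r : ℝ) : ℝ≥0∞ :=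
  ⨆ (π : ℤ → ℝ) (φ : ℤ → ℝ) (_ : Admissible r π φ), jump r π φ / moment r π

lemma S_zero (r : ℝ) : S 0 r = 0 := by simp [S]

lemma S_succ (k : ℕ) (r : ℝ) : S (k + 1) r = S k r + ((k : ℝ) + 1) ^ r := by
  simp [S, Finset.sum_range_succ]

lemma S_nonneg (k : ℕ) (r : ℝ) : 0 ≤ S k r :=
  Finset.sum_nonneg fun i _ => by positivity

lemma S_pos {k : ℕ} (hk : 1 ≤ k) (r : ℝ) : 0 < S k r := by
  obtain ⟨j, rfl⟩ : ∃ j, k = j + 1 := ⟨k - 1, by omega⟩
  rw [S_succ]
  have h1 := S_nonneg j r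
  have : (0 : ℝ) < ((j : ℝ) + 1) ^ r := by positivity
  linarith

lemma S_one (r : ℝ) : S 1 r = 1 := by simp [S]

lemma g_one (r : ℝ) : g 1 r = 1 := by
  simp only [g, S_one, Nat.cast_one, div_one]
  norm_num

lemma g_pos {k : ℕ} (hk : 1 ≤ k) (r : ℝ) : 0 < g k r := by
  have h1 : (1 : ℝ) ≤ k := by exact_mod_cast hk
  have h2 : (0 : ℝ) < 2 * k - 1 := by linarith
  have := S_pos hk r
  unfold g
  positivity

end Pool.Agent.Q206.MH
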