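import Pool.Agent.Q206.MH.Basic

namespace Pool.Agent.Q206.MH

open scoped ENNReal

variable {r : ℝ} {π φ : ℤ → ℝ}

lemma acc_eq (hA : Admissible r π φ) (x z : ℤ) :
    π x * (φ z * acc π φ x z) = φ z * min (π x) (π (x + z)) := by
  have h1 := hA.target_nonneg x
  have h2 := hA.target_nonneg (x + z)
  have h3 := hA.step_nonneg z
  unfold acc
  split_ifs with h
  · rcases mul_eq_zero.1 h with h | h
    · rw [h]; simp [min_eq_left h2]
    · rw [h]; simp
  · have hx : π x ≠ 0 := fun h' => h (by rw [h']; simp)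
    have hz : φ z ≠ 0 := fun h' => h (by rw [h']; simp)
    have hx' : 0 < π x := lt_of_le_of_ne h1 (Ne.symm hx)
    rw [hA.step_symm z]
    have : π (x + z) * φ z / (π x * φ z) = π (x + z) / π x := by
      field_simp
    rw [this]
    have e : π x * min 1 (π (x + z) / π x) = min (π x) (π (x + z)) := by
      rw [mul_min_of_nonneg _ _ h1]
      congr 1
      · ring
      · field_simp
    calc π x * (φ z * min 1 (π (x + z) / π x)) = φ z * (π x * min 1 (π (x + z) / π x)) := by ring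
      _ = _ := by rw [e]

lemma jump_eq (hr : 0 < r) (hA : Admissible r π φ) :
    jump r π φ = ∑' z : ℤ, ENNReal.ofReal (φ z) * ENNReal.ofReal (|(z : ℝ)| ^ r) *
      ∑' x : ℤ, ENNReal.ofReal (min (π x) (π (x + z))) := by
  have h0 : ∀ x : ℤ, ∑' y : ℤ, ENNReal.ofReal (π x) * trans π φ x y *
      ENNReal.ofReal (|((y - x : ℤ) : ℝ)| ^ r) =
      ∑' z : ℤ, ENNReal.ofReal (φ z) * ENNReal.ofReal (|(z : ℝ)| ^ r) *
        ENNReal.ofReal (min (π x) (π (x + z))) := by
    intro x
    rw [← (Equiv.addLeft x).tsum_eq]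
    refine tsum_congr fun z => ?_
    simp only [Equiv.coe_addLeft, add_sub_cancel_left]
    by_cases hz : z = 0
    · subst hz
      simp [Real.zero_rpow hr.ne']
    · have : ¬ (x + z = x) := by omega
      unfold trans
      rw [if_neg this, add_zero, add_sub_cancel_left, ← ENNReal.ofReal_mul (hA.target_nonneg x),
        acc_eq hA, ENNReal.ofReal_mul (hA.step_nonneg z)]
      ring
  unfold jump
  rw [tsum_congr h0, ENNReal.tsum_comm]
  refine tsum_congr fun z => ?_
  rw [ENNReal.tsum_mul_left]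

lemma tsum_int_shift (f : ℤ → ℝ≥0∞) (k : ℤ) :
    ∑' x : ℤ, f x = ∑' n : ℕ, f ((n : ℤ) - k) + ∑' n : ℕ, f (-((n : ℤ) + 1) - k) := by
  rw [← (Equiv.subRight k).tsum_eq f]
  have h := tsum_of_nat_of_neg_add_one (f := fun x : ℤ => f ((Equiv.subRight k) x))
    ENNReal.summable ENNReal.summable
  rw [h]
  rfl

lemma pi_natAbs (hA : Admissible r π φ) (x : ℤ) : π x = π (x.natAbs : ℤ) := by
  rcases Int.natAbs_eq x with h | h
  · rw [← h]
  · conv_lhs => rw [h]
    rw [hA.target_symm]

lemma overlap_pos (hA : Admissible r π φ) (k : ℕ) (hk : 1 ≤ k) :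
    ∑' x : ℤ, ENNReal.ofReal (min (π x) (π (x + (2 * (k : ℤ) - 1)))) ≤
      2 * ∑' n : ℕ, ENNReal.ofReal (π ((n : ℤ) + k)) := by
  rw [tsum_int_shift _ ((k : ℤ) - 1), two_mul (∑' n : ℕ, ENNReal.ofReal (π ((n : ℤ) + k)))]
  refine add_le_add (ENNReal.tsum_le_tsum fun n => ?_) (ENNReal.tsum_le_tsum fun n => ?_)
  · refine ENNReal.ofReal_le_ofReal ((min_le_right _ _).trans (le_of_eq ?_))
    congr 1; ring
  · refine ENNReal.ofReal_le_ofReal ((min_le_left _ _).trans (le_of_eq ?_))
    rw [← hA.target_symm]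
    congr 1; ring

lemma overlap_neg (hA : Admissible r π φ) (z : ℤ) :
    ∑' x : ℤ, ENNReal.ofReal (min (π x) (π (x + -z))) =
      ∑' x : ℤ, ENNReal.ofReal (min (π x) (π (x + z))) := by
  rw [← (Equiv.neg ℤ).tsum_eq]
  refine tsum_congr fun x => ?_
  simp only [Equiv.neg_apply]
  rw [hA.target_symm, show -x + -z = -(x + z) by ring, hA.target_symm]

lemma overlap (hA : Admissible r π φ) (k : ℕ) (hk : 1 ≤ k) (z : ℤ)
    (hz : z = 2 * (k : ℤ) - 1 ∨ z = -(2 * (k : ℤ) - 1)) :
    ∑' x : ℤ, ENNReal.ofReal (min (π x) (π (x + z))) ≤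
      2 * ∑' n : ℕ, ENNReal.ofReal (π ((n : ℤ) + k)) := by
  rcases hz with rfl | rfl
  · exact overlap_pos hA k hk
  · rw [overlap_neg hA]
    exact overlap_pos hA k hk

lemma moment_eq (hr : 0 < r) (hA : Admissible r π φ) :
    moment r π = 2 * ∑' n : ℕ, ENNReal.ofReal (((n : ℝ) + 1) ^ r * π ((n : ℤ) + 1)) := by
  unfold moment
  rw [tsum_int_shift _ 0, two_mul]
  congr 1
  · rw [tsum_eq_zero_add' ENNReal.summable]
    simp only [Nat.cast_zero, sub_zero, Int.cast_zero, abs_zero, Real.zero_rpow hr.ne',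
      ENNReal.ofReal_zero, mul_zero, zero_add]
    refine tsum_congr fun n => ?_
    rw [← ENNReal.ofReal_mul (hA.target_nonneg _), mul_comm]
    push_cast
    rw [abs_of_nonneg (by positivity)]
  · refine tsum_congr fun n => ?_
    rw [← ENNReal.ofReal_mul (hA.target_nonneg _), mul_comm, sub_zero, hA.target_symm]
    push_cast
    rw [abs_neg, abs_of_nonneg (by positivity)]

/-- Abel summation. -/
lemma abel {a : ℕ → ℝ} (ha : Antitone a) (ha0 : ∀ n, 0 ≤ a n) {C : ℝ} {k : ℕ} (hk : 1 ≤ k)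
    (hH : ∀ m, k ≤ m → (2 * (k : ℝ) - 1) ^ r * ((m : ℝ) - k + 1) ≤ C * S m r) (hC : 0 ≤ C)
    (M : ℕ) :
    (2 * (k : ℝ) - 1) ^ r * ∑ n ∈ Finset.range M, a (n + (k - 1)) ≤
      C * ∑ i ∈ Finset.range (M + (k - 1)), ((i : ℝ) + 1) ^ r * a i := by
  set c := (2 * (k : ℝ) - 1) ^ r with hc
  obtain ⟨j, rfl⟩ : ∃ j, k = j + 1 := ⟨k - 1, by omega⟩
  simp only [Nat.add_sub_cancel]
  -- first the indices below `k - 1`
  have hS : ∀ m, C * S m r * a m ≤ C * ∑ i ∈ Finset.range m, ((i : ℝ) + 1) ^ r * a i := by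
    intro m
    rw [mul_assoc]
    refine mul_le_mul_of_nonneg_left ?_ hC
    unfold S
    rw [Finset.sum_mul]
    refine Finset.sum_le_sum fun i hi => ?_
    exact mul_le_mul_of_nonneg_left (ha (Finset.mem_range.1 hi).le) (by positivity)
  have key : ∀ M : ℕ, (C * S (M + j) r - c * M) * a (M + j - 1) ≤
      C * ∑ i ∈ Finset.range (M + j), ((i : ℝ) + 1) ^ r * a i -
        c * ∑ n ∈ Finset.range M, a (n + j) := by
    intro M
    induction M with
    | zero =>
      simp only [Nat.cast_zero, mul_zero, sub_zero, Finset.range_zero, Finset.sum_empty, zero_add]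
      rcases Nat.eq_zero_or_pos j with hj | hj
      · subst hj
        simp [S_zero]
      · rw [mul_assoc]
        refine mul_le_mul_of_nonneg_left ?_ hC
        unfold S
        rw [Finset.sum_mul]
        refine Finset.sum_le_sum fun i hi => ?_
        have : i ≤ j - 1 := by have := Finset.mem_range.1 hi; omega
        exact mul_le_mul_of_nonneg_left (ha this) (by positivity)
    | succ M ih =>
      have e1 : M + 1 + j - 1 = M + j := by omega
      have e2 : M + 1 + j = (M + j) + 1 := by omega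
      rw [e1, e2, S_succ, Finset.sum_range_succ, Finset.sum_range_succ]
      have h1 : (C * S (M + j) r - c * M) * a (M + j) ≤ (C * S (M + j) r - c * M) * a (M + j - 1) := by
        rcases Nat.eq_zero_or_pos M with hM | hM
        · subst hM
          simp only [Nat.cast_zero, mul_zero, sub_zero, zero_add]
          refine mul_le_mul_of_nonneg_left (ha (by omega)) (mul_nonneg hC (S_nonneg _ _))
        · have h2 := hH (M + j) (by omega)
          have h3 : ((M + j : ℕ) : ℝ) - ((j + 1 : ℕ) : ℝ) + 1 = M := by push_cast; ring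
          rw [h3] at h2
          refine mul_le_mul_of_nonneg_left (ha (by omega)) (by linarith)
      push_cast
      nlinarith [h1, ih]
  have h1 := key M
  have h2 : 0 ≤ (C * S (M + j) r - c * M) * a (M + j - 1) := by
    refine mul_nonneg ?_ (ha0 _)
    rcases Nat.eq_zero_or_pos M with hM | hM
    · subst hM
      simp only [Nat.cast_zero, mul_zero, sub_zero]
      exact mul_nonneg hC (S_nonneg _ _)
    · have h2 := hH (M + j) (by omega)
      have h3 : ((M + j : ℕ) : ℝ) - ((j + 1 : ℕ) : ℝ) + 1 = M := by push_cast; ring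
      rw [h3] at h2
      linarith
  linarith

lemma tail_le (hr : 0 < r) (hA : Admissible r π φ) {C : ℝ} (hC : 0 ≤ C) {k : ℕ} (hk : 1 ≤ k)
    (hH : ∀ m, k ≤ m → (2 * (k : ℝ) - 1) ^ r * ((m : ℝ) - k + 1) ≤ C * S m r) :
    ENNReal.ofReal ((2 * (k : ℝ) - 1) ^ r) * (2 * ∑' n : ℕ, ENNReal.ofReal (π ((n : ℤ) + k))) ≤
      ENNReal.ofReal C * moment r π := by
  rw [moment_eq hr hA, mul_left_comm, mul_left_comm (ENNReal.ofReal C)]
  refine mul_le_mul_right ?_ 2
  rw [← ENNReal.tsum_mul_left]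
  refine ENNReal.tsum_le_of_sum_range_le fun M => ?_
  have ha : Antitone fun n : ℕ => π ((n : ℤ) + 1) := by
    intro i j hij
    refine hA.target_unimodal _ _ ?_
    rw [abs_of_nonneg (by positivity), abs_of_nonneg (by positivity)]
    have : (i : ℤ) ≤ j := by exact_mod_cast hij
    linarith
  have h2 : (0 : ℝ) ≤ 2 * (k : ℝ) - 1 := by
    have : (1 : ℝ) ≤ k := by exact_mod_cast hk
    linarith
  have h1 := abel (r := r) ha (fun n => hA.target_nonneg _) hk hH hC M
  calc ∑ n ∈ Finset.range M, ENNReal.ofReal ((2 * (k : ℝ) - 1) ^ r) * ENNReal.ofReal (π ((n : ℤ) + k))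
      = ENNReal.ofReal ((2 * (k : ℝ) - 1) ^ r * ∑ n ∈ Finset.range M, π (((n + (k - 1) : ℕ) : ℤ) + 1)) := by
        rw [Finset.mul_sum, ENNReal.ofReal_sum_of_nonneg]
        · refine Finset.sum_congr rfl fun n _ => ?_
          rw [← ENNReal.ofReal_mul (by positivity)]
          congr 3
          push_cast [Nat.cast_sub hk]
          ring
        · intro n _
          exact mul_nonneg (by positivity) (hA.target_nonneg _)
    _ ≤ ENNReal.ofReal (C * ∑ i ∈ Finset.range (M + (k - 1)), ((i : ℝ) + 1) ^ r * π ((i : ℤ) + 1)) :=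
        ENNReal.ofReal_le_ofReal h1
    _ = ENNReal.ofReal C * ∑ i ∈ Finset.range (M + (k - 1)),
          ENNReal.ofReal (((i : ℝ) + 1) ^ r * π ((i : ℤ) + 1)) := by
        rw [ENNReal.ofReal_mul hC, ENNReal.ofReal_sum_of_nonneg]
        intro n _
        exact mul_nonneg (by positivity) (hA.target_nonneg _)
    _ ≤ _ := mul_le_mul_right (ENNReal.sum_le_tsum _) _

/-- The upper bound for the ratio. -/
theorem jump_le (hr : 0 < r) (hA : Admissible r π φ) {C : ℝ} (hC : 0 ≤ C)
    (hH : ∀ k m : ℕ, 1 ≤ k → k ≤ m → (2 * (k : ℝ) - 1) ^ r * ((m : ℝ) - k + 1) ≤ C * S m r) :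
    jump r π φ ≤ ENNReal.ofReal C * moment r π := by
  rw [jump_eq hr hA]
  have h1 : ∀ z : ℤ, ENNReal.ofReal (φ z) * ENNReal.ofReal (|(z : ℝ)| ^ r) *
      ∑' x : ℤ, ENNReal.ofReal (min (π x) (π (x + z))) ≤
      ENNReal.ofReal (φ z) * (ENNReal.ofReal C * moment r π) := by
    intro z
    rcases Int.even_or_odd z with hz | hz
    · rw [hA.step_odd z hz]; simp
    · obtain ⟨k, hk, hzk⟩ : ∃ k : ℕ, 1 ≤ k ∧ (z = 2 * (k : ℤ) - 1 ∨ z = -(2 * (k : ℤ) - 1)) := by
        obtain ⟨j, hj⟩ := hz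
        rcases le_or_gt 0 j with h | h
        · exact ⟨(j + 1).toNat, by omega, Or.inl (by omega)⟩
        · exact ⟨(-j).toNat, by omega, Or.inr (by omega)⟩
      rw [mul_assoc]
      refine mul_le_mul_right ?_ _
      have habs : |(z : ℝ)| = 2 * (k : ℝ) - 1 := by
        have h2 : (0 : ℝ) ≤ 2 * (k : ℝ) - 1 := by
          have : (1 : ℝ) ≤ k := by exact_mod_cast hk
          linarith
        rcases hzk with h | h
        · rw [h]; push_cast; exact abs_of_nonneg h2
        · rw [h]; push_cast; rw [abs_neg]; exact abs_of_nonneg h2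
      rw [habs]
      exact (mul_le_mul_right (overlap hA k hk z hzk) _).trans
        (tail_le hr hA hC hk fun m hm => hH k m hk hm)
  refine (ENNReal.tsum_le_tsum h1).trans ?_
  rw [ENNReal.tsum_mul_right]
  have h2 : ∑' z : ℤ, ENNReal.ofReal (φ z) = 1 := by
    rw [← ENNReal.ofReal_tsum_of_nonneg hA.step_nonneg hA.step_sum.summable, hA.step_sum.tsum_eq]
    simp
  rw [h2, one_mul]

lemma moment_ne_zero (hA : Admissible r π φ) : moment r π ≠ 0 := by
  intro h
  unfold moment at h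
  rw [ENNReal.tsum_eq_zero] at h
  have h1 : ∀ x : ℤ, x ≠ 0 → π x = 0 := by
    intro x hx
    have h2 := h x
    rw [mul_eq_zero] at h2
    rcases h2 with h2 | h2
    · exact le_antisymm (ENNReal.ofReal_eq_zero.1 h2) (hA.target_nonneg x)
    · exfalso
      have h3 : 0 < |(x : ℝ)| ^ r := by
        have : (0 : ℝ) < |(x : ℝ)| := by
          rw [abs_pos]; exact_mod_cast hx
        positivity
      have := ENNReal.ofReal_eq_zero.1 h2
      linarith
  have h4 : HasSum π (π 0) := hasSum_single 0 fun x hx => h1 x hx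
  exact hA.target_nondeg 0 (h4.unique hA.target_sum)

theorem s_le (hr : 0 < r) {C : ℝ} (hC : 0 ≤ C)
    (hH : ∀ k m : ℕ, 1 ≤ k → k ≤ m → (2 * (k : ℝ) - 1) ^ r * ((m : ℝ) - k + 1) ≤ C * S m r) :
    s r ≤ ENNReal.ofReal C := by
  unfold s
  refine iSup_le fun π => iSup_le fun φ => iSup_le fun hA => ?_
  exact ENNReal.div_le_of_le_mul (jump_le hr hA hC hH)

end Pool.Agent.Q206.MH
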