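import Pool.Agent.Q206.MH.Large

namespace Pool.Agent.Q206.MH

open Real

/-- `f(k;r) = 2^r / g(k;r)`, the normalised power sum. -/
noncomputable def f (k : ℕ) (r : ℝ) : ℝ := S k r * (2 / (2 * (k : ℝ) - 1)) ^ r

lemma f_pos {k : ℕ} (hk : 1 ≤ k) (r : ℝ) : 0 < f k r := by
  have h1 : (1 : ℝ) ≤ k := by exact_mod_cast hk
  have h2 : (0 : ℝ) < 2 * k - 1 := by linarith
  have := S_pos hk r
  unfold f; positivity

lemma f_eq {k : ℕ} (hk : 1 ≤ k) (r : ℝ) : f k r = 2 ^ r / g k r := by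
  have h1 : (1 : ℝ) ≤ k := by exact_mod_cast hk
  have h2 : (0 : ℝ) < 2 * k - 1 := by linarith
  have := S_pos hk r
  unfold f g
  rw [Real.div_rpow (by norm_num) h2.le]
  field_simp

lemma f_le_iff {k l : ℕ} (hk : 1 ≤ k) (hl : 1 ≤ l) (r : ℝ) : f k r ≤ f l r ↔ g l r ≤ g k r := by
  have h1 := g_pos hk r
  have h2 := g_pos hl r
  rw [f_eq hk, f_eq hl, div_le_div_iff_of_pos_left (by positivity) h1 h2]

lemma f_lt_iff {k l : ℕ} (hk : 1 ≤ k) (hl : 1 ≤ l) (r : ℝ) : f k r < f l r ↔ g l r < g k r := by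
  rw [← not_le, f_le_iff hl hk, not_le]

lemma f_sum (k : ℕ) (r : ℝ) (hk : 1 ≤ k) :
    f k r = ∑ i ∈ Finset.range k, (2 * ((i : ℝ) + 1) / (2 * (k : ℝ) - 1)) ^ r := by
  have h1 : (1 : ℝ) ≤ k := by exact_mod_cast hk
  have h2 : (0 : ℝ) < 2 * k - 1 := by linarith
  unfold f S
  rw [Finset.sum_mul]
  refine Finset.sum_congr rfl fun i _ => ?_
  rw [← Real.mul_rpow (by positivity) (by positivity)]
  congr 1; ring

lemma D_decomp {k : ℕ} (hk : 1 ≤ k) {r : ℝ} (hr : 0 < r) :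
    f k r - f (k + 1) r = ((2 * (k : ℝ) / (2 * k - 1)) ^ r - ((2 * (k : ℝ) + 2) / (2 * k + 1)) ^ r) -
      ∑ i ∈ Finset.range k, ((2 * ((i : ℝ) + 1) / (2 * k + 1)) ^ r - (2 * (i : ℝ) / (2 * k - 1)) ^ r) := by
  rw [f_sum k r hk, f_sum (k + 1) r (by omega), Finset.sum_sub_distrib]
  have h1 := Finset.sum_range_succ' (fun i : ℕ => (2 * (i : ℝ) / (2 * (k : ℝ) - 1)) ^ r) k
  rw [Finset.sum_range_succ] at h1
  simp only [Nat.cast_zero, mul_zero, zero_div, Real.zero_rpow hr.ne', add_zero] at h1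
  have h2 := Finset.sum_range_succ
    (fun i : ℕ => (2 * ((i : ℝ) + 1) / (2 * ((k + 1 : ℕ) : ℝ) - 1)) ^ r) k
  rw [h2]
  push_cast at h1 ⊢
  rw [show 2 * ((k : ℝ) + 1) - 1 = 2 * k + 1 by ring, show 2 * ((k : ℝ) + 1) = 2 * k + 2 by ring]
  linarith

lemma int_eq {a b r : ℝ} (hr : 0 < r) : (b ^ r - a ^ r) / r = ∫ y in a..b, y ^ (r - 1) := by
  rw [integral_rpow (Or.inl (by linarith))]
  rw [sub_add_cancel]

lemma P_mono {a b r s : ℝ} (ha : 1 ≤ a) (hab : a ≤ b) (hr : 0 < r) (hrs : r ≤ s) :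
    a ^ (s - r) * ((b ^ r - a ^ r) / r) ≤ (b ^ s - a ^ s) / s := by
  rw [int_eq hr, int_eq (by linarith : 0 < s), ← intervalIntegral.integral_const_mul]
  refine intervalIntegral.integral_mono_on hab ?_ ?_ ?_
  · exact (intervalIntegral.intervalIntegrable_rpow' (by linarith)).const_mul _
  · exact intervalIntegral.intervalIntegrable_rpow' (by linarith)
  · intro y hy
    have hy0 : 0 < y := by linarith [hy.1]
    have h1 : a ^ (s - r) ≤ y ^ (s - r) := Real.rpow_le_rpow (by linarith) hy.1 (by linarith)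
    calc a ^ (s - r) * y ^ (r - 1) ≤ y ^ (s - r) * y ^ (r - 1) :=
          mul_le_mul_of_nonneg_right h1 (by positivity)
      _ = y ^ (s - 1) := by rw [← Real.rpow_add hy0]; congr 1; ring

lemma Q_mono {c d r s : ℝ} (hd : 0 ≤ d) (hcd : d ≤ c) (hc : c ≤ 1) (hr : 0 < r) (hrs : r ≤ s) :
    (c ^ s - d ^ s) / s ≤ (c ^ r - d ^ r) / r := by
  rw [int_eq hr, int_eq (by linarith : 0 < s)]
  refine intervalIntegral.integral_mono_on_of_le_Ioo hcd ?_ ?_ ?_
  · exact intervalIntegral.intervalIntegrable_rpow' (by linarith)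
  · exact intervalIntegral.intervalIntegrable_rpow' (by linarith)
  · intro y hy
    exact Real.rpow_le_rpow_of_exponent_ge (by linarith [hy.1]) (by linarith [hy.2]) (by linarith)

/-- `D(k;r)/r` is strictly increasing in `r`. -/
theorem D_mono {k : ℕ} (hk : 1 ≤ k) {r s : ℝ} (hr : 0 < r) (hrs : r < s) :
    (f k r - f (k + 1) r) / r < (f k s - f (k + 1) s) / s := by
  have hs : 0 < s := by linarith
  have hk1 : (1 : ℝ) ≤ k := by exact_mod_cast hk
  have h2 : (0 : ℝ) < 2 * k - 1 := by linarith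
  have h3 : (0 : ℝ) < 2 * k + 1 := by linarith
  have esum : ∀ (t X : ℝ) (F : ℕ → ℝ), (X - ∑ i ∈ Finset.range k, F i) / t =
      X / t - ∑ i ∈ Finset.range k, F i / t := by
    intro t X F; rw [sub_div, Finset.sum_div]
  rw [D_decomp hk hr, D_decomp hk hs, esum, esum]
  set a : ℝ := (2 * (k : ℝ) + 2) / (2 * k + 1) with ha
  set b : ℝ := 2 * (k : ℝ) / (2 * k - 1) with hb
  have ha1 : 1 < a := by rw [ha, lt_div_iff₀ h3]; linarith
  have hab : a < b := by
    rw [ha, hb, div_lt_div_iff₀ h3 h2]; nlinarith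
  have hP := P_mono ha1.le hab.le hr hrs.le
  have hP0 : 0 < (b ^ r - a ^ r) / r := by
    refine div_pos (sub_pos.2 (Real.rpow_lt_rpow (by linarith) hab hr)) hr
  have ha2 : 1 < a ^ (s - r) := Real.one_lt_rpow ha1 (by linarith)
  have hQ : ∑ i ∈ Finset.range k, ((2 * ((i : ℝ) + 1) / (2 * k + 1)) ^ s -
      (2 * (i : ℝ) / (2 * k - 1)) ^ s) / s ≤ ∑ i ∈ Finset.range k,
      ((2 * ((i : ℝ) + 1) / (2 * k + 1)) ^ r - (2 * (i : ℝ) / (2 * k - 1)) ^ r) / r := by
    refine Finset.sum_le_sum fun i hi => ?_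
    have hik : (i : ℝ) + 1 ≤ k := by exact_mod_cast Finset.mem_range.1 hi
    have hi0 : (0 : ℝ) ≤ i := by positivity
    refine Q_mono (by positivity) ?_ ?_ hr hrs.le
    · rw [div_le_div_iff₀ h2 h3]; nlinarith
    · rw [div_le_one h3]; linarith
  nlinarith [mul_lt_mul_of_pos_right ha2 hP0]

/-! ## The inequality `g(k+1;r) ≤ g(k;r)` for `r ≤ k` -/

lemma checkD : ∀ k ∈ Finset.Ico 1 64,
    (2 * k + 1) ^ k * SN k k ≤ (2 * k - 1) ^ k * SN (k + 1) k := by
  decide +kernel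

lemma pow_ge_exp {k i : ℕ} (hi : i < k) : exp (-((i : ℝ) * (k - 1) / (k - i))) ≤
    (1 - (i : ℝ) / k) ^ ((k : ℝ) - 1) := by
  have hik : (i : ℝ) < k := by exact_mod_cast hi
  have hk0 : (0 : ℝ) < k := lt_of_le_of_lt (by positivity) hik
  have hk1 : (1 : ℝ) ≤ k := by
    have : 1 ≤ k := by omega
    exact_mod_cast this
  have hy0 : 0 < 1 - (i : ℝ) / k := by rw [sub_pos, div_lt_one hk0]; exact hik
  rw [Real.rpow_def_of_pos hy0]
  refine Real.exp_le_exp.2 ?_
  have h2 := Real.one_sub_inv_le_log_of_pos hy0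
  have hne : (k : ℝ) - i ≠ 0 := by intro h; linarith
  have h3 : 1 - (1 - (i : ℝ) / k)⁻¹ = -((i : ℝ) / (k - i)) := by
    have e : 1 - (i : ℝ) / k = (k - i) / k := by field_simp
    rw [e, inv_div]
    field_simp
    ring
  rw [h3] at h2
  have h4 := mul_le_mul_of_nonneg_right h2 (by linarith : (0 : ℝ) ≤ (k : ℝ) - 1)
  refine le_trans (le_of_eq ?_) h4
  field_simp

lemma sum_ge_one {k : ℕ} (hk : 64 ≤ k) :
    1 ≤ ∑ i ∈ Finset.range k, (2 * (i : ℝ) + 1) * (1 - ((i : ℝ) + 1) / k) ^ ((k : ℝ) - 1) := by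
  have hk0 : (64 : ℝ) ≤ k := by exact_mod_cast hk
  have hsub : Finset.range 4 ⊆ Finset.range k := Finset.range_subset_range.2 (by omega)
  have h1 : ∑ i ∈ Finset.range 4, (2 * (i : ℝ) + 1) * (1 - ((i : ℝ) + 1) / k) ^ ((k : ℝ) - 1) ≤
      ∑ i ∈ Finset.range k, (2 * (i : ℝ) + 1) * (1 - ((i : ℝ) + 1) / k) ^ ((k : ℝ) - 1) := by
    refine Finset.sum_le_sum_of_subset_of_nonneg hsub fun i hi _ => ?_
    have hik : (i : ℝ) + 1 ≤ k := by exact_mod_cast Finset.mem_range.1 hi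
    have : 0 ≤ 1 - ((i : ℝ) + 1) / k := by
      rw [sub_nonneg, div_le_one (by linarith)]; exact hik
    positivity
  refine le_trans ?_ h1
  have e1 := pow_ge_exp (k := k) (i := 1) (by omega)
  have e2 := pow_ge_exp (k := k) (i := 2) (by omega)
  have e3 := pow_ge_exp (k := k) (i := 3) (by omega)
  have e4 := pow_ge_exp (k := k) (i := 4) (by omega)
  have he : exp 1 ≤ 2.7183 := by linarith [Real.exp_one_lt_d9]
  have q1 : (0.36787 : ℝ) ≤ exp (-1) := by
    rw [Real.exp_neg, le_inv_comm₀ (by norm_num) (by positivity)]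
    refine he.trans (by norm_num)
  have q2 : (0.13532 : ℝ) ≤ exp (-2) := by
    have : exp (-2) = exp (-1) * exp (-1) := by rw [← Real.exp_add]; norm_num
    rw [this]; nlinarith
  have q3 : (0.04978 : ℝ) ≤ exp (-3) := by
    have : exp (-3) = exp (-2) * exp (-1) := by rw [← Real.exp_add]; norm_num
    rw [this]; nlinarith
  have q4 : (0.0183 : ℝ) ≤ exp (-4) := by
    have : exp (-4) = exp (-2) * exp (-2) := by rw [← Real.exp_add]; norm_num
    rw [this]; nlinarith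
  have w : ∀ (t c : ℝ), 0 < t → c ≤ 1 → t ≤ 1 - c → c ≤ exp (-t) := by
    intro t c _ _ h
    have := Real.add_one_le_exp (-t)
    linarith
  -- the four terms
  have t1 : (0.36787 : ℝ) ≤ (1 - (1 : ℝ) / k) ^ ((k : ℝ) - 1) := by
    refine q1.trans (le_trans (le_of_eq ?_) (by simpa using e1))
    congr 1
    have : (k : ℝ) - 1 ≠ 0 := by intro h; linarith
    field_simp
  have t2 : (0.13532 * 0.9677 : ℝ) ≤ (1 - (2 : ℝ) / k) ^ ((k : ℝ) - 1) := by
    have e2' : exp (-(2 * ((k : ℝ) - 1) / (k - 2))) ≤ (1 - (2 : ℝ) / k) ^ ((k : ℝ) - 1) := by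
      simpa using e2
    refine le_trans ?_ e2'
    have hne : (k : ℝ) - 2 ≠ 0 := by intro h; linarith
    have e : -(2 * ((k : ℝ) - 1) / (k - 2)) = -2 + -(2 / (k - 2)) := by field_simp; ring
    rw [e, Real.exp_add]
    have h5 : 2 / ((k : ℝ) - 2) ≤ 1 / 31 := by
      rw [div_le_div_iff₀ (by linarith) (by norm_num)]; linarith
    have h6 : (0.9677 : ℝ) ≤ exp (-(2 / ((k : ℝ) - 2))) :=
      w _ _ (div_pos (by norm_num) (by linarith)) (by norm_num) (h5.trans (by norm_num))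
    gcongr
  have t3 : (0.04978 * 0.9 : ℝ) ≤ (1 - (3 : ℝ) / k) ^ ((k : ℝ) - 1) := by
    have e3' : exp (-(3 * ((k : ℝ) - 1) / (k - 3))) ≤ (1 - (3 : ℝ) / k) ^ ((k : ℝ) - 1) := by
      simpa using e3
    refine le_trans ?_ e3'
    have hne : (k : ℝ) - 3 ≠ 0 := by intro h; linarith
    have e : -(3 * ((k : ℝ) - 1) / (k - 3)) = -3 + -(6 / (k - 3)) := by field_simp; ring
    rw [e, Real.exp_add]
    have h5 : 6 / ((k : ℝ) - 3) ≤ 6 / 61 := by
      rw [div_le_div_iff₀ (by linarith) (by norm_num)]; linarith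
    have h6 : (0.9 : ℝ) ≤ exp (-(6 / ((k : ℝ) - 3))) :=
      w _ _ (div_pos (by norm_num) (by linarith)) (by norm_num) (h5.trans (by norm_num))
    gcongr
  have t4 : (0.0183 * 0.8 : ℝ) ≤ (1 - (4 : ℝ) / k) ^ ((k : ℝ) - 1) := by
    have e4' : exp (-(4 * ((k : ℝ) - 1) / (k - 4))) ≤ (1 - (4 : ℝ) / k) ^ ((k : ℝ) - 1) := by
      simpa using e4
    refine le_trans ?_ e4'
    have hne : (k : ℝ) - 4 ≠ 0 := by intro h; linarith
    have e : -(4 * ((k : ℝ) - 1) / (k - 4)) = -4 + -(12 / (k - 4)) := by field_simp; ring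
    rw [e, Real.exp_add]
    have h5 : 12 / ((k : ℝ) - 4) ≤ 1 / 5 := by
      rw [div_le_div_iff₀ (by linarith) (by norm_num)]; linarith
    have h6 : (0.8 : ℝ) ≤ exp (-(12 / ((k : ℝ) - 4))) :=
      w _ _ (div_pos (by norm_num) (by linarith)) (by norm_num) (h5.trans (by norm_num))
    gcongr
  simp only [Finset.sum_range_succ, Finset.sum_range_zero]
  push_cast
  norm_num at t1 t2 t3 t4 ⊢
  linarith

/-- mean value bounds -/
lemma P_le {a b r : ℝ} (ha : 0 ≤ a) (hab : a ≤ b) (hr : 1 ≤ r) :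
    (b ^ r - a ^ r) / r ≤ (b - a) * b ^ (r - 1) := by
  rw [int_eq (by linarith)]
  have : (b - a) * b ^ (r - 1) = ∫ _ in a..b, b ^ (r - 1) := by
    rw [intervalIntegral.integral_const, smul_eq_mul]
  rw [this]
  refine intervalIntegral.integral_mono_on hab ?_ (by simp) ?_
  · exact intervalIntegral.intervalIntegrable_rpow' (by linarith)
  · intro y hy
    exact Real.rpow_le_rpow (by linarith [hy.1]) hy.2 (by linarith)

lemma Q_ge {c d r : ℝ} (hd : 0 ≤ d) (hcd : d ≤ c) (hr : 1 ≤ r) :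
    (c - d) * d ^ (r - 1) ≤ (c ^ r - d ^ r) / r := by
  rw [int_eq (by linarith)]
  have : (c - d) * d ^ (r - 1) = ∫ _ in d..c, d ^ (r - 1) := by
    rw [intervalIntegral.integral_const, smul_eq_mul]
  rw [this]
  refine intervalIntegral.integral_mono_on hcd (by simp) ?_ ?_
  · exact intervalIntegral.intervalIntegrable_rpow' (by linarith)
  · intro y hy
    exact Real.rpow_le_rpow hd hy.1 (by linarith)

lemma D_self_nonpos {k : ℕ} (hk : 1 ≤ k) : f k (k : ℝ) ≤ f (k + 1) (k : ℝ) := by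
  have hk1 : (1 : ℝ) ≤ k := by exact_mod_cast hk
  have h2 : (0 : ℝ) < 2 * k - 1 := by linarith
  have h3 : (0 : ℝ) < 2 * k + 1 := by linarith
  rcases Nat.lt_or_ge k 64 with h | h
  · have hc := checkD k (Finset.mem_Ico.2 ⟨hk, h⟩)
    have hc' : (2 * (k : ℝ) + 1) ^ k * SN k k ≤ (2 * (k : ℝ) - 1) ^ k * SN (k + 1) k := by
      have h1 : (((2 * k + 1) ^ k * SN k k : ℕ) : ℝ) ≤ (((2 * k - 1) ^ k * SN (k + 1) k : ℕ) : ℝ) := by
        exact_mod_cast hc
      push_cast [Nat.cast_sub (by omega : 1 ≤ 2 * k)] at h1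
      exact h1
    unfold f
    rw [S_nat, S_nat, Real.rpow_natCast, Real.rpow_natCast]
    push_cast
    rw [show 2 * ((k : ℝ) + 1) - 1 = 2 * k + 1 by ring, div_pow, div_pow, ← mul_div_assoc,
      ← mul_div_assoc, div_le_div_iff₀ (by positivity) (by positivity)]
    nlinarith [mul_le_mul_of_nonneg_left hc' (by positivity : (0 : ℝ) ≤ 2 ^ k)]
  · have hk0 : (0 : ℝ) < k := by linarith
    have key : (f k (k : ℝ) - f (k + 1) (k : ℝ)) / k ≤ 0 := by
      rw [D_decomp hk hk0, sub_div, Finset.sum_div, sub_nonpos]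
      have ha3 : (2 * (k : ℝ) + 2) / (2 * k + 1) ≤ 2 * (k : ℝ) / (2 * k - 1) := by
        rw [div_le_div_iff₀ h3 h2]; nlinarith
      refine (P_le (by positivity) ha3 hk1).trans ?_
      have hsum : (∑ i ∈ Finset.range k, (2 * (((k - 1 - i : ℕ) : ℝ) + 1) / (2 * k + 1) -
          2 * ((k - 1 - i : ℕ) : ℝ) / (2 * k - 1)) * (2 * ((k - 1 - i : ℕ) : ℝ) / (2 * k - 1)) ^ ((k : ℝ) - 1)) ≤
          ∑ i ∈ Finset.range k, ((2 * ((i : ℝ) + 1) / (2 * k + 1)) ^ (k : ℝ) -
            (2 * (i : ℝ) / (2 * k - 1)) ^ (k : ℝ)) / k := by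
        rw [← Finset.sum_range_reflect (fun i : ℕ => ((2 * ((i : ℝ) + 1) / (2 * k + 1)) ^ (k : ℝ) -
            (2 * (i : ℝ) / (2 * k - 1)) ^ (k : ℝ)) / k)]
        refine Finset.sum_le_sum fun i hi => ?_
        refine Q_ge (by positivity) ?_ hk1
        have hik : (((k - 1 - i : ℕ) : ℝ)) + 1 ≤ k := by
          have : k - 1 - i + 1 ≤ k := by omega
          exact_mod_cast this
        rw [div_le_div_iff₀ h2 h3]
        nlinarith [(Nat.cast_nonneg (k - 1 - i) : (0 : ℝ) ≤ ((k - 1 - i : ℕ) : ℝ))]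
      refine le_trans ?_ hsum
      have hone := sum_ge_one h
      have hb0 : (0 : ℝ) < (2 * (k : ℝ) / (2 * k - 1)) ^ ((k : ℝ) - 1) := by positivity
      have hl : 2 * (k : ℝ) / (2 * k - 1) - (2 * (k : ℝ) + 2) / (2 * k + 1) =
          2 / ((2 * k - 1) * (2 * k + 1)) := by
        field_simp; ring
      rw [hl]
      calc 2 / ((2 * (k : ℝ) - 1) * (2 * k + 1)) * (2 * (k : ℝ) / (2 * k - 1)) ^ ((k : ℝ) - 1)
          ≤ (2 / ((2 * (k : ℝ) - 1) * (2 * k + 1)) * (2 * (k : ℝ) / (2 * k - 1)) ^ ((k : ℝ) - 1)) *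
            ∑ i ∈ Finset.range k, (2 * (i : ℝ) + 1) * (1 - ((i : ℝ) + 1) / k) ^ ((k : ℝ) - 1) := by
            refine le_mul_of_one_le_right (by positivity) hone
        _ = _ := by
            rw [Finset.mul_sum]
            refine Finset.sum_congr rfl fun i hi => ?_
            have hi' : i + 1 ≤ k := Finset.mem_range.1 hi
            have hik : (i : ℝ) + 1 ≤ k := by exact_mod_cast hi'
            have e : (((k - 1 - i : ℕ) : ℝ)) = k - 1 - i := by
              rw [show k - 1 - i = k - (i + 1) by omega, Nat.cast_sub hi']; push_cast; ring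
            rw [e]
            have e2 : 2 * ((k : ℝ) - 1 - i) / (2 * k - 1) =
                (2 * (k : ℝ) / (2 * k - 1)) * (1 - ((i : ℝ) + 1) / k) := by
              field_simp; ring
            have hnn : 0 ≤ 1 - ((i : ℝ) + 1) / k := by
              rw [sub_nonneg, div_le_one hk0]; exact hik
            have e3 : 2 * ((k : ℝ) - 1 - i + 1) / (2 * k + 1) - 2 * ((k : ℝ) - 1 - i) / (2 * k - 1) =
                2 / ((2 * k - 1) * (2 * k + 1)) * (2 * (i : ℝ) + 1) := by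
              field_simp; ring
            rw [e3, e2, Real.mul_rpow (by positivity) hnn]
            ring
    by_contra hcon
    push Not at hcon
    have : 0 < (f k (k : ℝ) - f (k + 1) (k : ℝ)) / k := div_pos (by linarith) hk0
    linarith

/-- `g(k+1;r) ≤ g(k;r)` whenever `0 < r ≤ k`. -/
theorem g_succ_le {k : ℕ} {r : ℝ} (hr : 0 < r) (hrk : r ≤ k) : g (k + 1) r ≤ g k r := by
  have hk : 1 ≤ k := by
    by_contra h
    have : k = 0 := by omega
    rw [this] at hrk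
    push_cast at hrk
    linarith
  rw [← f_le_iff hk (by omega)]
  have hk0 : (0 : ℝ) < k := by exact_mod_cast hk
  rcases hrk.eq_or_lt with h | h
  · rw [h]; exact D_self_nonpos hk
  · have h1 := D_mono hk hr h
    have h2 := D_self_nonpos hk
    have h3 : (f k (k : ℝ) - f (k + 1) (k : ℝ)) / k ≤ 0 :=
      div_nonpos_of_nonpos_of_nonneg (by linarith) hk0.le
    have h4 : (f k r - f (k + 1) r) / r < 0 := lt_of_lt_of_le h1 h3
    have h5 : f k r - f (k + 1) r < 0 := by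
      by_contra hcon
      push Not at hcon
      have := div_nonneg hcon hr.le
      linarith
    linarith

end Pool.Agent.Q206.MH
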