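import Pool.Agent.Q206.MH.Asym

/-!
# The random walk Metropolis chain with symmetric steps, written with `min{1, π(Y)/π(x)}`
-/

namespace Pool.Agent.Q206.MH

open scoped ENNReal

/-- The acceptance probability `min{1, π(y)/π(x)}` of the proposal `y` in state `x`. -/
noncomputable def accept (π : ℤ → ℝ) (x y : ℤ) : ℝ := min 1 (π y / π x)

/-- The transition probabilities `P(X₁ = y | X₀ = x)`: a step `z` is drawn from `φ`, the proposal
`x + z` is accepted with probability `accept π x (x + z)`, otherwise the chain stays in `x`. -/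
noncomputable def kernel (π φ : ℤ → ℝ) (x y : ℤ) : ℝ≥0∞ :=
  ENNReal.ofReal (φ (y - x) * accept π x y) +
    if y = x then ∑' z, ENNReal.ofReal (φ z * (1 - accept π x (x + z))) else 0

/-- `E |X₁ - X₀|^r` for the stationary chain, `X₀ ∼ π`. -/
noncomputable def jumpMoment (r : ℝ) (π φ : ℤ → ℝ) : ℝ≥0∞ :=
  ∑' x : ℤ, ∑' y : ℤ, ENNReal.ofReal (π x) * kernel π φ x y *
    ENNReal.ofReal (|((y - x : ℤ) : ℝ)| ^ r)

/-- The extremal ratio `s(r) = sup E|X₁-X₀|^r / E|X₀|^r`. -/
noncomputable def extremal (r : ℝ) : ℝ≥0∞ :=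
  ⨆ (π : ℤ → ℝ) (φ : ℤ → ℝ) (_ : Admissible r π φ), jumpMoment r π φ / moment r π

lemma accept_eq {r : ℝ} {π φ : ℤ → ℝ} (h : Admissible r π φ) {x z : ℤ} (hx : π x ≠ 0) :
    φ z * acc π φ x z = φ z * accept π x (x + z) := by
  rcases eq_or_ne (φ z) 0 with hz | hz
  · rw [hz, zero_mul, zero_mul]
  · unfold acc accept
    rw [if_neg (mul_ne_zero hx hz), h.step_symm, mul_div_mul_right _ _ hz]

lemma kernel_eq {r : ℝ} {π φ : ℤ → ℝ} (h : Admissible r π φ) {x : ℤ} (hx : π x ≠ 0) (y : ℤ) :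
    kernel π φ x y = trans π φ x y := by
  unfold kernel trans
  congr 1
  · rw [accept_eq h hx]; congr 3; ring
  · congr 1
    refine tsum_congr fun z => ?_
    rw [mul_sub, mul_sub, accept_eq h hx]

lemma jumpMoment_eq {r : ℝ} {π φ : ℤ → ℝ} (h : Admissible r π φ) :
    jumpMoment r π φ = jump r π φ := by
  unfold jumpMoment jump
  refine tsum_congr fun x => tsum_congr fun y => ?_
  rcases eq_or_ne (π x) 0 with hx | hx
  · rw [hx]; simp
  · rw [kernel_eq h hx]

theorem extremal_eq (r : ℝ) : extremal r = s r := by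
  unfold extremal s
  refine iSup_congr fun π => iSup_congr fun φ => iSup_congr fun h => ?_
  rw [jumpMoment_eq h]

end Pool.Agent.Q206.MH
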