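import Pool.Agent.Q206.MH.Basic

namespace Pool.Agent.Q206.MH

/-! ## Exponents at most one -/

lemma S_ge_of_le_one {r : ℝ} (hr : r ≤ 1) {n : ℕ} (hn : 1 ≤ n) :
    (n : ℝ) ^ r * (((n : ℝ) + 1) / 2) ≤ S n r := by
  have hn0 : (0 : ℝ) < n := by exact_mod_cast hn
  have h1 : ∀ i ∈ Finset.range n, ((i : ℝ) + 1) * (n : ℝ) ^ (r - 1) ≤ ((i : ℝ) + 1) ^ r := by
    intro i hi
    have hi' : (i : ℝ) + 1 ≤ n := by exact_mod_cast Finset.mem_range.1 hi
    have h2 : (n : ℝ) ^ (r - 1) ≤ ((i : ℝ) + 1) ^ (r - 1) :=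
      Real.rpow_le_rpow_of_nonpos (by positivity) hi' (by linarith)
    calc ((i : ℝ) + 1) * (n : ℝ) ^ (r - 1) ≤ ((i : ℝ) + 1) * ((i : ℝ) + 1) ^ (r - 1) :=
          mul_le_mul_of_nonneg_left h2 (by positivity)
      _ = ((i : ℝ) + 1) ^ r := by
          rw [Real.rpow_sub_one (by positivity)]
          field_simp
  have h3 := Finset.sum_le_sum h1
  rw [← Finset.sum_mul] at h3
  have h4 : ∑ i ∈ Finset.range n, ((i : ℝ) + 1) = n * (n + 1) / 2 := by
    clear h1 h3 hn hn0
    induction n with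
    | zero => simp
    | succ n ih => rw [Finset.sum_range_succ, ih]; push_cast; ring
  rw [h4] at h3
  refine le_trans (le_of_eq ?_) h3
  rw [Real.rpow_sub_one hn0.ne']
  field_simp

lemma S_ge_const {r : ℝ} (hr : 0 ≤ r) (N : ℕ) : ∀ m : ℕ, N ≤ m →
    S N r + ((m : ℝ) - N) * (N : ℝ) ^ r ≤ S m r := by
  intro m hm
  induction m, hm using Nat.le_induction with
  | base => simp
  | succ m hm ih =>
    rw [S_succ]
    have h1 : (N : ℝ) ^ r ≤ ((m : ℝ) + 1) ^ r := by
      refine Real.rpow_le_rpow (by positivity) ?_ hr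
      have : (N : ℝ) ≤ m := by exact_mod_cast hm
      linarith
    push_cast
    linarith

/-- For exponents at most one, all the ratios are at most one. -/
theorem ratio_le_one {r : ℝ} (h0 : 0 < r) (h1 : r ≤ 1) {k m : ℕ} (hk : 1 ≤ k) (hkm : k ≤ m) :
    (2 * (k : ℝ) - 1) ^ r * ((m : ℝ) - k + 1) ≤ S m r := by
  obtain ⟨j, rfl⟩ : ∃ j, m = k + j := ⟨m - k, by omega⟩
  have hk1 : (1 : ℝ) ≤ k := by exact_mod_cast hk
  have hj : (0 : ℝ) ≤ j := by positivity
  push_cast
  rw [show (k : ℝ) + j - k + 1 = j + 1 by ring]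
  rcases le_or_gt (2 * k - 1) (k + j) with h | h
  · have h2 := S_ge_const h0.le (2 * k - 1) (k + j) h
    have h3 := S_ge_of_le_one h1 (n := 2 * k - 1) (by omega)
    have e : ((2 * k - 1 : ℕ) : ℝ) = 2 * (k : ℝ) - 1 := by
      rw [Nat.cast_sub (by omega)]; push_cast; ring
    rw [e] at h2 h3
    push_cast at h2
    refine le_trans (le_of_eq ?_) (le_trans (add_le_add_left h3 _) h2)
    ring
  · have h3 := S_ge_of_le_one h1 (n := k + j) (by omega)
    refine le_trans ?_ h3
    push_cast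
    have hm : (0 : ℝ) < (k : ℝ) + j := by linarith
    have hN : (k : ℝ) + j + 1 ≤ 2 * k - 1 := by
      have h' : k + j + 1 ≤ 2 * k - 1 := h
      have h'' : k + j + 2 ≤ 2 * k := by omega
      have : ((k + j + 2 : ℕ) : ℝ) ≤ ((2 * k : ℕ) : ℝ) := by exact_mod_cast h''
      push_cast at this
      linarith
    have h5 : (2 * (k : ℝ) - 1) ^ (r - 1) ≤ ((k : ℝ) + j) ^ (r - 1) :=
      Real.rpow_le_rpow_of_nonpos hm (by linarith) (by linarith)
    have e1 : (2 * (k : ℝ) - 1) ^ r = (2 * (k : ℝ) - 1) ^ (r - 1) * (2 * (k : ℝ) - 1) := by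
      have hne : (2 * (k : ℝ) - 1) ≠ 0 := by intro h'; linarith
      rw [Real.rpow_sub_one hne]
      field_simp
    have e2 : ((k : ℝ) + j) ^ r = ((k : ℝ) + j) ^ (r - 1) * ((k : ℝ) + j) := by
      rw [Real.rpow_sub_one hm.ne']
      field_simp
    rw [e1, e2]
    have h6 : (0 : ℝ) < ((k : ℝ) + j) ^ (r - 1) := by positivity
    have h7 : (2 * (k : ℝ) - 1) * (j + 1) ≤ ((k : ℝ) + j) * (((k : ℝ) + j + 1) / 2) := by
      nlinarith [mul_nonneg (sub_nonneg.2 hN) (by linarith : (0 : ℝ) ≤ 2 * k - 1 - (k + j))]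
    calc (2 * (k : ℝ) - 1) ^ (r - 1) * (2 * (k : ℝ) - 1) * (j + 1)
        ≤ ((k : ℝ) + j) ^ (r - 1) * ((2 * (k : ℝ) - 1) * (j + 1)) := by
          rw [mul_assoc]
          exact mul_le_mul_of_nonneg_right h5 (mul_nonneg (by linarith) (by linarith))
      _ ≤ ((k : ℝ) + j) ^ (r - 1) * (((k : ℝ) + j) * (((k : ℝ) + j + 1) / 2)) :=
          mul_le_mul_of_nonneg_left h7 h6.le
      _ = _ := by ring

/-! ## Blocks -/

/-- Jensen's inequality for a block of consecutive integers. -/
lemma block_jensen {r : ℝ} (hr : 1 ≤ r) (a J : ℕ) (hJ : 1 ≤ J) :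
    (J : ℝ) * ((a : ℝ) + (J + 1) / 2) ^ r ≤ ∑ i ∈ Finset.range J, (((a + i : ℕ) : ℝ) + 1) ^ r := by
  have hJ0 : (0 : ℝ) < J := by exact_mod_cast hJ
  have h := Real.rpow_arith_mean_le_arith_mean_rpow (Finset.range J) (fun _ => (1 : ℝ) / J)
    (fun i => ((a + i : ℕ) : ℝ) + 1) (fun _ _ => by positivity)
    (by rw [Finset.sum_const, Finset.card_range, nsmul_eq_mul]; field_simp)
    (fun _ _ => by positivity) hr
  rw [← Finset.mul_sum, ← Finset.mul_sum] at h
  have h4 : ∑ i ∈ Finset.range J, (((a + i : ℕ) : ℝ) + 1) = J * ((a : ℝ) + (J + 1) / 2) := by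
    clear h hJ hJ0
    induction J with
    | zero => simp
    | succ n ih => rw [Finset.sum_range_succ, ih]; push_cast; ring
  rw [h4] at h
  have e : (1 : ℝ) / J * (J * ((a : ℝ) + (J + 1) / 2)) = (a : ℝ) + (J + 1) / 2 := by field_simp
  rw [e] at h
  calc (J : ℝ) * ((a : ℝ) + (J + 1) / 2) ^ r
      ≤ J * (1 / J * ∑ i ∈ Finset.range J, (((a + i : ℕ) : ℝ) + 1) ^ r) :=
        mul_le_mul_of_nonneg_left h hJ0.le
    _ = _ := by field_simp

lemma S_split (a J : ℕ) (r : ℝ) :
    S (a + J) r = S a r + ∑ i ∈ Finset.range J, (((a + i : ℕ) : ℝ) + 1) ^ r := by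
  induction J with
  | zero => simp
  | succ n ih => rw [← add_assoc, S_succ, ih, Finset.sum_range_succ]; ring

lemma two_point {r A B N : ℝ} (hr : 1 ≤ r) (hN : 0 < N) (hA : 2 * N / 3 ≤ A) (hB : 0 ≤ B)
    (hAB : N ≤ A + B) : (2 * N / 3) ^ r + (N / 3) ^ r ≤ A ^ r + B ^ r := by
  rcases le_or_gt (N / 3) B with h | h
  · exact add_le_add (Real.rpow_le_rpow (by positivity) hA (by linarith))
      (Real.rpow_le_rpow (by positivity) h (by linarith))
  · have h1 : (N - B) ^ r ≤ A ^ r := Real.rpow_le_rpow (by linarith) (by linarith) (by linarith)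
    have hc := convexOn_rpow hr
    have hpos : 0 < N - 2 * B := by linarith
    set l := (2 * N / 3 - B) / (N - 2 * B) with hl
    have hl0 : 0 ≤ l := div_nonneg (by linarith) hpos.le
    have hl1 : 0 ≤ 1 - l := by
      rw [hl, sub_nonneg, div_le_one hpos]; linarith
    have m1 : N - B ∈ Set.Ici (0 : ℝ) := by simp only [Set.mem_Ici]; linarith
    have m2 : B ∈ Set.Ici (0 : ℝ) := hB
    have h2 := hc.2 m1 m2 hl0 hl1 (by ring)
    have h3 := hc.2 m1 m2 hl1 hl0 (by ring)
    simp only [smul_eq_mul] at h2 h3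
    have e1 : l * (N - B) + (1 - l) * B = 2 * N / 3 := by
      have : l * (N - 2 * B) = 2 * N / 3 - B := by rw [hl]; field_simp
      linarith
    have e2 : (1 - l) * (N - B) + l * B = N / 3 := by
      have : l * (N - 2 * B) = 2 * N / 3 - B := by rw [hl]; field_simp
      linarith
    rw [e1] at h2
    rw [e2] at h3
    nlinarith

/-- The case of long blocks: the ratio is at most `g(2;r)`. -/
theorem ratio_le_g_two {r : ℝ} (hr : 1 ≤ r) {k J : ℕ} (hk : 1 ≤ k) (hJ : 1 ≤ J)
    (hJN : 2 * k - 1 ≤ 3 * J) :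
    (2 * (k : ℝ) - 1) ^ r * J ≤ g 2 r * S (k - 1 + J) r := by
  have hk1 : (1 : ℝ) ≤ k := by exact_mod_cast hk
  have hJ1 : (1 : ℝ) ≤ J := by exact_mod_cast hJ
  set N : ℝ := 2 * (k : ℝ) - 1 with hN
  have hN0 : 0 < N := by rw [hN]; linarith
  have hJN' : N ≤ 3 * J := by
    have h2 : 2 * k ≤ 3 * J + 1 := by omega
    have : ((2 * k : ℕ) : ℝ) ≤ ((3 * J + 1 : ℕ) : ℝ) := by exact_mod_cast h2
    push_cast at this
    rw [hN]; linarith
  have ek : ((k - 1 : ℕ) : ℝ) = k - 1 := by rw [Nat.cast_sub hk]; simp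
  have hg : g 2 r = 3 ^ r / (1 + 2 ^ r) := by
    unfold g S
    rw [Finset.sum_range_succ, Finset.sum_range_succ, Finset.sum_range_zero]
    norm_num
  have hA := block_jensen hr (k - 1) J hJ
  rw [ek] at hA
  have eA : (k : ℝ) - 1 + (J + 1) / 2 = (N + J) / 2 := by rw [hN]; ring
  rw [eA] at hA
  -- lower bound for the power sum
  have key : (J : ℝ) * ((2 * N / 3) ^ r + (N / 3) ^ r) ≤ S (k - 1 + J) r := by
    rw [S_split]
    rcases le_or_gt J (k - 1) with h | h
    · have h1 := block_jensen hr (k - 1 - J) J hJ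
      have e3 : ((k - 1 - J : ℕ) : ℝ) = k - 1 - J := by rw [Nat.cast_sub h, ek]
      rw [e3, show (k : ℝ) - 1 - J + (J + 1) / 2 = (N - J) / 2 by rw [hN]; ring] at h1
      have h2 : ∑ i ∈ Finset.range J, (((k - 1 - J + i : ℕ) : ℝ) + 1) ^ r ≤ S (k - 1) r := by
        have := S_split (k - 1 - J) J r
        rw [show k - 1 - J + J = k - 1 by omega] at this
        rw [this]
        linarith [S_nonneg (k - 1 - J) r]
      have hJk : (J : ℝ) ≤ k - 1 := by rw [← ek]; exact_mod_cast h
      have h3 := two_point hr hN0 (A := (N + J) / 2) (B := (N - J) / 2) (by linarith)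
        (by rw [hN]; linarith) (by linarith)
      nlinarith
    · have h2 : (J : ℝ) * ((N ^ 2 - 1) / (8 * J)) ^ r ≤ S (k - 1) r := by
        have hJ0 : (0 : ℝ) < J := by linarith
        have h5 := Real.rpow_arith_mean_le_arith_mean_rpow (Finset.range J) (fun _ => (1 : ℝ) / J)
          (fun i => if i < k - 1 then (i : ℝ) + 1 else 0) (fun _ _ => by positivity)
          (by rw [Finset.sum_const, Finset.card_range, nsmul_eq_mul]; field_simp)
          (fun _ _ => by split_ifs <;> positivity) hr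
        rw [← Finset.mul_sum, ← Finset.mul_sum] at h5
        have hsub : Finset.range (k - 1) ⊆ Finset.range J :=
          Finset.range_subset_range.2 h.le
        have e4 : ∑ i ∈ Finset.range J, (if i < k - 1 then (i : ℝ) + 1 else 0) = (N ^ 2 - 1) / 8 := by
          rw [← Finset.sum_subset hsub]
          · rw [Finset.sum_congr rfl fun i hi => if_pos (Finset.mem_range.1 hi)]
            have h6 : ∀ n : ℕ, ∑ i ∈ Finset.range n, ((i : ℝ) + 1) = n * (n + 1) / 2 := by
              intro n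
              induction n with
              | zero => simp
              | succ n ih => rw [Finset.sum_range_succ, ih]; push_cast; ring
            rw [h6, ek, hN]; ring
          · intro i _ hi
            rw [if_neg]
            exact fun h' => hi (Finset.mem_range.2 h')
        have e5 : ∑ i ∈ Finset.range J, (if i < k - 1 then (i : ℝ) + 1 else 0) ^ r = S (k - 1) r := by
          unfold S
          rw [← Finset.sum_subset hsub]
          · exact Finset.sum_congr rfl fun i hi => by rw [if_pos (Finset.mem_range.1 hi)]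
          · intro i _ hi
            rw [if_neg, Real.zero_rpow (by linarith)]
            exact fun h' => hi (Finset.mem_range.2 h')
        rw [e4, e5] at h5
        calc (J : ℝ) * ((N ^ 2 - 1) / (8 * J)) ^ r = J * (1 / J * ((N ^ 2 - 1) / 8)) ^ r := by
              congr 2; field_simp
          _ ≤ J * (1 / J * S (k - 1) r) := mul_le_mul_of_nonneg_left h5 hJ0.le
          _ = _ := by field_simp
      have hN1 : 1 ≤ N := by rw [hN]; linarith
      have hJ0 : (0 : ℝ) < J := by linarith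
      have h3 := two_point hr hN0 (A := (N + J) / 2) (B := (N ^ 2 - 1) / (8 * J)) (by linarith)
        (div_nonneg (by nlinarith) (by positivity)) (by
          rw [div_add_div _ _ (by norm_num) (by positivity), le_div_iff₀ (by positivity)]
          have h7 : 1 ≤ (2 * (J : ℝ) - N) ^ 2 := by
            have h8 : (2 * (J : ℤ) - (2 * k - 1)) ≠ 0 := by omega
            have h9 : 1 ≤ (2 * (J : ℤ) - (2 * k - 1)) ^ 2 := by
              have := Int.one_le_abs h8
              nlinarith [abs_mul_abs_self (2 * (J : ℤ) - (2 * k - 1))]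
            have h10 : ((1 : ℤ) : ℝ) ≤ (((2 * (J : ℤ) - (2 * k - 1)) ^ 2 : ℤ) : ℝ) := by
              exact_mod_cast h9
            push_cast at h10
            rw [hN]; exact h10
          nlinarith)
      nlinarith
  rw [hg, div_mul_eq_mul_div, le_div_iff₀ (by positivity)]
  have e6 : (2 * N / 3) ^ r + (N / 3) ^ r = N ^ r * (1 + 2 ^ r) / 3 ^ r := by
    rw [Real.div_rpow (by positivity) (by norm_num), Real.div_rpow hN0.le (by norm_num),
      Real.mul_rpow (by norm_num) hN0.le]
    field_simp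
    ring
  rw [e6] at key
  have h3 : (0 : ℝ) < 3 ^ r := by positivity
  calc N ^ r * J * (1 + 2 ^ r) = 3 ^ r * (J * (N ^ r * (1 + 2 ^ r) / 3 ^ r)) := by field_simp
    _ ≤ 3 ^ r * S (k - 1 + J) r := mul_le_mul_of_nonneg_left key h3.le

end Pool.Agent.Q206.MH
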