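import Pool.Agent.Q206.MH.Mid
import Pool.Agent.Q206.MH.Small

namespace Pool.Agent.Q206.MH

open Real

/-- weighted geometric mean of `1,…,m` with weights `i²` -/
noncomputable def G (m : ℕ) : ℝ := ∏ i ∈ Finset.range m, ((i : ℝ) + 1) ^ (((i : ℝ) + 1) ^ 2 / S m 2)

lemma G_pos (m : ℕ) : 0 < G m := Finset.prod_pos fun i _ => by positivity

lemma S_tangent {m : ℕ} (hm : 1 ≤ m) (r : ℝ) : S m 2 * G m ^ (r - 2) ≤ S m r := by
  have hS := S_pos hm 2
  have h := Real.geom_mean_le_arith_mean_weighted (Finset.range m)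
    (fun i => ((i : ℝ) + 1) ^ 2 / S m 2) (fun i => ((i : ℝ) + 1) ^ (r - 2))
    (fun i _ => by positivity)
    (by
      rw [← Finset.sum_div]
      have : ∑ i ∈ Finset.range m, ((i : ℝ) + 1) ^ 2 = S m 2 := by
        unfold S
        refine Finset.sum_congr rfl fun i _ => ?_
        rw [Real.rpow_two]
      rw [this, div_self hS.ne'])
    (fun i _ => by positivity)
  have e1 : ∏ i ∈ Finset.range m, (((i : ℝ) + 1) ^ (r - 2)) ^ (((i : ℝ) + 1) ^ 2 / S m 2) =
      G m ^ (r - 2) := by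
    unfold G
    rw [← Real.finsetProd_rpow _ _ (fun i _ => by positivity)]
    refine Finset.prod_congr rfl fun i _ => ?_
    rw [← Real.rpow_mul (by positivity), ← Real.rpow_mul (by positivity), mul_comm]
  have e2 : ∑ i ∈ Finset.range m, ((i : ℝ) + 1) ^ 2 / S m 2 * ((i : ℝ) + 1) ^ (r - 2) =
      S m r / S m 2 := by
    unfold S
    rw [Finset.sum_div]
    refine Finset.sum_congr rfl fun i _ => ?_
    have hi : (0 : ℝ) < (i : ℝ) + 1 := by positivity
    rw [Real.rpow_sub hi, Real.rpow_two]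
    have := (by positivity : (0 : ℝ) < ((i : ℝ) + 1) ^ 2)
    field_simp
  rw [e1, e2, le_div_iff₀ hS] at h
  linarith

lemma G_pow {m n : ℕ} (hn : S m 2 = n) (hn0 : 0 < n) :
    G m ^ n = ∏ i ∈ Finset.range m, ((i : ℝ) + 1) ^ ((i + 1) ^ 2) := by
  unfold G
  rw [← Finset.prod_pow]
  refine Finset.prod_congr rfl fun i _ => ?_
  rw [hn, ← Real.rpow_natCast, ← Real.rpow_mul (by positivity)]
  have : (n : ℝ) ≠ 0 := by positivity
  rw [div_mul_cancel₀ _ this]
  have e : ((i : ℝ) + 1) ^ 2 = (((i + 1) ^ 2 : ℕ) : ℝ) := by push_cast; ring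
  rw [e, Real.rpow_natCast]

lemma S52 : S 5 2 = ((55 : ℕ) : ℝ) := by
  unfold S; simp only [Real.rpow_two]; norm_num [Finset.sum_range_succ]
lemma S62 : S 6 2 = ((91 : ℕ) : ℝ) := by
  unfold S; simp only [Real.rpow_two]; norm_num [Finset.sum_range_succ]

lemma G5_lo : (39 / 10 : ℝ) ≤ G 5 := by
  refine (pow_le_pow_iff_left₀ (by norm_num) (G_pos 5).le (by norm_num : 55 ≠ 0)).1 ?_
  rw [G_pow S52 (by norm_num)]
  norm_num [Finset.prod_range_succ]
lemma G5_hi : G 5 ≤ 392 / 100 := by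
  refine (pow_le_pow_iff_left₀ (G_pos 5).le (by norm_num) (by norm_num : 55 ≠ 0)).1 ?_
  rw [G_pow S52 (by norm_num)]
  norm_num [Finset.prod_range_succ]
lemma G6_lo : (463 / 100 : ℝ) ≤ G 6 := by
  refine (pow_le_pow_iff_left₀ (by norm_num) (G_pos 6).le (by norm_num : 91 ≠ 0)).1 ?_
  rw [G_pow S62 (by norm_num)]
  norm_num [Finset.prod_range_succ]
lemma G6_hi : G 6 ≤ 5 := by
  refine (pow_le_pow_iff_left₀ (G_pos 6).le (by norm_num) (by norm_num : 91 ≠ 0)).1 ?_
  rw [G_pow S62 (by norm_num)]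
  norm_num [Finset.prod_range_succ]

/-- the common argument for `m = 5, 6` -/
lemma two_step {m n : ℕ} {N q : ℝ} (hm : 1 ≤ m) (hn0 : 0 < n) (hn : S m 2 = n) (hN : 0 < N)
    (hq0 : 0 ≤ q)
    (hG : 6 * N * G m ≤ 3 * n) (hq : N ≤ G m * q ^ 20)
    (h2 : 2 * N ^ 2 * q * (1 + 207053 / 50000) ≤ 1901641 / 200000 * n)
    (h3 : 2 * N ^ 2 * q * (1 + 207053 / 50000 + 4754103 / 500000) ≤ 27094959 / 1000000 * n)
    (h4 : 2 * N ^ 3 * 36 ≤ 125 * (n * G m)) {r : ℝ} (hr1 : 1 ≤ r) (hr3 : r ≤ 3) :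
    ∃ K : ℕ, 1 ≤ K ∧ N ^ r * 2 ≤ g K r * S m r := by
  have hG0 := G_pos m
  have hn' : (0 : ℝ) < n := by exact_mod_cast hn0
  have hS : N ^ r * 2 ≤ (2 * G m ^ 2 / n) * (N / G m) ^ r * S m r := by
    have h := S_tangent hm r
    rw [hn] at h
    calc N ^ r * 2 = (2 * G m ^ 2 / n) * (N / G m) ^ r * (n * G m ^ (r - 2)) := by
          rw [Real.div_rpow hN.le hG0.le, Real.rpow_sub hG0, Real.rpow_two]
          field_simp
      _ ≤ _ := mul_le_mul_of_nonneg_left h (by positivity)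
  have hc1 : 0 < 2 * G m ^ 2 / n := by positivity
  have hc2 : 0 < N / G m := by positivity
  have hroot : (N / G m) ^ (1 / 20 : ℝ) ≤ q := by
    refine rpow_le_of_pow (by positivity) hq0 1 20 (by norm_num) ?_ (by norm_num)
    rw [pow_one, div_le_iff₀ hG0]
    linarith
  have e205 : (N / G m) ^ (41 / 20 : ℝ) = (N / G m) ^ 2 * (N / G m) ^ (1 / 20 : ℝ) := by
    rw [← Real.rpow_two, ← Real.rpow_add hc2]; norm_num
  have hmid : (2 * G m ^ 2 / n) * (N / G m) ^ (41 / 20 : ℝ) ≤ 2 * N ^ 2 * q / n := by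
    rw [e205]
    calc (2 * G m ^ 2 / n) * ((N / G m) ^ 2 * (N / G m) ^ (1 / 20 : ℝ))
        ≤ (2 * G m ^ 2 / n) * ((N / G m) ^ 2 * q) := by gcongr
      _ = _ := by field_simp
  have ha3 := nP2
  have ha4 := nP3
  rcases le_or_gt r (41 / 20) with h | h
  · refine ⟨2, by norm_num, div_le_of (by norm_num) hS ?_⟩
    refine tile0 (by norm_num) (by norm_num : (0 : ℝ) < 1) hc1 hc2 ?_ ?_ hr1 h
    · rw [Real.rpow_one, Real.rpow_one, S_two', Real.rpow_one]
      push_cast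
      have e : (2 * G m ^ 2 / n) * (N / G m) * (1 + 2) = 6 * N * G m / n := by field_simp; ring
      rw [e, div_le_iff₀ hn']
      linarith
    · rw [S_two', show (2 * ((2 : ℕ) : ℝ) - 1) = 3 by norm_num]
      refine le_trans ?_ nL3
      calc (2 * G m ^ 2 / n) * (N / G m) ^ (41 / 20 : ℝ) * (1 + 2 ^ (41 / 20 : ℝ))
          ≤ (2 * N ^ 2 * q / n) * (1 + 207053 / 50000) := by gcongr
        _ = 2 * N ^ 2 * q * (1 + 207053 / 50000) / n := by ring
        _ ≤ _ := by rw [div_le_iff₀ hn']; exact h2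
  · refine ⟨3, by norm_num, div_le_of (by norm_num) hS ?_⟩
    refine tile0 (by norm_num) (by norm_num : (0 : ℝ) < 41 / 20) hc1 hc2 ?_ ?_ h.le hr3
    · rw [S_three', show (2 * ((3 : ℕ) : ℝ) - 1) = 5 by norm_num]
      refine le_trans ?_ nL5
      calc (2 * G m ^ 2 / n) * (N / G m) ^ (41 / 20 : ℝ) * (1 + 2 ^ (41 / 20 : ℝ) + 3 ^ (41 / 20 : ℝ))
          ≤ (2 * N ^ 2 * q / n) * (1 + 207053 / 50000 + 4754103 / 500000) := by gcongr
        _ = 2 * N ^ 2 * q * (1 + 207053 / 50000 + 4754103 / 500000) / n := by ring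
        _ ≤ _ := by rw [div_le_iff₀ hn']; exact h3
    · rw [S_three']
      simp only [show ∀ x : ℝ, x ^ (3 : ℝ) = x ^ (3 : ℕ) from fun x => by
        rw [← Real.rpow_natCast]; norm_num]
      have e : (2 * G m ^ 2 / n) * (N / G m) ^ 3 * (1 + 2 ^ 3 + 3 ^ 3) =
          2 * N ^ 3 * 36 / (n * G m) := by field_simp; ring
      rw [e, div_le_iff₀ (by positivity)]
      norm_num
      linarith

lemma five {r : ℝ} (hr1 : 1 ≤ r) (hr3 : r ≤ 3) :
    ∃ K : ℕ, 1 ≤ K ∧ (7 : ℝ) ^ r * 2 ≤ g K r * S 5 r := by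
  have h1 := G5_lo
  have h2 := G5_hi
  refine two_step (m := 5) (n := 55) (q := 12871 / 12500) (by norm_num) (by norm_num) S52
    (by norm_num) (by norm_num) ?_ ?_ (by norm_num) (by norm_num) ?_ hr1 hr3
  · push_cast; linarith
  · have : (7 : ℝ) ≤ 39 / 10 * (12871 / 12500) ^ 20 := by norm_num
    nlinarith
  · push_cast; linarith

lemma six {r : ℝ} (hr1 : 1 ≤ r) (hr3 : r ≤ 3) :
    ∃ K : ℕ, 1 ≤ K ∧ (9 : ℝ) ^ r * 2 ≤ g K r * S 6 r := by
  have h1 := G6_lo
  have h2 := G6_hi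
  refine two_step (m := 6) (n := 91) (q := 5169 / 5000) (by norm_num) (by norm_num) S62
    (by norm_num) (by norm_num) ?_ ?_ (by norm_num) (by norm_num) ?_ hr1 hr3
  · push_cast; linarith
  · have : (9 : ℝ) ≤ 463 / 100 * (5169 / 5000) ^ 20 := by norm_num
    nlinarith
  · push_cast; linarith

/-- The ratio bound for exponents in `[1,3]`. -/
theorem ratio_mid {r : ℝ} (hr1 : 1 ≤ r) (hr3 : r ≤ 3) {k J : ℕ} (hk : 1 ≤ k) (hJ : 1 ≤ J) :
    ∃ K : ℕ, 1 ≤ K ∧ (2 * (k : ℝ) - 1) ^ r * J ≤ g K r * S (k - 1 + J) r := by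
  rcases Nat.lt_or_ge (3 * J) (2 * k - 1) with h | h
  · rcases Nat.lt_or_ge J 2 with hJ2 | hJ2
    · have : J = 1 := by omega
      subst this
      refine ⟨k, hk, le_of_eq ?_⟩
      rw [show k - 1 + 1 = k by omega]
      have := S_pos hk r
      unfold g
      rw [div_mul_cancel₀ _ this.ne']
      simp
    · rcases Nat.lt_or_ge (k - 1 + J) 7 with h7 | h7
      · have hJ2' : J = 2 := by omega
        subst hJ2'
        have hk' : k = 4 ∨ k = 5 := by omega
        rcases hk' with rfl | rfl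
        · obtain ⟨K, hK, hK2⟩ := five hr1 hr3
          refine ⟨K, hK, ?_⟩
          norm_num
          exact hK2
        · obtain ⟨K, hK, hK2⟩ := six hr1 hr3
          refine ⟨K, hK, ?_⟩
          norm_num
          exact hK2
      · rcases le_or_gt r (3 / 2) with hr | hr
        · exact ⟨2, by norm_num, ratio_first hr1 hr hk hJ h7 h⟩
        · have hp := prod_ratio hr1 hr3 hk hJ h7
          rcases le_or_gt r (41 / 20) with hr' | hr'
          · exact ⟨2, by norm_num, div_le_of (by norm_num) hp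
              (tile (by norm_num) (by norm_num) (by norm_num) (by norm_num) T1 T2 hr.le hr')⟩
          · exact ⟨3, by norm_num, div_le_of (by norm_num) hp
              (tile (by norm_num) (by norm_num) (by norm_num) (by norm_num) T3 T4 hr'.le hr3)⟩
  · exact ⟨2, by norm_num, ratio_le_g_two hr1 hk hJ h⟩

end Pool.Agent.Q206.MH
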