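import Pool.Agent.Q206.MH.FiveSix

namespace Pool.Agent.Q206.MH

open Real

/-! ## Case A -/

lemma caseA {r : ℝ} (hr : 0 < r) {m : ℕ} (hm : 2 ≤ m)
    (h : 2 * (2 * (m : ℝ) - 3) ^ r ≤ (2 * (m : ℝ) - 1) ^ r) :
    ∀ J : ℕ, 1 ≤ J → J ≤ m →
      (2 * (m : ℝ) + 1 - 2 * J) ^ r * J ≤ (2 * (m : ℝ) - 1) ^ r := by
  intro J hJ
  induction J, hJ using Nat.le_induction with
  | base =>
    intro _
    push_cast
    rw [show 2 * (m : ℝ) + 1 - 2 * 1 = 2 * m - 1 by ring, mul_one]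
  | succ J hJ ih =>
    intro hJm
    refine le_trans ?_ (ih (by omega))
    have hm2 : (2 : ℝ) ≤ m := by exact_mod_cast hm
    have hJ1 : (1 : ℝ) ≤ J := by exact_mod_cast hJ
    have hJm' : (J : ℝ) + 1 ≤ m := by exact_mod_cast hJm
    push_cast
    have ha : (0 : ℝ) < 2 * m + 1 - 2 * J := by linarith
    have hb : (0 : ℝ) < 2 * m - 1 := by linarith
    have hc : (0 : ℝ) ≤ 2 * m - 3 := by linarith
    have hd : (0 : ℝ) ≤ 2 * (m : ℝ) + 1 - 2 * (J + 1) := by linarith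
    have h1 : 2 * (m : ℝ) + 1 - 2 * (J + 1) ≤ (2 * m - 3) / (2 * m - 1) * (2 * m + 1 - 2 * J) := by
      rw [div_mul_eq_mul_div, le_div_iff₀ hb]
      nlinarith
    have h2 : (2 * (m : ℝ) + 1 - 2 * (J + 1)) ^ r ≤
        ((2 * (m : ℝ) - 3) / (2 * m - 1)) ^ r * (2 * m + 1 - 2 * J) ^ r := by
      rw [← Real.mul_rpow (by positivity) ha.le]
      exact Real.rpow_le_rpow hd h1 hr.le
    have h3 : ((2 * (m : ℝ) - 3) / (2 * m - 1)) ^ r ≤ 1 / 2 := by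
      rw [Real.div_rpow hc hb.le, div_le_iff₀ (by positivity)]
      linarith
    have h4 : (0 : ℝ) < (2 * m + 1 - 2 * J) ^ r := by positivity
    have h5 : (2 * (m : ℝ) + 1 - 2 * (J + 1)) ^ r ≤ 1 / 2 * (2 * m + 1 - 2 * J) ^ r :=
      h2.trans (mul_le_mul_of_nonneg_right h3 h4.le)
    calc (2 * (m : ℝ) + 1 - 2 * (J + 1)) ^ r * (J + 1)
        ≤ (1 / 2 * (2 * m + 1 - 2 * J) ^ r) * (J + 1) := mul_le_mul_of_nonneg_right h5 (by positivity)
      _ ≤ (2 * m + 1 - 2 * J) ^ r * J := by nlinarith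

/-! ## Case B -/

lemma log_ratio_ge {x : ℝ} (h0 : 0 ≤ x) (h1 : x < 1) : 2 * x ≤ log (1 + x) - log (1 - x) := by
  have h := Real.hasSum_log_sub_log_of_abs_lt_one (by rw [abs_of_nonneg h0]; exact h1)
  have h2 := sum_le_hasSum {0} (fun k _ => by positivity) h
  simpa using h2

lemma caseB {r : ℝ} {m : ℕ} (hm : 2 ≤ m)
    (h : (2 * (m : ℝ) - 1) ^ r < 2 * (2 * (m : ℝ) - 3) ^ r) :
    r ≤ 0.6931471808 * ((m : ℝ) - 1) := by
  have hm2 : (2 : ℝ) ≤ m := by exact_mod_cast hm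
  rcases eq_or_lt_of_le hm2 with h2 | h2
  · rw [← h2] at h ⊢
    norm_num at h ⊢
    by_contra hcon
    push Not at hcon
    have h3 : log (3 ^ r) < log 2 := Real.log_lt_log (by positivity) h
    rw [Real.log_rpow (by norm_num)] at h3
    have h4 : log 2 ≤ log 3 := Real.log_le_log (by norm_num) (by norm_num)
    have h5 : 0 < log 2 := Real.log_pos (by norm_num)
    have h6 : r < 1 := by
      by_contra h7
      push Not at h7
      nlinarith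
    have h7 : r * log 3 < 0.6931471808 := h3.trans Real.log_two_lt_d9
    have h8 : 1 ≤ log 3 := by
      have : Real.exp 1 ≤ 3 := by linarith [Real.exp_one_lt_d9]
      rw [Real.le_log_iff_exp_le (by norm_num)]
      exact this
    nlinarith
  · have ha : (0 : ℝ) < 2 * m - 3 := by linarith
    have hb : (0 : ℝ) < 2 * m - 1 := by linarith
    have h3 := Real.log_lt_log (by positivity) h
    rw [Real.log_mul (by norm_num) (by positivity), Real.log_rpow ha, Real.log_rpow hb] at h3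
    have hx0 : (0 : ℝ) ≤ 1 / (2 * (m : ℝ) - 2) := by
      have : (0 : ℝ) < 2 * (m : ℝ) - 2 := by linarith
      positivity
    have hx1 : 1 / (2 * (m : ℝ) - 2) < 1 := by
      rw [div_lt_one (by linarith)]; linarith
    have h4 := log_ratio_ge hx0 hx1
    have hc : (0 : ℝ) < 2 * (m : ℝ) - 2 := by linarith
    have e1 : 1 + 1 / (2 * (m : ℝ) - 2) = (2 * m - 1) / (2 * m - 2) := by
      rw [eq_div_iff hc.ne', add_mul, div_mul_cancel₀ _ hc.ne']; ring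
    have e2 : 1 - 1 / (2 * (m : ℝ) - 2) = (2 * m - 3) / (2 * m - 2) := by
      rw [eq_div_iff hc.ne', sub_mul, div_mul_cancel₀ _ hc.ne']; ring
    rw [e1, e2, Real.log_div hb.ne' hc.ne', Real.log_div ha.ne' hc.ne'] at h4
    have h5 : 2 * (1 / (2 * (m : ℝ) - 2)) ≤ log (2 * m - 1) - log (2 * m - 3) := by linarith
    by_contra hcon
    push Not at hcon
    have hr0 : 0 < r := lt_trans (by nlinarith) hcon
    have h6 := mul_le_mul_of_nonneg_left h5 hr0.le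
    have h7 : r * (2 * (1 / (2 * (m : ℝ) - 2))) < 0.6931471808 := by
      linarith [Real.log_two_lt_d9]
    have e3 : r * (2 * (1 / (2 * (m : ℝ) - 2))) = r / (m - 1) := by
      have : (m : ℝ) - 1 ≠ 0 := by intro h'; linarith
      field_simp
    rw [e3, div_lt_iff₀ (by linarith)] at h7
    linarith

/-- the ratio bound from the corrected power sum bound -/
lemma kappa_ratio {r : ℝ} (h3 : 3 ≤ r) {k J : ℕ} (hk : 1 ≤ k) (hJ : 1 ≤ J)
    (hB : r ≤ 0.6931471808 * (((k - 1 + J : ℕ) : ℝ) - 1)) :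
    (2 * (k : ℝ) - 1) ^ r * J ≤
      ((2 * r / (r + 1)) ^ r * 1.0205 * 1 ^ r) * S (k - 1 + J) r := by
  set m := k - 1 + J with hmdef
  have hk1 : (1 : ℝ) ≤ k := by exact_mod_cast hk
  have hJ1 : (1 : ℝ) ≤ J := by exact_mod_cast hJ
  have em : (m : ℝ) = k - 1 + J := by rw [hmdef]; push_cast [Nat.cast_sub hk]; ring
  have hfc := fc_bound (r := r) (J := J) (N := 2 * (k : ℝ) - 1) (M := (m : ℝ) + 1 / 2)
    (by linarith) (by linarith) (by linarith) (by rw [em]; ring)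
  have hS := S_kappa h3 m
  set M : ℝ := (m : ℝ) + 1 / 2 with hM
  have hM0 : 0 < M := by positivity
  have hr0 : 0 < r + 1 := by linarith
  have hMr : 1.4426950 * r + 1.5 ≤ M := by
    have h1 : 1.4426950 * r ≤ (m : ℝ) - 1 := by
      have h2 : (0 : ℝ) ≤ (m : ℝ) - 1 := by nlinarith
      nlinarith
    rw [hM]; linarith
  have hq : r * (r + 1) / 24 ≤ 0.020087 * M ^ 2 := by
    have h5 : (1.4426950 * r + 1.5) ^ 2 ≤ M ^ 2 := by
      have : (0 : ℝ) ≤ 1.4426950 * r + 1.5 := by linarith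
      exact pow_le_pow_left₀ this hMr 2
    nlinarith
  have e1 : M ^ (r - 1) * M ^ 2 = M ^ (r + 1) := by
    rw [← Real.rpow_natCast M 2, ← Real.rpow_add hM0]
    congr 1; push_cast; ring
  have hp : (0 : ℝ) < M ^ (r - 1) := by positivity
  have h6 : r * (r + 1) / 24 * M ^ (r - 1) ≤ 0.020087 * M ^ (r + 1) := by
    rw [← e1]
    nlinarith [mul_le_mul_of_nonneg_right hq hp.le]
  have h7 : 0.979913 * M ^ (r + 1) ≤ (r + 1) * S m r := by linarith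
  have hSn := S_nonneg m r
  have h8 : M ^ (r + 1) / (r + 1) ≤ 1.0205 * S m r := by
    rw [div_le_iff₀ hr0]
    nlinarith [mul_nonneg hr0.le hSn]
  refine hfc.trans ?_
  rw [Real.one_rpow, mul_one]
  have h9 := mul_le_mul_of_nonneg_left h8 (by positivity : (0 : ℝ) ≤ (2 * r / (r + 1)) ^ r)
  linarith

/-! ## The lower bound for the supremum, finite range -/

lemma n16A : (32 / 21 : ℝ) ^ (16 / 5 : ℝ) ≤ 384936 / 100000 :=
  rpow_le_of_pow (by norm_num) (by norm_num) 16 5 (by norm_num) (by norm_num) (by norm_num)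
lemma n16P2 : (2 : ℝ) ^ (16 / 5 : ℝ) ≤ 91896 / 10000 :=
  rpow_le_of_pow (by norm_num) (by norm_num) 16 5 (by norm_num) (by norm_num) (by norm_num)
lemma n16P3 : (3 : ℝ) ^ (16 / 5 : ℝ) ≤ 336348 / 10000 :=
  rpow_le_of_pow (by norm_num) (by norm_num) 16 5 (by norm_num) (by norm_num) (by norm_num)
lemma n16P4 : (4 : ℝ) ^ (16 / 5 : ℝ) ≤ 84449 / 1000 :=
  rpow_le_of_pow (by norm_num) (by norm_num) 16 5 (by norm_num) (by norm_num) (by norm_num)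
lemma n16L5 : (172466 / 1000 : ℝ) ≤ (5 : ℝ) ^ (16 / 5 : ℝ) :=
  le_rpow_of_pow (by norm_num) (by norm_num) 16 5 (by norm_num) (by norm_num) (by norm_num)
lemma n16L7 : (50618 / 100 : ℝ) ≤ (7 : ℝ) ^ (16 / 5 : ℝ) :=
  le_rpow_of_pow (by norm_num) (by norm_num) 16 5 (by norm_num) (by norm_num) (by norm_num)

lemma S_four' (r : ℝ) : S 4 r = 1 + 2 ^ r + 3 ^ r + 4 ^ r := by
  rw [show (4 : ℕ) = 3 + 1 from rfl, S_succ, S_three']; norm_num

lemma V1 : (2 * (3 : ℝ) / (3 + 1)) ^ (3 : ℝ) * 1.0205 * 1 ^ (3 : ℝ) * S 3 3 ≤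
    (2 * ((3 : ℕ) : ℝ) - 1) ^ (3 : ℝ) := by
  rw [S_three']
  simp only [show ∀ x : ℝ, x ^ (3 : ℝ) = x ^ (3 : ℕ) from fun x => by
    rw [← Real.rpow_natCast]; norm_num]
  norm_num

lemma V2 : (2 * (16 / 5 : ℝ) / (16 / 5 + 1)) ^ (16 / 5 : ℝ) * 1.0205 * 1 ^ (16 / 5 : ℝ) *
    S 3 (16 / 5) ≤ (2 * ((3 : ℕ) : ℝ) - 1) ^ (16 / 5 : ℝ) := by
  rw [S_three', Real.one_rpow, show (2 * (16 / 5 : ℝ) / (16 / 5 + 1)) = 32 / 21 by norm_num,
    show (2 * ((3 : ℕ) : ℝ) - 1) = 5 by norm_num]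
  have a1 := n16A
  have a2 := n16P2
  have a3 := n16P3
  refine le_trans ?_ n16L5
  calc (32 / 21 : ℝ) ^ (16 / 5 : ℝ) * 1.0205 * 1 * (1 + 2 ^ (16 / 5 : ℝ) + 3 ^ (16 / 5 : ℝ))
      ≤ (384936 / 100000) * 1.0205 * 1 * (1 + 91896 / 10000 + 336348 / 10000) := by gcongr
    _ ≤ 172466 / 1000 := by norm_num

lemma V3 : (2 * (16 / 5 : ℝ) / (16 / 5 + 1)) ^ (16 / 5 : ℝ) * 1.0205 * 1 ^ (16 / 5 : ℝ) *
    S 4 (16 / 5) ≤ (2 * ((4 : ℕ) : ℝ) - 1) ^ (16 / 5 : ℝ) := by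
  rw [S_four', Real.one_rpow, show (2 * (16 / 5 : ℝ) / (16 / 5 + 1)) = 32 / 21 by norm_num,
    show (2 * ((4 : ℕ) : ℝ) - 1) = 7 by norm_num]
  have a1 := n16A
  have a2 := n16P2
  have a3 := n16P3
  have a4 := n16P4
  refine le_trans ?_ n16L7
  calc (32 / 21 : ℝ) ^ (16 / 5 : ℝ) * 1.0205 * 1 *
        (1 + 2 ^ (16 / 5 : ℝ) + 3 ^ (16 / 5 : ℝ) + 4 ^ (16 / 5 : ℝ))
      ≤ (384936 / 100000) * 1.0205 * 1 * (1 + 91896 / 10000 + 336348 / 10000 + 84449 / 1000) := by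
        gcongr
    _ ≤ 50618 / 100 := by norm_num

lemma V4 : (2 * (4 : ℝ) / (4 + 1)) ^ (4 : ℝ) * 1.0205 * 1 ^ (4 : ℝ) * S 4 4 ≤
    (2 * ((4 : ℕ) : ℝ) - 1) ^ (4 : ℝ) := by
  rw [S_four']
  simp only [show ∀ x : ℝ, x ^ (4 : ℝ) = x ^ (4 : ℕ) from fun x => by
    rw [← Real.rpow_natCast]; norm_num]
  norm_num

/-- natural power sums -/
def SN : ℕ → ℕ → ℕ
  | 0, _ => 0
  | k + 1, n => SN k n + (k + 1) ^ n

lemma S_nat (k n : ℕ) : S k (n : ℝ) = SN k n := by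
  induction k with
  | zero => simp [S_zero, SN]
  | succ k ih => rw [S_succ, ih, SN]; push_cast; rw [Real.rpow_natCast]

lemma check : ∀ n ∈ Finset.Ico 4 40,
    (2 * n) ^ n * 10205 * SN (n + 1) n ≤ (2 * n + 1) ^ n * (n + 1) ^ n * 10000 ∧
    (2 * (n + 1)) ^ (n + 1) * 10205 * SN (n + 1) (n + 1) ≤
      (2 * n + 1) ^ (n + 1) * (n + 2) ^ (n + 1) * 10000 := by
  decide +kernel

lemma ofNat_check {K n : ℕ} (h : (2 * n) ^ n * 10205 * SN K n ≤
    (2 * K - 1) ^ n * (n + 1) ^ n * 10000) (hK : 1 ≤ K) :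
    (2 * (n : ℝ) / (n + 1)) ^ (n : ℝ) * 1.0205 * 1 ^ (n : ℝ) * S K n ≤
      (2 * (K : ℝ) - 1) ^ (n : ℝ) := by
  have h' : ((2 : ℝ) * n) ^ n * 10205 * SN K n ≤ (2 * (K : ℝ) - 1) ^ n * ((n : ℝ) + 1) ^ n * 10000 := by
    have h1 : (((2 * n) ^ n * 10205 * SN K n : ℕ) : ℝ) ≤
        (((2 * K - 1) ^ n * (n + 1) ^ n * 10000 : ℕ) : ℝ) := by exact_mod_cast h
    push_cast [Nat.cast_sub (by omega : 1 ≤ 2 * K)] at h1
    exact h1
  rw [S_nat, Real.one_rpow, Real.rpow_natCast, Real.rpow_natCast, div_pow]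
  have h2 : (0 : ℝ) < ((n : ℝ) + 1) ^ n := by positivity
  rw [mul_one, div_mul_eq_mul_div, div_mul_eq_mul_div, div_le_iff₀ h2]
  norm_num at h' ⊢
  linarith

end Pool.Agent.Q206.MH
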