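import Pool.Agent.Q206.MH.High

namespace Pool.Agent.Q206.MH

open Real

/-- geometric upper bound for the power sum -/
lemma S_geom {r : ℝ} (hr : 0 < r) {K : ℕ} (hK : 2 ≤ K) :
    S K r * (1 - (1 - 1 / (K : ℝ)) ^ r) ≤ (K : ℝ) ^ r := by
  have hK0 : (0 : ℝ) < K := by positivity
  have hK2 : (2 : ℝ) ≤ K := by exact_mod_cast hK
  set x : ℝ := 1 - 1 / (K : ℝ) with hx
  have hx0 : 0 ≤ x := by
    rw [hx, sub_nonneg, div_le_one hK0]; linarith
  set u : ℝ := x ^ r with hu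
  have hu0 : 0 ≤ u := by positivity
  have hu1 : u ≤ 1 := by
    refine Real.rpow_le_one hx0 ?_ hr.le
    rw [hx]; linarith [(by positivity : (0 : ℝ) < 1 / (K : ℝ))]
  have h1 : S K r ≤ (K : ℝ) ^ r * ∑ j ∈ Finset.range K, u ^ j := by
    unfold S
    rw [← Finset.sum_range_reflect, Finset.mul_sum]
    refine Finset.sum_le_sum fun j hj => ?_
    have hj' : j + 1 ≤ K := Finset.mem_range.1 hj
    have e1 : (((K - 1 - j : ℕ) : ℝ) + 1) = K - j := by
      rw [show K - 1 - j = K - (j + 1) by omega, Nat.cast_sub hj']; push_cast; ring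
    rw [e1]
    have hjK : (j : ℝ) ≤ K := by
      have : ((j : ℝ) + 1) ≤ K := by exact_mod_cast hj'
      linarith
    have h2 : ((K : ℝ) - j) ≤ K * x ^ j := by
      have h3 := one_add_mul_le_pow (a := -(1 / (K : ℝ))) (by
        have : 1 / (K : ℝ) ≤ 1 := by rw [div_le_one hK0]; linarith
        linarith) j
      have e2 : 1 + -(1 / (K : ℝ)) = x := by rw [hx]; ring
      rw [e2] at h3
      calc (K : ℝ) - j = K * (1 + (j : ℝ) * -(1 / (K : ℝ))) := by field_simp; ring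
        _ ≤ K * x ^ j := mul_le_mul_of_nonneg_left h3 hK0.le
    calc ((K : ℝ) - j) ^ r ≤ (K * x ^ j) ^ r := Real.rpow_le_rpow (by linarith) h2 hr.le
      _ = (K : ℝ) ^ r * u ^ j := by
        rw [Real.mul_rpow hK0.le (by positivity), hu, ← Real.rpow_natCast, ← Real.rpow_mul hx0,
          ← Real.rpow_natCast, ← Real.rpow_mul hx0, mul_comm (j : ℝ) r]
  have h4 : (∑ j ∈ Finset.range K, u ^ j) * (1 - u) = 1 - u ^ K := by
    have := geom_sum_mul_neg u K
    linarith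
  have h5 : 0 ≤ 1 - u := by linarith
  calc S K r * (1 - u) ≤ ((K : ℝ) ^ r * ∑ j ∈ Finset.range K, u ^ j) * (1 - u) :=
        mul_le_mul_of_nonneg_right h1 h5
    _ = (K : ℝ) ^ r * (1 - u ^ K) := by rw [mul_assoc, h4]
    _ ≤ (K : ℝ) ^ r * 1 := by
        refine mul_le_mul_of_nonneg_left ?_ (by positivity)
        have : 0 ≤ u ^ K := by positivity
        linarith
    _ = _ := mul_one _

lemma exp_half_lo : (1.6487 : ℝ) ≤ exp (1 / 2) := by
  have h : (1.6487 : ℝ) ^ 2 ≤ exp (1 / 2) ^ 2 := by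
    rw [← Real.exp_nat_mul]
    norm_num
    have := Real.exp_one_gt_d9
    linarith
  exact (pow_le_pow_iff_left₀ (by norm_num) (by positivity) (by norm_num : 2 ≠ 0)).1 h

lemma exp_half_hi : exp (1 / 2) ≤ (1.6488 : ℝ) := by
  have h : exp (1 / 2) ^ 2 ≤ (1.6488 : ℝ) ^ 2 := by
    rw [← Real.exp_nat_mul]
    norm_num
    have := Real.exp_one_lt_d9
    linarith
  exact (pow_le_pow_iff_left₀ (by positivity) (by norm_num) (by norm_num : 2 ≠ 0)).1 h

/-- The lower bound for the supremum for large exponents. -/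
lemma large {r : ℝ} (hr : 40 ≤ r) : ∃ K : ℕ, 1 ≤ K ∧
    (2 * r / (r + 1)) ^ r * 1.0205 * 1 ^ r * S K r ≤ (2 * (K : ℝ) - 1) ^ r := by
  obtain ⟨K, hK⟩ : ∃ K : ℕ, K = ⌊r⌋₊ + 1 := ⟨_, rfl⟩
  have hr0 : 0 < r := by linarith
  have hlt : r < K := by rw [hK]; push_cast; exact Nat.lt_floor_add_one r
  have hle : (K : ℝ) - 1 ≤ r := by rw [hK]; push_cast; linarith [Nat.floor_le hr0.le]
  have hK41 : (41 : ℝ) ≤ K := by
    have : 41 ≤ K := by
      have h1 : (40 : ℝ) < K := lt_of_le_of_lt hr hlt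
      exact_mod_cast h1
    exact_mod_cast this
  have hK2 : 2 ≤ K := by
    have : (2 : ℝ) ≤ K := by linarith
    exact_mod_cast this
  refine ⟨K, by omega, ?_⟩
  have hK0 : (0 : ℝ) < K := by linarith
  set y : ℝ := 1 - 1 / (2 * (K : ℝ)) with hy
  have hinv : 1 / (2 * (K : ℝ)) ≤ 1 / 82 := by
    rw [div_le_div_iff₀ (by positivity) (by norm_num)]; linarith
  have hinv0 : 0 < 1 / (2 * (K : ℝ)) := by positivity
  have hy0 : 0 < y := by rw [hy]; linarith
  set v : ℝ := y ^ r with hv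
  have hv0 : 0 < v := by positivity
  -- upper bound for v
  have hv1 : v ≤ 0.6141 := by
    have h1 : v ≤ exp (-(1 / 2) + 1 / 82) := by
      rw [hv, Real.rpow_def_of_pos hy0]
      refine Real.exp_le_exp.2 ?_
      have h2 := Real.log_le_sub_one_of_pos hy0
      have h3 : log y * r ≤ -(1 / (2 * (K : ℝ))) * r :=
        mul_le_mul_of_nonneg_right (by rw [hy] at h2 ⊢; linarith) hr0.le
      have h4 : -(1 / (2 * (K : ℝ))) * r ≤ -(1 / (2 * (K : ℝ))) * (K - 1) := by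
        nlinarith
      have h5 : -(1 / (2 * (K : ℝ))) * (K - 1) = -(1 / 2) + 1 / (2 * K) := by field_simp; ring
      linarith
    have h2 : exp (-(1 / 2) + 1 / 82) ≤ (0.6141 : ℝ) := by
      rw [show (-(1 / 2) + 1 / 82 : ℝ) = -(1 / 2 - 1 / 82) by ring, Real.exp_neg]
      rw [inv_le_comm₀ (by positivity) (by norm_num)]
      rw [show (1 / 2 - 1 / 82 : ℝ) = 1 / 2 + -(1 / 82) by ring, Real.exp_add]
      have h3 := exp_half_lo
      have h4 : (81 / 82 : ℝ) ≤ exp (-(1 / 82)) := by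
        have := Real.add_one_le_exp (-(1 / 82) : ℝ)
        linarith
      have h5 : (1.6487 : ℝ) * (81 / 82) ≤ exp (1 / 2) * exp (-(1 / 82)) := by gcongr
      refine le_trans ?_ h5
      norm_num
    exact h1.trans h2
  have hv2 : 0.6 ≤ v := by
    have h1 : exp (-(41 / 81)) ≤ v := by
      rw [hv, Real.rpow_def_of_pos hy0]
      refine Real.exp_le_exp.2 ?_
      have h2 := Real.one_sub_inv_le_log_of_pos hy0
      have h3 : 1 - y⁻¹ = -(1 / (2 * (K : ℝ) - 1)) := by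
        have hne : (2 * (K : ℝ) - 1) ≠ 0 := by intro h'; linarith
        have e : y = (2 * K - 1) / (2 * K) := by rw [hy]; field_simp
        rw [e, inv_div]
        field_simp
        ring
      rw [h3] at h2
      have h4 : -(1 / (2 * (K : ℝ) - 1)) * r ≤ log y * r := mul_le_mul_of_nonneg_right h2 hr0.le
      refine le_trans ?_ h4
      have h5 : r / (2 * (K : ℝ) - 1) ≤ 41 / 81 := by
        rw [div_le_div_iff₀ (by linarith) (by norm_num)]
        nlinarith
      have e : -(1 / (2 * (K : ℝ) - 1)) * r = -(r / (2 * (K : ℝ) - 1)) := by ring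
      rw [e]
      linarith
    have h2 : (0.6 : ℝ) ≤ exp (-(41 / 81)) := by
      rw [Real.exp_neg, le_inv_comm₀ (by norm_num) (by positivity)]
      rw [show (41 / 81 : ℝ) = 1 / 2 + 1 / 162 by norm_num, Real.exp_add]
      have h3 := exp_half_hi
      have h4 : exp (1 / 162) ≤ (162 / 161 : ℝ) := by
        have := Real.add_one_le_exp (-(1 / 162) : ℝ)
        rw [Real.exp_neg, le_inv_comm₀ (by norm_num) (by positivity)] at this
        refine this.trans (by norm_num)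
      calc exp (1 / 2) * exp (1 / 162) ≤ 1.6488 * (162 / 161) := by gcongr
        _ ≤ (0.6)⁻¹ := by norm_num
    exact h2.trans h1
  have hvv : (0.3825 : ℝ) ≤ v - v ^ 3 := by
    have : v - v ^ 3 - (0.6141 - 0.6141 ^ 3) =
        (0.6141 - v) * (v ^ 2 + 0.6141 * v + 0.6141 ^ 2 - 1) := by ring
    have h1 : 0 ≤ (0.6141 - v) * (v ^ 2 + 0.6141 * v + 0.6141 ^ 2 - 1) :=
      mul_nonneg (by linarith) (by nlinarith)
    norm_num at this h1 ⊢
    linarith
  -- the needed bound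
  have hneed : (2 * r / (r + 1)) ^ r * 1.0205 ≤ 2 ^ r * 0.3825 := by
    rw [mul_div_assoc, Real.mul_rpow (by norm_num) (by positivity)]
    have h1 : (r / (r + 1)) ^ r ≤ exp (-1 + 1 / 81) := by
      rw [Real.rpow_def_of_pos (by positivity)]
      refine Real.exp_le_exp.2 ?_
      have h2 := Real.le_log_one_add_of_nonneg (x := 1 / r) (by positivity)
      have e1 : log (r / (r + 1)) = -log (1 + 1 / r) := by
        rw [← Real.log_inv]; congr 1; field_simp
      have e2 : 2 * (1 / r) / (1 / r + 2) = 2 / (2 * r + 1) := by field_simp; ring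
      rw [e2] at h2
      rw [e1]
      have h3 : -log (1 + 1 / r) * r ≤ -(2 / (2 * r + 1)) * r :=
        mul_le_mul_of_nonneg_right (by linarith) hr0.le
      refine h3.trans ?_
      have e3 : -(2 / (2 * r + 1)) * r = -1 + 1 / (2 * r + 1) := by field_simp; ring
      rw [e3]
      have : 1 / (2 * r + 1) ≤ 1 / 81 := by
        rw [div_le_div_iff₀ (by positivity) (by norm_num)]; linarith
      linarith
    have h2 : exp (-1 + 1 / 81) * 1.0205 ≤ (0.3825 : ℝ) := by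
      rw [show (-1 + 1 / 81 : ℝ) = -(1 + -(1 / 81)) by ring, Real.exp_neg, Real.exp_add]
      have h3 : (80 / 81 : ℝ) ≤ exp (-(1 / 81)) := by
        have := Real.add_one_le_exp (-(1 / 81) : ℝ)
        linarith
      have h4 : (2.718 : ℝ) ≤ exp 1 := by linarith [Real.exp_one_gt_d9]
      have h5 : (2.718 : ℝ) * (80 / 81) ≤ exp 1 * exp (-(1 / 81)) := by gcongr
      have h6 : (exp 1 * exp (-(1 / 81)))⁻¹ ≤ (2.718 * (80 / 81) : ℝ)⁻¹ :=
        inv_anti₀ (by norm_num) h5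
      calc (exp 1 * exp (-(1 / 81)))⁻¹ * 1.0205 ≤ (2.718 * (80 / 81) : ℝ)⁻¹ * 1.0205 := by gcongr
        _ ≤ 0.3825 := by norm_num
    calc (2 : ℝ) ^ r * (r / (r + 1)) ^ r * 1.0205 ≤ 2 ^ r * exp (-1 + 1 / 81) * 1.0205 := by gcongr
      _ = 2 ^ r * (exp (-1 + 1 / 81) * 1.0205) := by ring
      _ ≤ _ := by gcongr
  -- the power sum
  have hgeo := S_geom hr0 hK2
  have hu : (1 - 1 / (K : ℝ)) ^ r ≤ v ^ 2 := by
    have h0 : (0 : ℝ) ≤ 1 - 1 / (K : ℝ) := by
      rw [sub_nonneg, div_le_one hK0]; linarith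
    have h1 : (1 - 1 / (K : ℝ)) ≤ y ^ 2 := by
      have : y ^ 2 = 1 - 1 / (K : ℝ) + (1 / (2 * (K : ℝ))) ^ 2 := by rw [hy]; field_simp; ring
      rw [this]
      have : 0 ≤ (1 / (2 * (K : ℝ))) ^ 2 := by positivity
      linarith
    calc (1 - 1 / (K : ℝ)) ^ r ≤ (y ^ 2) ^ r := Real.rpow_le_rpow h0 h1 hr0.le
      _ = v ^ 2 := by
        rw [hv, ← Real.rpow_natCast y 2, ← Real.rpow_mul hy0.le, mul_comm,
          Real.rpow_mul hy0.le, Real.rpow_natCast]
  have hSn := S_nonneg K r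
  have hv3 : 0 < 1 - v ^ 2 := by nlinarith
  have h10 : S K r * (1 - v ^ 2) ≤ (K : ℝ) ^ r := by
    refine le_trans (mul_le_mul_of_nonneg_left (by linarith) hSn) hgeo
  have e1 : (2 * (K : ℝ) - 1) ^ r = 2 ^ r * (K : ℝ) ^ r * v := by
    rw [hv, ← Real.mul_rpow (by norm_num) hK0.le, ← Real.mul_rpow (by positivity) hy0.le]
    congr 1
    rw [hy]; field_simp
  rw [Real.one_rpow, mul_one, e1]
  have h2r : (0 : ℝ) < 2 ^ r := by positivity
  calc (2 * r / (r + 1)) ^ r * 1.0205 * S K r ≤ (2 ^ r * 0.3825) * S K r :=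
        mul_le_mul_of_nonneg_right hneed hSn
    _ ≤ (2 ^ r * (v - v ^ 3)) * S K r := by gcongr
    _ = 2 ^ r * v * (S K r * (1 - v ^ 2)) := by ring
    _ ≤ 2 ^ r * v * (K : ℝ) ^ r := by gcongr
    _ = _ := by ring

/-- The lower bound for the supremum for all exponents at least three. -/
theorem exists_good {r : ℝ} (hr : 3 ≤ r) : ∃ K : ℕ, 1 ≤ K ∧
    (2 * r / (r + 1)) ^ r * 1.0205 * 1 ^ r * S K r ≤ (2 * (K : ℝ) - 1) ^ r := by
  rcases le_or_gt r (16 / 5) with h1 | h1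
  · exact ⟨3, by norm_num, tile (by norm_num) (by norm_num) (by norm_num) (by norm_num) V1 V2 hr h1⟩
  rcases le_or_gt r 4 with h2 | h2
  · exact ⟨4, by norm_num, tile (by norm_num) (by norm_num) (by norm_num) (by norm_num) V3 V4 h1.le h2⟩
  rcases le_or_gt 40 r with h3 | h3
  · exact large h3
  · obtain ⟨n, hn⟩ : ∃ n : ℕ, n = ⌊r⌋₊ := ⟨_, rfl⟩
    have hr0 : 0 ≤ r := by linarith
    have hle : (n : ℝ) ≤ r := by rw [hn]; exact Nat.floor_le hr0
    have hlt : r < n + 1 := by rw [hn]; exact Nat.lt_floor_add_one r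
    have hn4 : 4 ≤ n := by rw [hn]; exact Nat.le_floor (by exact_mod_cast h2.le)
    have hn40 : n < 40 := by
      have : (n : ℝ) < 40 := lt_of_le_of_lt hle h3
      exact_mod_cast this
    obtain ⟨c1, c2⟩ := check n (Finset.mem_Ico.2 ⟨hn4, hn40⟩)
    have e0 : 2 * (n + 1) - 1 = 2 * n + 1 := by omega
    have k1 := ofNat_check (K := n + 1) (n := n) (by rw [e0]; exact c1) (by omega)
    have k2 := ofNat_check (K := n + 1) (n := n + 1) (by rw [e0]; exact c2) (by omega)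
    refine ⟨n + 1, by omega, ?_⟩
    have hn0 : (0 : ℝ) < n := by
      have : 0 < n := by omega
      exact_mod_cast this
    exact tile (by omega) hn0 (by norm_num) (by norm_num) k1 k2 hle (by push_cast; exact hlt.le)

/-- The ratio bound for exponents at least three. -/
theorem ratio_high {r : ℝ} (hr : 3 ≤ r) {k J : ℕ} (hk : 1 ≤ k) (hJ : 1 ≤ J) :
    ∃ K : ℕ, 1 ≤ K ∧ (2 * (k : ℝ) - 1) ^ r * J ≤ g K r * S (k - 1 + J) r := by
  have hk1 : (1 : ℝ) ≤ k := by exact_mod_cast hk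
  obtain ⟨m, hm⟩ : ∃ m : ℕ, m = k - 1 + J := ⟨_, rfl⟩
  have em : (m : ℝ) = k - 1 + J := by rw [hm]; push_cast [Nat.cast_sub hk]; ring
  rw [← hm]
  rcases Nat.lt_or_ge m 2 with h2 | h2
  · have h1 : k = 1 ∧ J = 1 ∧ m = 1 := by omega
    obtain ⟨rfl, rfl, rfl⟩ := h1
    refine ⟨1, le_rfl, ?_⟩
    rw [g_one, S_one]
    norm_num
  rcases le_or_gt (2 * (2 * (m : ℝ) - 3) ^ r) ((2 * (m : ℝ) - 1) ^ r) with h | h
  · have hA := caseA (by linarith : 0 < r) h2 h J hJ (by omega)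
    refine ⟨m, by omega, ?_⟩
    have e : 2 * (m : ℝ) + 1 - 2 * J = 2 * k - 1 := by rw [em]; ring
    rw [e] at hA
    refine hA.trans (le_of_eq ?_)
    have := S_pos (by omega : 1 ≤ m) r
    unfold g
    rw [div_mul_cancel₀ _ this.ne']
  · have hB := caseB h2 h
    obtain ⟨K, hK, hK2⟩ := exists_good hr
    refine ⟨K, hK, div_le_of hK ?_ hK2⟩
    rw [hm] at hB ⊢
    exact kappa_ratio hr hk hJ hB

/-- The ratio bound for all positive exponents. -/
theorem ratio_all {r : ℝ} (hr : 0 < r) {k m : ℕ} (hk : 1 ≤ k) (hkm : k ≤ m) :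
    ∃ K : ℕ, 1 ≤ K ∧ (2 * (k : ℝ) - 1) ^ r * ((m : ℝ) - k + 1) ≤ g K r * S m r := by
  rcases le_or_gt r 1 with h1 | h1
  · refine ⟨1, le_rfl, ?_⟩
    rw [g_one, one_mul]
    exact ratio_le_one hr h1 hk hkm
  · obtain ⟨J, hJ⟩ : ∃ J : ℕ, J = m - k + 1 := ⟨_, rfl⟩
    have e1 : k - 1 + J = m := by omega
    have e2 : (J : ℝ) = (m : ℝ) - k + 1 := by rw [hJ]; push_cast [Nat.cast_sub hkm]; ring
    rcases le_or_gt r 3 with h3 | h3
    · obtain ⟨K, hK, h⟩ := ratio_mid h1.le h3 hk (by omega : 1 ≤ J)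
      rw [e1, e2] at h
      exact ⟨K, hK, h⟩
    · obtain ⟨K, hK, h⟩ := ratio_high h3.le hk (by omega : 1 ≤ J)
      rw [e1, e2] at h
      exact ⟨K, hK, h⟩

end Pool.Agent.Q206.MH
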