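import Pool.Agent.Q206.MH.Chain

namespace Pool.Agent.Q206.MH

open scoped ENNReal

/-- Uniform distribution on `{-k,…,k}`. -/
noncomputable def unif (k : ℕ) (x : ℤ) : ℝ := if |x| ≤ k then 1 / (2 * (k : ℝ) + 1) else 0

/-- The two-point step distribution on `{-(2k-1), 2k-1}`. -/
noncomputable def two (k : ℕ) (z : ℤ) : ℝ :=
  if z = 2 * (k : ℤ) - 1 ∨ z = -(2 * (k : ℤ) - 1) then 1 / 2 else 0

lemma unif_of_le {k : ℕ} {x : ℤ} (h : |x| ≤ k) : unif k x = 1 / (2 * (k : ℝ) + 1) := if_pos h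

lemma hasSum_unif (k : ℕ) : HasSum (unif k) 1 := by
  have h : HasSum (unif k) (∑ x ∈ Finset.Icc (-(k : ℤ)) k, unif k x) :=
    hasSum_sum_of_ne_finset_zero (by
    intro x hx
    unfold unif
    rw [if_neg]
    intro h
    exact hx (Finset.mem_Icc.2 (abs_le.1 h)))
  have h2 : ∑ x ∈ Finset.Icc (-(k : ℤ)) k, unif k x = 1 := by
    rw [Finset.sum_congr rfl (fun x hx => unif_of_le (abs_le.2 (Finset.mem_Icc.1 hx))),
      Finset.sum_const, Int.card_Icc]
    have : ((k : ℤ) + 1 - -(k : ℤ)).toNat = 2 * k + 1 := by omega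
    rw [this, nsmul_eq_mul]
    push_cast
    field_simp
  rwa [h2] at h

lemma hasSum_two {k : ℕ} (hk : 1 ≤ k) : HasSum (two k) 1 := by
  have hne : (2 * (k : ℤ) - 1) ≠ -(2 * (k : ℤ) - 1) := by omega
  have h : HasSum (two k)
      (∑ x ∈ ({2 * (k : ℤ) - 1, -(2 * (k : ℤ) - 1)} : Finset ℤ), two k x) :=
    hasSum_sum_of_ne_finset_zero (by
    intro x hx
    unfold two
    rw [if_neg]
    intro h
    exact hx (by simpa using h))
  rw [Finset.sum_pair hne] at h
  have e : two k (2 * (k : ℤ) - 1) + two k (-(2 * (k : ℤ) - 1)) = 1 := by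
    unfold two
    rw [if_pos (Or.inl rfl), if_pos (Or.inr rfl)]
    norm_num
  rwa [e] at h

lemma admissible_unif {k : ℕ} (hk : 1 ≤ k) (r : ℝ) : Admissible r (unif k) (two k) where
  target_nonneg x := by unfold unif; split_ifs <;> positivity
  target_sum := hasSum_unif k
  target_symm x := by unfold unif; rw [abs_neg]
  target_unimodal x y h := by
    unfold unif
    split_ifs with h1 h2 h2
    · exact le_rfl
    · exact absurd (h.trans h1) h2
    · positivity
    · exact le_rfl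
  target_nondeg a := by
    unfold unif
    split_ifs with h
    · have : (1 : ℝ) ≤ k := by exact_mod_cast hk
      intro h2
      have h3 : (1 : ℝ) / (2 * (k : ℝ) + 1) < 1 := by
        rw [div_lt_one (by positivity)]; linarith
      linarith
    · norm_num
  target_moment := by
    refine summable_of_ne_finset_zero (s := Finset.Icc (-(k : ℤ)) k) ?_
    intro x hx
    unfold unif
    rw [if_neg, mul_zero]
    intro h
    exact hx (Finset.mem_Icc.2 (abs_le.1 h))
  step_nonneg z := by unfold two; split_ifs <;> positivity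
  step_sum := hasSum_two hk
  step_symm z := by
    unfold two
    have : (-z = 2 * (k : ℤ) - 1 ∨ -z = -(2 * (k : ℤ) - 1)) ↔
        (z = 2 * (k : ℤ) - 1 ∨ z = -(2 * (k : ℤ) - 1)) := by omega
    simp only [this]
  step_odd z hz := by
    unfold two
    rw [if_neg]
    obtain ⟨j, hj⟩ := hz
    omega

lemma moment_unif {k : ℕ} (hk : 1 ≤ k) {r : ℝ} (hr : 0 < r) :
    moment r (unif k) = ENNReal.ofReal (2 * S k r / (2 * (k : ℝ) + 1)) := by
  rw [moment_eq hr (admissible_unif hk r), tsum_eq_sum (s := Finset.range k)]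
  · rw [← ENNReal.ofReal_sum_of_nonneg]
    · rw [show (2 : ℝ≥0∞) = ENNReal.ofReal 2 by simp, ← ENNReal.ofReal_mul (by norm_num)]
      congr 1
      unfold S
      rw [mul_div_assoc, Finset.sum_div]
      congr 1
      refine Finset.sum_congr rfl fun i hi => ?_
      rw [unif_of_le]
      · ring
      · have := Finset.mem_range.1 hi
        rw [abs_of_nonneg (by positivity)]
        omega
    · intro i _
      exact mul_nonneg (by positivity) ((admissible_unif hk r).target_nonneg _)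
  · intro n hn
    unfold unif
    rw [if_neg]
    · simp
    · rw [abs_of_nonneg (by positivity)]
      have : ¬ n < k := fun h => hn (Finset.mem_range.2 h)
      omega

lemma overlap_unif {k : ℕ} (hk : 1 ≤ k) :
    ENNReal.ofReal (2 / (2 * (k : ℝ) + 1)) ≤
      ∑' x : ℤ, ENNReal.ofReal (min (unif k x) (unif k (x + (2 * (k : ℤ) - 1)))) := by
  have hne : (-(k : ℤ)) ≠ -(k : ℤ) + 1 := by omega
  refine le_trans (le_of_eq ?_) (ENNReal.sum_le_tsum {-(k : ℤ), -(k : ℤ) + 1})
  rw [Finset.sum_pair hne]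
  have h1 : unif k (-(k : ℤ)) = 1 / (2 * (k : ℝ) + 1) := unif_of_le (by rw [abs_neg]; simp)
  have h2 : unif k (-(k : ℤ) + (2 * (k : ℤ) - 1)) = 1 / (2 * (k : ℝ) + 1) :=
    unif_of_le (by rw [abs_le]; omega)
  have h3 : unif k (-(k : ℤ) + 1) = 1 / (2 * (k : ℝ) + 1) := unif_of_le (by rw [abs_le]; omega)
  have h4 : unif k (-(k : ℤ) + 1 + (2 * (k : ℤ) - 1)) = 1 / (2 * (k : ℝ) + 1) :=
    unif_of_le (by rw [abs_le]; omega)
  rw [h1, h2, h3, h4, min_self, ← ENNReal.ofReal_add (by positivity) (by positivity)]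
  congr 1
  ring

theorem g_le_s {k : ℕ} (hk : 1 ≤ k) {r : ℝ} (hr : 0 < r) : ENNReal.ofReal (g k r) ≤ s r := by
  have hA := admissible_unif hk r
  refine le_trans ?_ (le_iSup₂_of_le (unif k) (two k) (le_iSup_of_le hA le_rfl))
  have hk1 : (1 : ℝ) ≤ k := by exact_mod_cast hk
  have h0 : (0 : ℝ) < 2 * (k : ℝ) - 1 := by linarith
  have hS := S_pos hk r
  have hc : (0 : ℝ) < (2 * (k : ℝ) - 1) ^ r := by positivity
  have hJ : ENNReal.ofReal ((2 * (k : ℝ) - 1) ^ r * (2 / (2 * (k : ℝ) + 1))) ≤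
      jump r (unif k) (two k) := by
    rw [jump_eq hr hA]
    have hne : (2 * (k : ℤ) - 1) ≠ -(2 * (k : ℤ) - 1) := by omega
    refine le_trans ?_ (ENNReal.sum_le_tsum {2 * (k : ℤ) - 1, -(2 * (k : ℤ) - 1)})
    rw [Finset.sum_pair hne, overlap_neg hA]
    have e1 : two k (2 * (k : ℤ) - 1) = 1 / 2 := if_pos (Or.inl rfl)
    have e2 : two k (-(2 * (k : ℤ) - 1)) = 1 / 2 := if_pos (Or.inr rfl)
    have e3 : |((2 * (k : ℤ) - 1 : ℤ) : ℝ)| = 2 * (k : ℝ) - 1 := by
      push_cast; exact abs_of_nonneg h0.le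
    have e4 : |((-(2 * (k : ℤ) - 1) : ℤ) : ℝ)| = 2 * (k : ℝ) - 1 := by
      push_cast; rw [abs_neg]; exact abs_of_nonneg h0.le
    rw [e1, e2, e3, e4, ← add_mul, ← add_mul, ← ENNReal.ofReal_add (by norm_num) (by norm_num)]
    have e5 : (1 / 2 : ℝ) + 1 / 2 = 1 := by norm_num
    rw [e5, ENNReal.ofReal_one, one_mul, ENNReal.ofReal_mul hc.le]
    exact mul_le_mul_right (overlap_unif hk) _
  rw [moment_unif hk hr]
  refine le_trans ?_ (ENNReal.div_le_div_right hJ _)
  rw [← ENNReal.ofReal_div_of_pos (by positivity)]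
  refine ENNReal.ofReal_le_ofReal (le_of_eq ?_)
  unfold g
  field_simp

end Pool.Agent.Q206.MH
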