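import Pool.Agent.Q206.MH.Cross
import Pool.Agent.Q206.MH.Lower

namespace Pool.Agent.Q206.MH

open scoped ENNReal

/-- If `K` maximises `g(·;r)` then `s(r) = g(K;r)`. -/
theorem s_eq_of_max {r : ℝ} (hr : 0 < r) {K : ℕ} (hK : 1 ≤ K)
    (hmax : ∀ k : ℕ, 1 ≤ k → g k r ≤ g K r) : s r = ENNReal.ofReal (g K r) := by
  refine le_antisymm (s_le hr (g_pos hK r).le fun k m hk hkm => ?_) (g_le_s hK hr)
  obtain ⟨L, hL, h⟩ := ratio_all hr hk hkm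
  exact h.trans (mul_le_mul_of_nonneg_right (hmax L hL) (S_nonneg _ _))

/-- The maximum of `g(·;r)` is attained at some `k ≤ ⌈r⌉`. -/
theorem exists_max {r : ℝ} (hr : 0 < r) :
    ∃ K : ℕ, 1 ≤ K ∧ K ≤ ⌈r⌉₊ ∧ ∀ k : ℕ, 1 ≤ k → g k r ≤ g K r := by
  have h0 : 1 ≤ ⌈r⌉₊ := Nat.one_le_ceil_iff.2 hr
  obtain ⟨K, hK, hmax⟩ := Finset.exists_max_image (Finset.Icc 1 ⌈r⌉₊) (fun k => g k r)
    ⟨1, Finset.mem_Icc.2 ⟨le_rfl, h0⟩⟩
  rw [Finset.mem_Icc] at hK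
  refine ⟨K, hK.1, hK.2, fun k hk => ?_⟩
  rcases Nat.lt_or_ge k ⌈r⌉₊ with h | h
  · exact hmax k (Finset.mem_Icc.2 ⟨hk, h.le⟩)
  · have h1 : g k r ≤ g ⌈r⌉₊ r := by
      clear hk
      induction k, h using Nat.le_induction with
      | base => exact le_rfl
      | succ k hk ih =>
        refine (g_succ_le hr ?_).trans ih
        exact (Nat.le_ceil r).trans (by exact_mod_cast hk)
    exact h1.trans (hmax _ (Finset.mem_Icc.2 ⟨h0, le_rfl⟩))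

end Pool.Agent.Q206.MH
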