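import Pool.Agent.Q206.MH.Basic

namespace Pool.Agent.Q206.MH

open Real

lemma S_hölder {k : ℕ} (hk : 1 ≤ k) {a b x y : ℝ} (ha : 0 ≤ a) (hb : 0 ≤ b) (hab : a + b = 1) :
    S k (a * x + b * y) ≤ S k x ^ a * S k y ^ b := by
  have hx := S_pos hk x
  have hy := S_pos hk y
  have h1 : ∀ i ∈ Finset.range k, ((i : ℝ) + 1) ^ (a * x + b * y) ≤
      S k x ^ a * S k y ^ b * (a * (((i : ℝ) + 1) ^ x / S k x) + b * (((i : ℝ) + 1) ^ y / S k y)) := by
    intro i _
    have hi : (0 : ℝ) < (i : ℝ) + 1 := by positivity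
    have h := Real.geom_mean_le_arith_mean2_weighted ha hb
      (by positivity : 0 ≤ ((i : ℝ) + 1) ^ x / S k x) (by positivity : 0 ≤ ((i : ℝ) + 1) ^ y / S k y) hab
    have e : ((i : ℝ) + 1) ^ (a * x + b * y) = S k x ^ a * S k y ^ b *
        ((((i : ℝ) + 1) ^ x / S k x) ^ a * (((i : ℝ) + 1) ^ y / S k y) ^ b) := by
      rw [Real.div_rpow (by positivity) hx.le, Real.div_rpow (by positivity) hy.le,
        ← Real.rpow_mul hi.le, ← Real.rpow_mul hi.le, Real.rpow_add hi]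
      have := Real.rpow_pos_of_pos hx a
      have := Real.rpow_pos_of_pos hy b
      rw [mul_comm a x, mul_comm b y]
      field_simp
    rw [e]
    exact mul_le_mul_of_nonneg_left h (by positivity)
  have h2 := Finset.sum_le_sum h1
  rw [← Finset.mul_sum, Finset.sum_add_distrib, ← Finset.mul_sum, ← Finset.mul_sum,
    ← Finset.sum_div, ← Finset.sum_div] at h2
  have e1 : (∑ i ∈ Finset.range k, ((i : ℝ) + 1) ^ x) / S k x = 1 := div_self hx.ne'
  have e2 : (∑ i ∈ Finset.range k, ((i : ℝ) + 1) ^ y) / S k y = 1 := div_self hy.ne'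
  rw [e1, e2, mul_one, mul_one, hab, mul_one] at h2
  exact h2

lemma convexOn_log_S {k : ℕ} (hk : 1 ≤ k) : ConvexOn ℝ (Set.Ioi 0) fun r : ℝ => log (S k r) := by
  refine ⟨convex_Ioi 0, fun x _ y _ a b ha hb hab => ?_⟩
  have hx := S_pos hk x
  have hy := S_pos hk y
  simp only [smul_eq_mul]
  have h := Real.log_le_log (S_pos hk _) (S_hölder hk ha hb hab (x := x) (y := y))
  rwa [Real.log_mul (by positivity) (by positivity), Real.log_rpow hx, Real.log_rpow hy] at h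

lemma convexOn_rlog : ConvexOn ℝ (Set.Ioi 0) fun r : ℝ => r * log (r / (r + 1)) := by
  refine ⟨convex_Ioi 0, fun x hx y hy a b ha hb hab => ?_⟩
  simp only [Set.mem_Ioi] at hx hy
  simp only [smul_eq_mul]
  set z := a * x + b * y with hz
  have hz0 : 0 < z := by
    rcases ha.eq_or_lt with h | h
    · rw [hz, ← h, zero_mul, zero_add]
      have : b = 1 := by linarith
      rw [this, one_mul]; exact hy
    · have := mul_pos h hx
      have := mul_nonneg hb hy.le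
      linarith
  have key : ∀ w : ℝ, 0 < w → w * log (z / (z + 1)) + w - z * (w + 1) / (z + 1) ≤
      w * log (w / (w + 1)) := by
    intro w hw
    have h := Real.log_le_sub_one_of_pos (by positivity : 0 < z * (w + 1) / (w * (z + 1)))
    have e : log (z * (w + 1) / (w * (z + 1))) = log (z / (z + 1)) - log (w / (w + 1)) := by
      rw [← Real.log_div (by positivity) (by positivity)]
      congr 1
      field_simp
    rw [e] at h
    have h2 := mul_le_mul_of_nonneg_left h hw.le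
    have e2 : w * (z * (w + 1) / (w * (z + 1)) - 1) = z * (w + 1) / (z + 1) - w := by
      field_simp
    rw [e2] at h2
    linarith
  have h1 := mul_le_mul_of_nonneg_left (key x hx) ha
  have h2 := mul_le_mul_of_nonneg_left (key y hy) hb
  have e3 : a * (x * log (z / (z + 1)) + x - z * (x + 1) / (z + 1)) +
      b * (y * log (z / (z + 1)) + y - z * (y + 1) / (z + 1)) =
      z * log (z / (z + 1)) + (z - z * (z + (a + b)) / (z + 1)) := by
    rw [hz]; field_simp; ring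
  rw [hab] at e3
  have e4 : z - z * (z + 1) / (z + 1) = 0 := by field_simp; ring
  rw [e4, add_zero] at e3
  linarith

lemma convexOn_lin (α β : ℝ) : ConvexOn ℝ (Set.Ioi 0) fun r : ℝ => α + r * β := by
  refine ⟨convex_Ioi 0, fun x _ y _ a b ha hb hab => le_of_eq ?_⟩
  simp only [smul_eq_mul]
  have : α = (a + b) * α := by rw [hab, one_mul]
  calc α + (a * x + b * y) * β = (a + b) * α + (a * x + b * y) * β := by rw [hab, one_mul]
    _ = _ := by ring

/-- Checking at the end points suffices. -/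
theorem tile {k : ℕ} (hk : 1 ≤ k) {r₁ r₂ r c₁ c₂ : ℝ} (h0 : 0 < r₁) (hc₁ : 0 < c₁) (hc₂ : 0 < c₂)
    (h1 : (2 * r₁ / (r₁ + 1)) ^ r₁ * c₁ * c₂ ^ r₁ * S k r₁ ≤ (2 * (k : ℝ) - 1) ^ r₁)
    (h2 : (2 * r₂ / (r₂ + 1)) ^ r₂ * c₁ * c₂ ^ r₂ * S k r₂ ≤ (2 * (k : ℝ) - 1) ^ r₂)
    (hr1 : r₁ ≤ r) (hr2 : r ≤ r₂) :
    (2 * r / (r + 1)) ^ r * c₁ * c₂ ^ r * S k r ≤ (2 * (k : ℝ) - 1) ^ r := by
  have hk1 : (1 : ℝ) ≤ k := by exact_mod_cast hk
  have hk0 : (0 : ℝ) < 2 * k - 1 := by linarith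
  have hconv : ConvexOn ℝ (Set.Ioi 0) fun r : ℝ => r * log (r / (r + 1)) + log (S k r) +
      (log c₁ + r * (log 2 + log c₂ - log (2 * (k : ℝ) - 1))) :=
    (convexOn_rlog.add (convexOn_log_S hk)).add (convexOn_lin _ _)
  have hiff : ∀ r : ℝ, 0 < r → ((2 * r / (r + 1)) ^ r * c₁ * c₂ ^ r * S k r ≤ (2 * (k : ℝ) - 1) ^ r ↔
      r * log (r / (r + 1)) + log (S k r) +
      (log c₁ + r * (log 2 + log c₂ - log (2 * (k : ℝ) - 1))) ≤ 0) := by
    intro r hr
    have hS := S_pos hk r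
    rw [← Real.log_le_log_iff (by positivity) (by positivity), Real.log_mul (by positivity) hS.ne',
      Real.log_mul (by positivity) (by positivity), Real.log_mul (by positivity) hc₁.ne',
      Real.log_rpow (by positivity), Real.log_rpow hc₂, Real.log_rpow hk0, mul_div_assoc,
      Real.log_mul (by norm_num) (by positivity)]
    constructor <;> intro h <;> nlinarith
  have hr0 : 0 < r := by linarith
  rw [hiff r hr0]
  have h3 := hconv.le_max_of_mem_Icc (Set.mem_Ioi.2 h0) (Set.mem_Ioi.2 (by linarith : 0 < r₂))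
    ⟨hr1, hr2⟩
  exact h3.trans (max_le ((hiff r₁ h0).1 h1) ((hiff r₂ (by linarith)).1 h2))

/-- The same without the factor `(2r/(r+1))^r`. -/
theorem tile0 {k : ℕ} (hk : 1 ≤ k) {r₁ r₂ r c₁ c₂ : ℝ} (h0 : 0 < r₁) (hc₁ : 0 < c₁) (hc₂ : 0 < c₂)
    (h1 : c₁ * c₂ ^ r₁ * S k r₁ ≤ (2 * (k : ℝ) - 1) ^ r₁)
    (h2 : c₁ * c₂ ^ r₂ * S k r₂ ≤ (2 * (k : ℝ) - 1) ^ r₂)
    (hr1 : r₁ ≤ r) (hr2 : r ≤ r₂) :
    c₁ * c₂ ^ r * S k r ≤ (2 * (k : ℝ) - 1) ^ r := by
  have hk1 : (1 : ℝ) ≤ k := by exact_mod_cast hk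
  have hk0 : (0 : ℝ) < 2 * k - 1 := by linarith
  have hconv : ConvexOn ℝ (Set.Ioi 0) fun r : ℝ => log (S k r) +
      (log c₁ + r * (log c₂ - log (2 * (k : ℝ) - 1))) :=
    (convexOn_log_S hk).add (convexOn_lin _ _)
  have hiff : ∀ r : ℝ, 0 < r → (c₁ * c₂ ^ r * S k r ≤ (2 * (k : ℝ) - 1) ^ r ↔
      log (S k r) + (log c₁ + r * (log c₂ - log (2 * (k : ℝ) - 1))) ≤ 0) := by
    intro r hr
    have hS := S_pos hk r
    rw [← Real.log_le_log_iff (by positivity) (by positivity), Real.log_mul (by positivity) hS.ne',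
      Real.log_mul (by positivity) (by positivity),
      Real.log_rpow hc₂, Real.log_rpow hk0]
    constructor <;> intro h <;> nlinarith
  have hr0 : 0 < r := by linarith
  rw [hiff r hr0]
  have h3 := hconv.le_max_of_mem_Icc (Set.mem_Ioi.2 h0) (Set.mem_Ioi.2 (by linarith : 0 < r₂))
    ⟨hr1, hr2⟩
  exact h3.trans (max_le ((hiff r₁ h0).1 h1) ((hiff r₂ (by linarith)).1 h2))

end Pool.Agent.Q206.MH
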