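import Pool.Agent.Q206.MH.PowerSum
import Pool.Agent.Q206.MH.Tile

namespace Pool.Agent.Q206.MH

open Real

lemma rpow_le_of_pow {x q : ℝ} (hx : 0 ≤ x) (hq : 0 ≤ q) (a b : ℕ) (hb : 0 < b)
    (h : x ^ a ≤ q ^ b) {y : ℝ} (hy : y = (a : ℝ) / b) : x ^ y ≤ q := by
  have hb' : (0 : ℝ) < b := by exact_mod_cast hb
  have h1 : (x ^ y) ^ b ≤ q ^ b := by
    rw [hy, ← Real.rpow_natCast (x ^ ((a : ℝ) / b)) b, ← Real.rpow_mul hx,
      div_mul_cancel₀ _ hb'.ne', Real.rpow_natCast]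
    exact h
  exact (pow_le_pow_iff_left₀ (by positivity) hq hb.ne').1 h1

lemma le_rpow_of_pow {x q : ℝ} (hx : 0 ≤ x) (hq : 0 ≤ q) (a b : ℕ) (hb : 0 < b)
    (h : q ^ b ≤ x ^ a) {y : ℝ} (hy : y = (a : ℝ) / b) : q ≤ x ^ y := by
  have hb' : (0 : ℝ) < b := by exact_mod_cast hb
  have h1 : q ^ b ≤ (x ^ y) ^ b := by
    rw [hy, ← Real.rpow_natCast (x ^ ((a : ℝ) / b)) b, ← Real.rpow_mul hx,
      div_mul_cancel₀ _ hb'.ne', Real.rpow_natCast]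
    exact h
  exact (pow_le_pow_iff_left₀ hq (by positivity) hb.ne').1 h1

lemma S_two' (r : ℝ) : S 2 r = 1 + 2 ^ r := by
  unfold S; rw [Finset.sum_range_succ, Finset.sum_range_succ, Finset.sum_range_zero]; norm_num

lemma S_three' (r : ℝ) : S 3 r = 1 + 2 ^ r + 3 ^ r := by
  rw [show (3 : ℕ) = 2 + 1 from rfl, S_succ, S_two']; norm_num

lemma div_le_of {r c x : ℝ} {K m : ℕ} (hK : 1 ≤ K) (h1 : x ≤ c * S m r)
    (h2 : c * S K r ≤ (2 * (K : ℝ) - 1) ^ r) : x ≤ g K r * S m r := by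
  have hS := S_pos hK r
  have : c ≤ g K r := by unfold g; rwa [le_div_iff₀ hS]
  exact h1.trans (mul_le_mul_of_nonneg_right this (S_nonneg _ _))

/-- the product bound gives the ratio bound for `m ≥ 7` -/
lemma prod_ratio {r : ℝ} (h1 : 1 ≤ r) (h3 : r ≤ 3) {k J : ℕ} (hk : 1 ≤ k) (hJ : 1 ≤ J)
    (hm : 7 ≤ k - 1 + J) :
    (2 * (k : ℝ) - 1) ^ r * J ≤
      ((2 * r / (r + 1)) ^ r * (3132 / 3125) * (3132 / 3125) ^ r) * S (k - 1 + J) r := by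
  set m := k - 1 + J with hmdef
  have hk1 : (1 : ℝ) ≤ k := by exact_mod_cast hk
  have hJ1 : (1 : ℝ) ≤ J := by exact_mod_cast hJ
  have hm7 : (7 : ℝ) ≤ m := by exact_mod_cast hm
  have em : (m : ℝ) = k - 1 + J := by rw [hmdef]; push_cast [Nat.cast_sub hk]; ring
  have hfc := fc_bound (r := r) (J := J) (N := 2 * (k : ℝ) - 1) (M := (m : ℝ) + 1 / 2)
    (by linarith) (by linarith) (by linarith) (by rw [em]; ring)
  have hS := S_prod h1 h3 m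
  have hr0 : 0 < r + 1 := by linarith
  have e1 : ((m : ℝ) + 1 / 2) ^ (r + 1) = (((m : ℝ) + 1 / 2) ^ (2 : ℝ)) ^ ((r + 1) / 2) := by
    rw [← Real.rpow_mul (by positivity)]; congr 1; ring
  have h4 : ((m : ℝ) + 1 / 2) ^ (r + 1) ≤
      (3132 / 3125 : ℝ) ^ (r + 1) * ((m : ℝ) * (m + 1)) ^ ((r + 1) / 2) := by
    have e2 : (3132 / 3125 : ℝ) ^ (r + 1) = ((3132 / 3125 : ℝ) ^ (2 : ℝ)) ^ ((r + 1) / 2) := by
      rw [← Real.rpow_mul (by positivity)]; congr 1; ring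
    rw [e1, e2, ← Real.mul_rpow (by positivity) (by positivity)]
    refine Real.rpow_le_rpow (by positivity) ?_ (by positivity)
    rw [Real.rpow_two, Real.rpow_two]
    nlinarith
  refine hfc.trans ?_
  have e5 : (3132 / 3125 : ℝ) ^ (r + 1) = (3132 / 3125 : ℝ) ^ r * (3132 / 3125) :=
    Real.rpow_add_one (by norm_num) r
  rw [e5] at h4
  have h6 : ((m : ℝ) + 1 / 2) ^ (r + 1) / (r + 1) ≤
      (3132 / 3125 : ℝ) ^ r * (3132 / 3125) * S m r := by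
    rw [div_le_iff₀ hr0]
    refine h4.trans ?_
    have := mul_le_mul_of_nonneg_left hS
      (by positivity : (0 : ℝ) ≤ (3132 / 3125 : ℝ) ^ r * (3132 / 3125))
    linarith
  have h7 := mul_le_mul_of_nonneg_left h6 (by positivity : (0 : ℝ) ≤ (2 * r / (r + 1)) ^ r)
  linarith

section Numerics

lemma nA : (82 / 61 : ℝ) ^ (41 / 20 : ℝ) ≤ 1833971 / 1000000 :=
  rpow_le_of_pow (by norm_num) (by norm_num) 41 20 (by norm_num) (by norm_num) (by norm_num)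
lemma nC : (3132 / 3125 : ℝ) ^ (41 / 20 : ℝ) ≤ 502299 / 500000 :=
  rpow_le_of_pow (by norm_num) (by norm_num) 41 20 (by norm_num) (by norm_num) (by norm_num)
lemma nP2 : (2 : ℝ) ^ (41 / 20 : ℝ) ≤ 207053 / 50000 :=
  rpow_le_of_pow (by norm_num) (by norm_num) 41 20 (by norm_num) (by norm_num) (by norm_num)
lemma nP3 : (3 : ℝ) ^ (41 / 20 : ℝ) ≤ 4754103 / 500000 :=
  rpow_le_of_pow (by norm_num) (by norm_num) 41 20 (by norm_num) (by norm_num) (by norm_num)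
lemma nL3 : (1901641 / 200000 : ℝ) ≤ (3 : ℝ) ^ (41 / 20 : ℝ) :=
  le_rpow_of_pow (by norm_num) (by norm_num) 41 20 (by norm_num) (by norm_num) (by norm_num)
lemma nL5 : (27094959 / 1000000 : ℝ) ≤ (5 : ℝ) ^ (41 / 20 : ℝ) :=
  le_rpow_of_pow (by norm_num) (by norm_num) 41 20 (by norm_num) (by norm_num) (by norm_num)

lemma T1 : (2 * (3 / 2 : ℝ) / (3 / 2 + 1)) ^ (3 / 2 : ℝ) * (3132 / 3125) *
    (3132 / 3125) ^ (3 / 2 : ℝ) * S 2 (3 / 2) ≤ (2 * ((2 : ℕ) : ℝ) - 1) ^ (3 / 2 : ℝ) := by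
  have a1 : (6 / 5 : ℝ) ^ (3 / 2 : ℝ) ≤ 1.3146 :=
    rpow_le_of_pow (by norm_num) (by norm_num) 3 2 (by norm_num) (by norm_num) (by norm_num)
  have a2 : (3132 / 3125 : ℝ) ^ (3 / 2 : ℝ) ≤ 1.0034 :=
    rpow_le_of_pow (by norm_num) (by norm_num) 3 2 (by norm_num) (by norm_num) (by norm_num)
  have a3 : (2 : ℝ) ^ (3 / 2 : ℝ) ≤ 2.8285 :=
    rpow_le_of_pow (by norm_num) (by norm_num) 3 2 (by norm_num) (by norm_num) (by norm_num)
  have a4 : (5.196 : ℝ) ≤ (3 : ℝ) ^ (3 / 2 : ℝ) :=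
    le_rpow_of_pow (by norm_num) (by norm_num) 3 2 (by norm_num) (by norm_num) (by norm_num)
  rw [S_two', show (2 * (3 / 2 : ℝ) / (3 / 2 + 1)) = 6 / 5 by norm_num,
    show (2 * ((2 : ℕ) : ℝ) - 1) = 3 by norm_num]
  refine le_trans ?_ a4
  calc (6 / 5 : ℝ) ^ (3 / 2 : ℝ) * (3132 / 3125) * (3132 / 3125) ^ (3 / 2 : ℝ) * (1 + 2 ^ (3 / 2 : ℝ))
      ≤ 1.3146 * (3132 / 3125) * 1.0034 * (1 + 2.8285) := by gcongr
    _ ≤ 5.196 := by norm_num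

lemma T2 : (2 * (41 / 20 : ℝ) / (41 / 20 + 1)) ^ (41 / 20 : ℝ) * (3132 / 3125) *
    (3132 / 3125) ^ (41 / 20 : ℝ) * S 2 (41 / 20) ≤ (2 * ((2 : ℕ) : ℝ) - 1) ^ (41 / 20 : ℝ) := by
  rw [S_two', show (2 * (41 / 20 : ℝ) / (41 / 20 + 1)) = 82 / 61 by norm_num,
    show (2 * ((2 : ℕ) : ℝ) - 1) = 3 by norm_num]
  have a1 := nA
  have a2 := nC
  have a3 := nP2
  refine le_trans ?_ nL3
  calc (82 / 61 : ℝ) ^ (41 / 20 : ℝ) * (3132 / 3125) * (3132 / 3125) ^ (41 / 20 : ℝ) *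
        (1 + 2 ^ (41 / 20 : ℝ))
      ≤ (1833971 / 1000000) * (3132 / 3125) * (502299 / 500000) * (1 + 207053 / 50000) := by gcongr
    _ ≤ 1901641 / 200000 := by norm_num

lemma T3 : (2 * (41 / 20 : ℝ) / (41 / 20 + 1)) ^ (41 / 20 : ℝ) * (3132 / 3125) *
    (3132 / 3125) ^ (41 / 20 : ℝ) * S 3 (41 / 20) ≤ (2 * ((3 : ℕ) : ℝ) - 1) ^ (41 / 20 : ℝ) := by
  rw [S_three', show (2 * (41 / 20 : ℝ) / (41 / 20 + 1)) = 82 / 61 by norm_num,
    show (2 * ((3 : ℕ) : ℝ) - 1) = 5 by norm_num]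
  have a1 := nA
  have a2 := nC
  have a3 := nP2
  have a4 := nP3
  refine le_trans ?_ nL5
  calc (82 / 61 : ℝ) ^ (41 / 20 : ℝ) * (3132 / 3125) * (3132 / 3125) ^ (41 / 20 : ℝ) *
        (1 + 2 ^ (41 / 20 : ℝ) + 3 ^ (41 / 20 : ℝ))
      ≤ (1833971 / 1000000) * (3132 / 3125) * (502299 / 500000) *
        (1 + 207053 / 50000 + 4754103 / 500000) := by gcongr
    _ ≤ 27094959 / 1000000 := by norm_num

lemma T4 : (2 * (3 : ℝ) / (3 + 1)) ^ (3 : ℝ) * (3132 / 3125) *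
    (3132 / 3125) ^ (3 : ℝ) * S 3 3 ≤ (2 * ((3 : ℕ) : ℝ) - 1) ^ (3 : ℝ) := by
  rw [S_three']
  have e : (3 : ℝ) = ((3 : ℕ) : ℝ) := by norm_num
  simp only [show ∀ x : ℝ, x ^ (3 : ℝ) = x ^ (3 : ℕ) from fun x => by
    rw [← Real.rpow_natCast]; norm_num]
  norm_num

/-- the linear factor is dominated by an exponential -/
lemma T5 {r : ℝ} (h1 : 1 ≤ r) (h2 : r ≤ 3 / 2) :
    (9 / 10 * (3132 / 3125) * exp (-5 / 9)) * ((6 / 5) * (3132 / 3125) * exp (4 / 9)) ^ r * S 2 r ≤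
      (2 * ((2 : ℕ) : ℝ) - 1) ^ r := by
  refine tile0 (by norm_num) (by norm_num : (0 : ℝ) < 1) (by positivity) (by positivity) ?_ ?_ h1 h2
  · rw [Real.rpow_one, Real.rpow_one, S_two', Real.rpow_one]
    have e : exp (-5 / 9) * exp (4 / 9) = exp (-1 / 9) := by rw [← Real.exp_add]; norm_num
    have h : exp (-1 / 9 : ℝ) ≤ 9 / 10 := by
      have h3 : (1 : ℝ) + 1 / 9 ≤ exp (1 / 9) := by linarith [Real.add_one_le_exp (1 / 9 : ℝ)]
      rw [show (-1 / 9 : ℝ) = -(1 / 9) by norm_num, Real.exp_neg]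
      rw [inv_le_comm₀ (by positivity) (by norm_num)]
      linarith
    have e2 : (9 / 10 * (3132 / 3125) * exp (-5 / 9)) * ((6 / 5) * (3132 / 3125) * exp (4 / 9)) *
        (1 + 2) = (9 / 10 * (3132 / 3125) * ((6 / 5) * (3132 / 3125)) * 3) * exp (-1 / 9) := by
      rw [← e]; ring
    rw [e2]
    calc (9 / 10 * (3132 / 3125) * ((6 / 5) * (3132 / 3125)) * 3 : ℝ) * exp (-1 / 9)
        ≤ (9 / 10 * (3132 / 3125) * ((6 / 5) * (3132 / 3125)) * 3) * (9 / 10) := by gcongr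
      _ ≤ _ := by norm_num
  · rw [S_two', Real.mul_rpow (by positivity) (by positivity), ← Real.exp_mul,
      Real.mul_rpow (by positivity) (by positivity), show (2 * ((2 : ℕ) : ℝ) - 1) = 3 by norm_num]
    have a1 : (6 / 5 : ℝ) ^ (3 / 2 : ℝ) ≤ 1.3146 :=
      rpow_le_of_pow (by norm_num) (by norm_num) 3 2 (by norm_num) (by norm_num) (by norm_num)
    have a2 : (3132 / 3125 : ℝ) ^ (3 / 2 : ℝ) ≤ 1.0034 :=
      rpow_le_of_pow (by norm_num) (by norm_num) 3 2 (by norm_num) (by norm_num) (by norm_num)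
    have a3 : (2 : ℝ) ^ (3 / 2 : ℝ) ≤ 2.8285 :=
      rpow_le_of_pow (by norm_num) (by norm_num) 3 2 (by norm_num) (by norm_num) (by norm_num)
    have a4 : (5.196 : ℝ) ≤ (3 : ℝ) ^ (3 / 2 : ℝ) :=
      le_rpow_of_pow (by norm_num) (by norm_num) 3 2 (by norm_num) (by norm_num) (by norm_num)
    have e : exp (-5 / 9) * exp (4 / 9 * (3 / 2)) = exp (1 / 9) := by rw [← Real.exp_add]; norm_num
    have h : exp (1 / 9 : ℝ) ≤ 9 / 8 := by
      have h3 : (1 : ℝ) - 1 / 9 ≤ exp (-(1 / 9)) := by linarith [Real.add_one_le_exp (-(1 / 9) : ℝ)]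
      rw [Real.exp_neg, le_inv_comm₀ (by norm_num) (by positivity)] at h3
      refine h3.trans (by norm_num)
    refine le_trans ?_ a4
    calc 9 / 10 * (3132 / 3125) * exp (-5 / 9) *
          ((6 / 5 : ℝ) ^ (3 / 2 : ℝ) * (3132 / 3125) ^ (3 / 2 : ℝ) * exp (4 / 9 * (3 / 2))) *
          (1 + 2 ^ (3 / 2 : ℝ)) = 9 / 10 * (3132 / 3125) * exp (1 / 9) *
          ((6 / 5 : ℝ) ^ (3 / 2 : ℝ) * (3132 / 3125) ^ (3 / 2 : ℝ)) * (1 + 2 ^ (3 / 2 : ℝ)) := by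
            rw [← e]; ring
      _ ≤ 9 / 10 * (3132 / 3125) * (9 / 8) * (1.3146 * 1.0034) * (1 + 2.8285) := by gcongr
      _ ≤ 5.196 := by norm_num

end Numerics

/-- The case `r ∈ [1,3/2]`, `m ≥ 7`. -/
lemma ratio_first {r : ℝ} (h1 : 1 ≤ r) (h2 : r ≤ 3 / 2) {k J : ℕ} (hk : 1 ≤ k) (hJ : 1 ≤ J)
    (hm : 7 ≤ k - 1 + J) (hJN : 3 * J < 2 * k - 1) :
    (2 * (k : ℝ) - 1) ^ r * J ≤ g 2 r * S (k - 1 + J) r := by
  refine div_le_of (c := (9 / 10 * (3132 / 3125) * exp (-5 / 9)) *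
    ((6 / 5) * (3132 / 3125) * exp (4 / 9)) ^ r) (by norm_num) ?_ (T5 h1 h2)
  set m := k - 1 + J with hmdef
  have hk1 : (1 : ℝ) ≤ k := by exact_mod_cast hk
  have hJ1 : (1 : ℝ) ≤ J := by exact_mod_cast hJ
  have hm7 : (7 : ℝ) ≤ m := by exact_mod_cast hm
  have em : (m : ℝ) = k - 1 + J := by rw [hmdef]; push_cast [Nat.cast_sub hk]; ring
  have hJN' : 3 * (J : ℝ) ≤ 2 * (k : ℝ) - 1 := by
    have h2 : 3 * J + 1 ≤ 2 * k := by omega
    have : ((3 * J + 1 : ℕ) : ℝ) ≤ ((2 * k : ℕ) : ℝ) := by exact_mod_cast h2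
    push_cast at this
    linarith
  set N : ℝ := 2 * (k : ℝ) - 1 with hN
  set M : ℝ := (m : ℝ) + 1 / 2 with hM
  have hN0 : 0 < N := by linarith
  have hM0 : 0 < M := by positivity
  have hMN : 2 * M = 2 * J + N := by rw [hM, em, hN]; ring
  have hfc := fc_bound (r := 3 / 2) (J := J) (N := N) (M := M) (by norm_num) (by linarith) hN0 hMN
  rw [show (2 * (3 / 2 : ℝ) / (3 / 2 + 1)) = 6 / 5 by norm_num,
    show (3 / 2 + 1 : ℝ) = 5 / 2 by norm_num] at hfc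
  have hNM : 6 / 5 * M ≤ N := by linarith
  have hb : N ^ (r - 3 / 2) ≤ (6 / 5 * M) ^ (r - 3 / 2) :=
    Real.rpow_le_rpow_of_nonpos (by positivity) hNM (by linarith)
  have e1 : N ^ r = N ^ (3 / 2 : ℝ) * N ^ (r - 3 / 2) := by
    rw [← Real.rpow_add hN0]; congr 1; ring
  have h5 : N ^ r * J ≤ 2 / 5 * (6 / 5) ^ r * M ^ (r + 1) := by
    rw [e1]
    calc N ^ (3 / 2 : ℝ) * N ^ (r - 3 / 2) * J = (N ^ (3 / 2 : ℝ) * J) * N ^ (r - 3 / 2) := by ring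
      _ ≤ ((6 / 5 : ℝ) ^ (3 / 2 : ℝ) * (M ^ (5 / 2 : ℝ) / (5 / 2))) * (6 / 5 * M) ^ (r - 3 / 2) := by
          gcongr
      _ = 2 / 5 * ((6 / 5 : ℝ) ^ (3 / 2 : ℝ) * (6 / 5 : ℝ) ^ (r - 3 / 2)) *
          (M ^ (5 / 2 : ℝ) * M ^ (r - 3 / 2)) := by
          rw [Real.mul_rpow (by norm_num) hM0.le]; ring
      _ = 2 / 5 * (6 / 5) ^ r * M ^ (r + 1) := by
          rw [← Real.rpow_add (by norm_num), ← Real.rpow_add hM0]
          congr 2 <;> ring_nf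
  have hS := S_prod h1 (by linarith) m
  have e6 : M ^ (r + 1) = (M ^ (2 : ℝ)) ^ ((r + 1) / 2) := by
    rw [← Real.rpow_mul (by positivity)]; congr 1; ring
  have h4 : M ^ (r + 1) ≤ (3132 / 3125 : ℝ) ^ (r + 1) * ((m : ℝ) * (m + 1)) ^ ((r + 1) / 2) := by
    have e2 : (3132 / 3125 : ℝ) ^ (r + 1) = ((3132 / 3125 : ℝ) ^ (2 : ℝ)) ^ ((r + 1) / 2) := by
      rw [← Real.rpow_mul (by positivity)]; congr 1; ring
    rw [e6, e2, ← Real.mul_rpow (by positivity) (by positivity)]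
    refine Real.rpow_le_rpow (by positivity) ?_ (by positivity)
    rw [Real.rpow_two, Real.rpow_two, hM]
    nlinarith
  have e5 : (3132 / 3125 : ℝ) ^ (r + 1) = (3132 / 3125 : ℝ) ^ r * (3132 / 3125) :=
    Real.rpow_add_one (by norm_num) r
  rw [e5] at h4
  have h8 : M ^ (r + 1) ≤ (3132 / 3125 : ℝ) ^ r * (3132 / 3125) * ((r + 1) * S m r) :=
    h4.trans (mul_le_mul_of_nonneg_left hS (by positivity))
  have h9 : r + 1 ≤ 9 / 4 * (exp (-5 / 9) * exp (4 / 9) ^ r) := by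
    rw [← Real.exp_mul, ← Real.exp_add]
    have := Real.add_one_le_exp (-5 / 9 + 4 / 9 * r)
    linarith
  have hSn := S_nonneg m r
  calc N ^ r * J ≤ 2 / 5 * (6 / 5) ^ r * M ^ (r + 1) := h5
    _ ≤ 2 / 5 * (6 / 5) ^ r * ((3132 / 3125 : ℝ) ^ r * (3132 / 3125) *
        ((9 / 4 * (exp (-5 / 9) * exp (4 / 9) ^ r)) * S m r)) := by
        refine mul_le_mul_of_nonneg_left (h8.trans ?_) (by positivity)
        gcongr
    _ = _ := by
        rw [Real.mul_rpow (by positivity) (by positivity),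
          Real.mul_rpow (by positivity) (by positivity)]
        ring

end Pool.Agent.Q206.MH
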