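import Pool.Agent.Q206.MH.Basic

namespace Pool.Agent.Q206.MH

/-- The continuous maximum of `J N^r` under `2J + N = 2M`. -/
theorem fc_bound {r J N M : ℝ} (hr : 0 < r) (hJ : 0 < J) (hN : 0 < N) (hM : 2 * M = 2 * J + N) :
    N ^ r * J ≤ (2 * r / (r + 1)) ^ r * (M ^ (r + 1) / (r + 1)) := by
  have hM0 : 0 < M := by linarith
  have h := Real.geom_mean_le_arith_mean2_weighted (w₁ := 1 / (r + 1)) (w₂ := r / (r + 1))
    (p₁ := 2 * J) (p₂ := N / r) (by positivity) (by positivity) (by positivity) (by positivity)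
    (by field_simp; ring)
  have e1 : 1 / (r + 1) * (2 * J) + r / (r + 1) * (N / r) = 2 * M / (r + 1) := by
    field_simp; linarith
  rw [e1] at h
  have h2 := Real.rpow_le_rpow (by positivity) h (by linarith : (0 : ℝ) ≤ r + 1)
  rw [Real.mul_rpow (by positivity) (by positivity), ← Real.rpow_mul (by positivity),
    ← Real.rpow_mul (by positivity)] at h2
  have e2 : 1 / (r + 1) * (r + 1) = 1 := by field_simp
  have e3 : r / (r + 1) * (r + 1) = r := by field_simp
  rw [e2, e3, Real.rpow_one, Real.div_rpow hN.le hr.le,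
    Real.div_rpow (by positivity) (by positivity), Real.mul_rpow (by norm_num) hM0.le,
    Real.rpow_add_one (by norm_num : (2 : ℝ) ≠ 0),
    Real.rpow_add_one (by positivity : (r + 1 : ℝ) ≠ 0)] at h2
  rw [Real.div_rpow (by positivity) (by positivity), Real.mul_rpow (by norm_num) hr.le]
  have h3 : (0 : ℝ) < r ^ r := by positivity
  calc N ^ r * J = (2 * J * (N ^ r / r ^ r)) * (r ^ r / 2) := by field_simp
    _ ≤ (2 ^ r * 2 * M ^ (r + 1) / ((r + 1) ^ r * (r + 1))) * (r ^ r / 2) :=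
        mul_le_mul_of_nonneg_right h2 (by positivity)
    _ = _ := by field_simp

/-! ## The product bound for exponents in `[1,3]` -/

lemma odd_diff_le {p : ℝ} (h1 : 1 ≤ p) (h2 : p ≤ 2) {x : ℝ} (hx0 : 0 ≤ x) (hx1 : x ≤ 1) :
    (1 + x) ^ p - (1 - x) ^ p ≤ 2 * p * x := by
  have hmono : MonotoneOn (fun x : ℝ => 2 * p * x - ((1 + x) ^ p - (1 - x) ^ p))
      (Set.Icc 0 1) := by
    have hd : ∀ x : ℝ, HasDerivAt (fun x : ℝ => 2 * p * x - ((1 + x) ^ p - (1 - x) ^ p))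
        (2 * p - (p * (1 + x) ^ (p - 1) + p * (1 - x) ^ (p - 1))) x := by
      intro x
      have a1 : HasDerivAt (fun x : ℝ => (1 + x) ^ p) (1 * p * (1 + x) ^ (p - 1)) x :=
        ((hasDerivAt_id x).const_add 1).rpow_const (Or.inr h1)
      have a2 : HasDerivAt (fun x : ℝ => (1 - x) ^ p) (-1 * p * (1 - x) ^ (p - 1)) x :=
        ((hasDerivAt_id x).const_sub 1).rpow_const (Or.inr h1)
      have a3 : HasDerivAt (fun x : ℝ => 2 * p * x) (2 * p * 1) x :=
        (hasDerivAt_id x).const_mul (2 * p)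
      refine (a3.sub (a1.sub a2)).congr_deriv ?_
      ring
    refine monotoneOn_of_deriv_nonneg (convex_Icc 0 1)
      (fun x _ => (hd x).continuousAt.continuousWithinAt)
      (fun x _ => (hd x).differentiableAt.differentiableWithinAt) ?_
    intro x hx
    rw [interior_Icc] at hx
    rw [(hd x).deriv]
    have hc0 : ConcaveOn ℝ (Set.Ici 0) fun x : ℝ => x ^ (p - 1) :=
      Real.concaveOn_rpow (by linarith) (by linarith)
    have m1 : (1 + x) ∈ Set.Ici (0 : ℝ) := by simp only [Set.mem_Ici]; linarith [hx.1]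
    have m2 : (1 - x) ∈ Set.Ici (0 : ℝ) := by simp only [Set.mem_Ici]; linarith [hx.2]
    have hc := hc0.2 m1 m2 (by norm_num : (0 : ℝ) ≤ 1 / 2) (by norm_num : (0 : ℝ) ≤ 1 / 2)
      (by norm_num)
    simp only [smul_eq_mul] at hc
    have e : (1 : ℝ) / 2 * (1 + x) + 1 / 2 * (1 - x) = 1 := by ring
    rw [e, Real.one_rpow] at hc
    nlinarith
  have := hmono (Set.left_mem_Icc.2 zero_le_one) ⟨hx0, hx1⟩ hx0
  simp only [mul_zero, add_zero, sub_zero, Real.one_rpow, sub_self] at this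
  linarith

theorem S_prod {r : ℝ} (h1 : 1 ≤ r) (h3 : r ≤ 3) (m : ℕ) :
    ((m : ℝ) * (m + 1)) ^ ((r + 1) / 2) ≤ (r + 1) * S m r := by
  induction m with
  | zero => simp [S_zero, Real.zero_rpow (by linarith : (r + 1) / 2 ≠ 0)]
  | succ m ih =>
    have hS : (r + 1) * S (m + 1) r = (r + 1) * S m r + (r + 1) * ((m : ℝ) + 1) ^ r := by
      rw [S_succ]; ring
    rw [hS]
    push_cast
    have hn : (0 : ℝ) < (m : ℝ) + 1 := by positivity
    have h := odd_diff_le (p := (r + 1) / 2) (by linarith) (by linarith)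
      (x := 1 / ((m : ℝ) + 1)) (by positivity) (by rw [div_le_one hn]; linarith [Nat.cast_nonneg (α := ℝ) m])
    have e1 : ((m : ℝ) + 1) * ((m : ℝ) + 1 + 1) = ((m : ℝ) + 1) ^ (2 : ℝ) * (1 + 1 / ((m : ℝ) + 1)) := by
      rw [Real.rpow_two]; field_simp
    have e2 : (m : ℝ) * (m + 1) = ((m : ℝ) + 1) ^ (2 : ℝ) * (1 - 1 / ((m : ℝ) + 1)) := by
      rw [Real.rpow_two]; field_simp; ring
    have hnn : (0 : ℝ) ≤ 1 - 1 / ((m : ℝ) + 1) := by
      rw [sub_nonneg, div_le_one hn]; linarith [Nat.cast_nonneg (α := ℝ) m]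
    rw [e2, Real.mul_rpow (by positivity) hnn, ← Real.rpow_mul hn.le,
      show 2 * ((r + 1) / 2) = r + 1 by ring] at ih
    rw [e1, Real.mul_rpow (by positivity) (by positivity), ← Real.rpow_mul hn.le,
      show 2 * ((r + 1) / 2) = r + 1 by ring]
    have e3 : ((m : ℝ) + 1) ^ (r + 1) = ((m : ℝ) + 1) ^ r * ((m : ℝ) + 1) :=
      Real.rpow_add_one hn.ne' r
    have h5 : (0 : ℝ) < ((m : ℝ) + 1) ^ r := by positivity
    have h6 : ((m : ℝ) + 1) ^ (r + 1) * ((1 + 1 / ((m : ℝ) + 1)) ^ ((r + 1) / 2) -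
        (1 - 1 / ((m : ℝ) + 1)) ^ ((r + 1) / 2)) ≤ (r + 1) * ((m : ℝ) + 1) ^ r := by
      refine (mul_le_mul_of_nonneg_left h (by positivity)).trans (le_of_eq ?_)
      rw [e3]; field_simp
    linarith

/-! ## The corrected bound for exponents at least three -/

section Kappa

variable {r : ℝ}

private lemma hasDeriv_add (q : ℝ) {u : ℝ} (hu : -1 < u) :
    HasDerivAt (fun u : ℝ => (1 + u) ^ q) (q * (1 + u) ^ (q - 1)) u := by
  have := ((hasDerivAt_id u).const_add 1).rpow_const (p := q)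
    (Or.inl (by simp only [id]; linarith))
  refine this.congr_deriv ?_
  simp

private lemma hasDeriv_sub (q : ℝ) {u : ℝ} (hu : u < 1) :
    HasDerivAt (fun u : ℝ => (1 - u) ^ q) (-(q * (1 - u) ^ (q - 1))) u := by
  have := ((hasDerivAt_id u).const_sub 1).rpow_const (p := q)
    (Or.inl (by simp only [id]; linarith))
  refine this.congr_deriv ?_
  simp

/-- `D(u) = (1+u)^{r-1} - (1-u)^{r-1}` -/
private noncomputable def D (r u : ℝ) : ℝ := (1 + u) ^ (r - 1) - (1 - u) ^ (r - 1)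
private noncomputable def D1 (r u : ℝ) : ℝ := (r - 1) * ((1 + u) ^ (r - 2) + (1 - u) ^ (r - 2))
private noncomputable def D2 (r u : ℝ) : ℝ :=
  (r - 1) * (r - 2) * ((1 + u) ^ (r - 3) - (1 - u) ^ (r - 3))

private lemma hD {u : ℝ} (h1 : -1 < u) (h2 : u < 1) : HasDerivAt (D r) (D1 r u) u := by
  refine ((hasDeriv_add (r - 1) h1).sub (hasDeriv_sub (r - 1) h2)).congr_deriv ?_
  unfold D1
  rw [show r - 1 - 1 = r - 2 by ring]
  ring

private lemma hD1 {u : ℝ} (h1 : -1 < u) (h2 : u < 1) : HasDerivAt (D1 r) (D2 r u) u := by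
  refine (((hasDeriv_add (r - 2) h1).add (hasDeriv_sub (r - 2) h2)).const_mul (r - 1)).congr_deriv ?_
  unfold D2
  rw [show r - 2 - 1 = r - 3 by ring]
  ring

private lemma D2_nonneg (hr : 3 ≤ r) {u : ℝ} (h1 : 0 ≤ u) (h2 : u < 1) : 0 ≤ D2 r u := by
  unfold D2
  refine mul_nonneg (mul_nonneg (by linarith) (by linarith)) (sub_nonneg.2 ?_)
  exact Real.rpow_le_rpow (by linarith) (by linarith) (by linarith)

private lemma mono_of (f f' : ℝ → ℝ) (hf : ∀ u, 0 ≤ u → u ≤ 1 / 2 → HasDerivAt f (f' u) u)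
    (h0 : 0 ≤ f 0) (hf' : ∀ u, 0 ≤ u → u ≤ 1 / 2 → 0 ≤ f' u) {u : ℝ} (hu0 : 0 ≤ u)
    (hu1 : u ≤ 1 / 2) : 0 ≤ f u := by
  have hmono : MonotoneOn f (Set.Icc 0 (1 / 2)) := by
    refine monotoneOn_of_deriv_nonneg (convex_Icc 0 (1 / 2))
      (fun x hx => (hf x hx.1 hx.2).continuousAt.continuousWithinAt)
      (fun x hx => ?_) (fun x hx => ?_)
    · rw [interior_Icc] at hx
      exact (hf x hx.1.le hx.2.le).differentiableAt.differentiableWithinAt
    · rw [interior_Icc] at hx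
      rw [(hf x hx.1.le hx.2.le).deriv]
      exact hf' x hx.1.le hx.2.le
  exact h0.trans (hmono (Set.left_mem_Icc.2 (by norm_num)) ⟨hu0, hu1⟩ hu0)

private lemma E_nonneg (hr : 3 ≤ r) {u : ℝ} (h1 : 0 ≤ u) (h2 : u ≤ 1 / 2) :
    0 ≤ u * D1 r u - D r u := by
  refine mono_of (fun u => u * D1 r u - D r u) (fun u => u * D2 r u) ?_ ?_ ?_ h1 h2
  · intro u h1 h2
    refine (((hasDerivAt_id u).mul (hD1 (r := r) (u := u) (by linarith) (by linarith))).sub
      (hD (r := r) (u := u) (by linarith) (by linarith))).congr_deriv ?_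
    simp only [id]
    ring
  · simp [D]
  · intro u h1 h2
    exact mul_nonneg h1 (D2_nonneg hr h1 (by linarith))

private lemma H1_nonneg (hr : 3 ≤ r) {u : ℝ} (h1 : 0 ≤ u) (h2 : u ≤ 1 / 2) :
    0 ≤ 2 * (r + 1) + r * (r + 1) / 3 * (u * D r u) + r * (r + 1) / 6 * (u ^ 2 * D1 r u) -
      (r + 1) * ((1 + u) ^ r + (1 - u) ^ r) := by
  refine mono_of (fun u => 2 * (r + 1) + r * (r + 1) / 3 * (u * D r u) +
      r * (r + 1) / 6 * (u ^ 2 * D1 r u) - (r + 1) * ((1 + u) ^ r + (1 - u) ^ r))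
    (fun u => r * (r + 1) * (2 / 3 * (u * D1 r u - D r u) + u ^ 2 * D2 r u / 6)) ?_ ?_ ?_ h1 h2
  · intro u h1 h2
    have b1 := hD (r := r) (u := u) (by linarith) (by linarith)
    have b2 := hD1 (r := r) (u := u) (by linarith) (by linarith)
    have b3 := hasDeriv_add r (u := u) (by linarith)
    have b4 := hasDeriv_sub r (u := u) (by linarith)
    have b5 : HasDerivAt (fun u : ℝ => u * D r u) (1 * D r u + u * D1 r u) u :=
      (hasDerivAt_id u).mul b1
    have b6 : HasDerivAt (fun u : ℝ => u ^ 2 * D1 r u) ((2 * u) * D1 r u + u ^ 2 * D2 r u) u := by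
      have := (hasDerivAt_pow 2 u).mul b2
      refine HasDerivAt.congr_deriv
        (this : HasDerivAt (fun u : ℝ => u ^ 2 * D1 r u) _ u) ?_
      norm_num
    refine ((((b5.const_mul (r * (r + 1) / 3)).const_add (2 * (r + 1))).add
      (b6.const_mul (r * (r + 1) / 6))).sub ((b3.add b4).const_mul (r + 1))).congr_deriv ?_
    have e : D r u = (1 + u) ^ (r - 1) - (1 - u) ^ (r - 1) := rfl
    rw [e]
    ring
  · simp only [D, D1]
    simp
    linarith
  · intro u h1 h2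
    have := E_nonneg hr h1 h2
    have := D2_nonneg hr h1 (by linarith : u < 1)
    have h3 : 0 ≤ r * (r + 1) := by nlinarith
    exact mul_nonneg h3 (by positivity)

lemma odd_diff_kappa (hr : 3 ≤ r) {u : ℝ} (h1 : 0 ≤ u) (h2 : u ≤ 1 / 2) :
    (1 + u) ^ (r + 1) - (1 - u) ^ (r + 1) -
      r * (r + 1) / 6 * (u ^ 2 * ((1 + u) ^ (r - 1) - (1 - u) ^ (r - 1))) ≤ 2 * (r + 1) * u := by
  have key : 0 ≤ 2 * (r + 1) * u + r * (r + 1) / 6 * (u ^ 2 * D r u) -
      ((1 + u) ^ (r + 1) - (1 - u) ^ (r + 1)) := by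
    refine mono_of (fun u => 2 * (r + 1) * u + r * (r + 1) / 6 * (u ^ 2 * D r u) -
      ((1 + u) ^ (r + 1) - (1 - u) ^ (r + 1))) _ ?_ ?_ (fun u h1 h2 => H1_nonneg hr h1 h2) h1 h2
    · intro u h1 h2
      have b1 := hD (r := r) (u := u) (by linarith) (by linarith)
      have b3 := hasDeriv_add (r + 1) (u := u) (by linarith)
      have b4 := hasDeriv_sub (r + 1) (u := u) (by linarith)
      have b6 : HasDerivAt (fun u : ℝ => u ^ 2 * D r u) ((2 * u) * D r u + u ^ 2 * D1 r u) u := by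
        have := (hasDerivAt_pow 2 u).mul b1
        refine HasDerivAt.congr_deriv
          (this : HasDerivAt (fun u : ℝ => u ^ 2 * D r u) _ u) ?_
        norm_num
      have b7 : HasDerivAt (fun u : ℝ => 2 * (r + 1) * u) (2 * (r + 1) * 1) u :=
        (hasDerivAt_id u).const_mul _
      refine ((b7.add (b6.const_mul (r * (r + 1) / 6))).sub (b3.sub b4)).congr_deriv ?_
      rw [show r + 1 - 1 = r by ring]
      ring
    · simp [D]
  unfold D at key
  linarith

theorem S_kappa (hr : 3 ≤ r) (m : ℕ) :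
    ((m : ℝ) + 1 / 2) ^ (r + 1) - r * (r + 1) / 24 * ((m : ℝ) + 1 / 2) ^ (r - 1) ≤
      (r + 1) * S m r := by
  induction m with
  | zero =>
    simp only [Nat.cast_zero, zero_add, S_zero, mul_zero]
    have e : (1 / 2 : ℝ) ^ (r + 1) = (1 / 2 : ℝ) ^ (r - 1) * (1 / 4) := by
      rw [show r + 1 = (r - 1) + 2 by ring, Real.rpow_add (by norm_num), Real.rpow_two]
      norm_num
    rw [e]
    have h : (0 : ℝ) < (1 / 2 : ℝ) ^ (r - 1) := by positivity
    have h2 : 12 ≤ r * (r + 1) := by nlinarith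
    nlinarith [mul_le_mul_of_nonneg_right h2 h.le]
  | succ m ih =>
    have hS : (r + 1) * S (m + 1) r = (r + 1) * S m r + (r + 1) * ((m : ℝ) + 1) ^ r := by
      rw [S_succ]; ring
    rw [hS]
    push_cast
    have hn : (0 : ℝ) < (m : ℝ) + 1 := by positivity
    set n : ℝ := (m : ℝ) + 1 with hn'
    have hn1 : 1 ≤ n := by rw [hn']; linarith [Nat.cast_nonneg (α := ℝ) m]
    have hu0 : (0 : ℝ) ≤ 1 / (2 * n) := by positivity
    have hu1 : 1 / (2 * n) ≤ 1 / 2 := by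
      rw [div_le_div_iff₀ (by positivity) (by norm_num)]; linarith
    have h := odd_diff_kappa hr hu0 hu1
    have e1 : n + 1 / 2 = n * (1 + 1 / (2 * n)) := by field_simp
    have e2 : (m : ℝ) + 1 / 2 = n * (1 - 1 / (2 * n)) := by rw [hn']; field_simp; ring
    have hnn : (0 : ℝ) ≤ 1 - 1 / (2 * n) := by linarith
    rw [e2, Real.mul_rpow hn.le hnn, Real.mul_rpow hn.le hnn] at ih
    rw [e1, Real.mul_rpow hn.le (by positivity), Real.mul_rpow hn.le (by positivity)]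
    have e3 : n ^ (r + 1) = n ^ r * n := Real.rpow_add_one hn.ne' r
    have e4 : n ^ (r - 1) = n ^ r / n := Real.rpow_sub_one hn.ne' r
    rw [e3, e4] at ih ⊢
    have h5 : (0 : ℝ) < n ^ r := by positivity
    have h6 := mul_le_mul_of_nonneg_left h (by positivity : 0 ≤ n ^ r * n)
    have e7 : n ^ r * n * (2 * (r + 1) * (1 / (2 * n))) = (r + 1) * n ^ r := by
      field_simp
    rw [e7] at h6
    have e8 : n ^ r * n * (r * (r + 1) / 6 * ((1 / (2 * n)) ^ 2 *
        ((1 + 1 / (2 * n)) ^ (r - 1) - (1 - 1 / (2 * n)) ^ (r - 1)))) =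
        r * (r + 1) / 24 * (n ^ r / n * (1 + 1 / (2 * n)) ^ (r - 1)) -
        r * (r + 1) / 24 * (n ^ r / n * (1 - 1 / (2 * n)) ^ (r - 1)) := by
      field_simp
      ring
    have e9 : n ^ r * n * ((1 + 1 / (2 * n)) ^ (r + 1) - (1 - 1 / (2 * n)) ^ (r + 1) -
      r * (r + 1) / 6 * ((1 / (2 * n)) ^ 2 *
        ((1 + 1 / (2 * n)) ^ (r - 1) - (1 - 1 / (2 * n)) ^ (r - 1)))) =
        n ^ r * n * (1 + 1 / (2 * n)) ^ (r + 1) - n ^ r * n * (1 - 1 / (2 * n)) ^ (r + 1) -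
        n ^ r * n * (r * (r + 1) / 6 * ((1 / (2 * n)) ^ 2 *
        ((1 + 1 / (2 * n)) ^ (r - 1) - (1 - 1 / (2 * n)) ^ (r - 1)))) := by ring
    rw [e9, e8] at h6
    linarith

end Kappa

end Pool.Agent.Q206.MH
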