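import Pool.Agent.Q206.MH.Max

namespace Pool.Agent.Q206.MH

open Real Filter Topology

lemma continuous_f {k : ℕ} (hk : 1 ≤ k) : Continuous (f k) := by
  have h1 : (1 : ℝ) ≤ k := by exact_mod_cast hk
  have h2 : (0 : ℝ) < 2 * k - 1 := by linarith
  have e : f k = fun r => ∑ i ∈ Finset.range k, (2 * ((i : ℝ) + 1) / (2 * (k : ℝ) - 1)) ^ r := by
    funext r; exact f_sum k r hk
  rw [e]
  refine continuous_finset_sum _ fun i _ => ?_
  exact Real.continuous_const_rpow (by positivity)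

/-- For nonpositive exponents there is no crossing. -/
lemma f_lt_of_nonpos {k : ℕ} (hk : 1 ≤ k) {r : ℝ} (hr : r ≤ 0) : f k r < f (k + 1) r := by
  have h1 : (1 : ℝ) ≤ k := by exact_mod_cast hk
  have h2 : (0 : ℝ) < 2 * k - 1 := by linarith
  have h3 : (0 : ℝ) < 2 * ((k + 1 : ℕ) : ℝ) - 1 := by push_cast; linarith
  unfold f
  have hS : S k r < S (k + 1) r := by
    rw [S_succ]
    have : (0 : ℝ) < ((k : ℝ) + 1) ^ r := by positivity
    linarith
  have hb : (2 / (2 * (k : ℝ) - 1)) ^ r ≤ (2 / (2 * ((k + 1 : ℕ) : ℝ) - 1)) ^ r := by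
    refine Real.rpow_le_rpow_of_nonpos (by positivity) ?_ hr
    rw [div_le_div_iff_of_pos_left (by norm_num) h3 h2]
    push_cast
    linarith
  calc S k r * (2 / (2 * (k : ℝ) - 1)) ^ r < S (k + 1) r * (2 / (2 * (k : ℝ) - 1)) ^ r :=
        mul_lt_mul_of_pos_right hS (by positivity)
    _ ≤ _ := mul_le_mul_of_nonneg_left hb (S_nonneg _ _)

/-- For large exponents `f(k+1;r) < f(k;r)`. -/
lemma exists_large {k : ℕ} (hk : 1 ≤ k) : ∃ r : ℝ, (k : ℝ) < r ∧ f (k + 1) r < f k r := by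
  have h1 : (1 : ℝ) ≤ k := by exact_mod_cast hk
  have h2 : (0 : ℝ) < 2 * k - 1 := by linarith
  have h3 : (0 : ℝ) < 2 * k + 1 := by linarith
  set a : ℝ := (2 * (k : ℝ) + 2) / (2 * k + 1) with ha
  set b : ℝ := 2 * (k : ℝ) / (2 * k - 1) with hb
  have ha1 : 1 < a := by rw [ha, lt_div_iff₀ h3]; linarith
  have hab : a < b := by rw [ha, hb, div_lt_div_iff₀ h3 h2]; nlinarith
  have ht : Tendsto (fun n : ℕ => a ^ n * (b - a)) atTop atTop :=
    (tendsto_pow_atTop_atTop_of_one_lt ha1).atTop_mul_const (by linarith)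
  obtain ⟨n, hn1, hn2⟩ := ((ht.eventually_gt_atTop (k : ℝ)).and (eventually_ge_atTop k)).exists
  refine ⟨(n : ℝ) + 1, ?_, ?_⟩
  · have : (k : ℝ) ≤ n := by exact_mod_cast hn2
    linarith
  · have hr : (1 : ℝ) ≤ (n : ℝ) + 1 := by linarith [Nat.cast_nonneg (α := ℝ) n]
    have hr0 : (0 : ℝ) < (n : ℝ) + 1 := by linarith
    have hD := D_decomp hk hr0
    have hQ := Q_ge (c := b) (d := a) (by linarith) hab.le hr
    rw [add_sub_cancel_right, Real.rpow_natCast] at hQ
    have hsum : ∑ i ∈ Finset.range k, ((2 * ((i : ℝ) + 1) / (2 * k + 1)) ^ ((n : ℝ) + 1) -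
        (2 * (i : ℝ) / (2 * k - 1)) ^ ((n : ℝ) + 1)) ≤ k := by
      calc _ ≤ ∑ _i ∈ Finset.range k, (1 : ℝ) := by
            refine Finset.sum_le_sum fun i hi => ?_
            have hik : (i : ℝ) + 1 ≤ k := by exact_mod_cast Finset.mem_range.1 hi
            have h5 : (2 * ((i : ℝ) + 1) / (2 * k + 1)) ^ ((n : ℝ) + 1) ≤ 1 := by
              refine Real.rpow_le_one (by positivity) ?_ hr0.le
              rw [div_le_one h3]; linarith
            have h6 : 0 ≤ (2 * (i : ℝ) / (2 * k - 1)) ^ ((n : ℝ) + 1) := by positivity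
            linarith
        _ = k := by simp
    have h7 : (k : ℝ) < b ^ ((n : ℝ) + 1) - a ^ ((n : ℝ) + 1) := by
      have h8 : (k : ℝ) < (b ^ ((n : ℝ) + 1) - a ^ ((n : ℝ) + 1)) / ((n : ℝ) + 1) := by
        refine lt_of_lt_of_le hn1 ?_
        rw [mul_comm]; exact hQ
      rw [lt_div_iff₀ hr0] at h8
      nlinarith
    linarith

lemma exists_root {k : ℕ} (hk : 1 ≤ k) : ∃ r : ℝ, (k : ℝ) ≤ r ∧ f k r = f (k + 1) r := by
  obtain ⟨R, hR, hR2⟩ := exists_large hk
  have hc : ContinuousOn (fun r => f k r - f (k + 1) r) (Set.Icc (k : ℝ) R) :=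
    ((continuous_f hk).sub (continuous_f (by omega))).continuousOn
  have h := intermediate_value_Icc hR.le hc
  have h0 : (0 : ℝ) ∈ Set.Icc (f k (k : ℝ) - f (k + 1) (k : ℝ)) (f k R - f (k + 1) R) :=
    ⟨by linarith [D_self_nonpos hk], by linarith⟩
  obtain ⟨r, hr, hr2⟩ := h h0
  exact ⟨r, hr.1, by simp only at hr2; linarith⟩

open Classical in
/-- The crossing point `r_k`. -/
noncomputable def ρ (k : ℕ) : ℝ := if h : 1 ≤ k then (exists_root h).choose else 0

lemma ρ_ge {k : ℕ} (hk : 1 ≤ k) : (k : ℝ) ≤ ρ k := by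
  unfold ρ; rw [dif_pos hk]; exact (exists_root hk).choose_spec.1

lemma ρ_eq {k : ℕ} (hk : 1 ≤ k) : f k (ρ k) = f (k + 1) (ρ k) := by
  unfold ρ; rw [dif_pos hk]; exact (exists_root hk).choose_spec.2

lemma ρ_pos {k : ℕ} (hk : 1 ≤ k) : 0 < ρ k := by
  have h1 : (1 : ℝ) ≤ k := by exact_mod_cast hk
  linarith [ρ_ge hk]

lemma f_lt_of_lt {k : ℕ} (hk : 1 ≤ k) {r : ℝ} (h : r < ρ k) : f k r < f (k + 1) r := by
  rcases le_or_gt r 0 with h0 | h0
  · exact f_lt_of_nonpos hk h0
  · have h1 := D_mono hk h0 h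
    rw [ρ_eq hk, sub_self, zero_div] at h1
    by_contra hcon
    push Not at hcon
    have := div_nonneg (sub_nonneg.2 hcon) h0.le
    linarith

lemma f_gt_of_gt {k : ℕ} (hk : 1 ≤ k) {r : ℝ} (h : ρ k < r) : f (k + 1) r < f k r := by
  have h0 := ρ_pos hk
  have h1 := D_mono hk h0 h
  rw [ρ_eq hk, sub_self, zero_div] at h1
  by_contra hcon
  push Not at hcon
  have := div_nonpos_of_nonpos_of_nonneg (sub_nonpos.2 hcon) (by linarith : 0 ≤ r)
  linarith

theorem root_iff {k : ℕ} (hk : 1 ≤ k) (r : ℝ) : g k r = g (k + 1) r ↔ r = ρ k := by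
  have e : g k r = g (k + 1) r ↔ f k r = f (k + 1) r := by
    rw [le_antisymm_iff, le_antisymm_iff, f_le_iff hk (by omega), f_le_iff (by omega) hk]
    exact and_comm
  rw [e]
  constructor
  · intro h
    rcases lt_trichotomy r (ρ k) with h1 | h1 | h1
    · exact absurd h (f_lt_of_lt hk h1).ne
    · exact h1
    · exact absurd h (f_gt_of_gt hk h1).ne'
  · rintro rfl; exact ρ_eq hk

theorem ρ_one : ρ 1 = 1 := by
  refine ((root_iff le_rfl 1).1 ?_).symm
  rw [g_one]
  unfold g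
  rw [S_two', Real.rpow_one, Real.rpow_one]
  norm_num

/-! ## Convexity -/

/-- the auxiliary convex function -/
noncomputable def Φ (n : ℕ) (r x : ℝ) : ℝ :=
  ∑ i ∈ Finset.range n, (max 0 (1 - (2 * (i : ℝ) - 1) * x)) ^ r

lemma f_eq_Φ {k n : ℕ} (hk : 1 ≤ k) (hkn : k ≤ n) {r : ℝ} (hr : 0 < r) :
    f k r = Φ n r (1 / (2 * (k : ℝ) - 1)) := by
  have h1 : (1 : ℝ) ≤ k := by exact_mod_cast hk
  have h2 : (0 : ℝ) < 2 * k - 1 := by linarith
  rw [f_sum k r hk, ← Finset.sum_range_reflect]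
  unfold Φ
  rw [← Finset.sum_subset (Finset.range_subset_range.2 hkn)]
  · refine Finset.sum_congr rfl fun i hi => ?_
    have hi' : i + 1 ≤ k := Finset.mem_range.1 hi
    have hik : (i : ℝ) + 1 ≤ k := by exact_mod_cast hi'
    have e : (((k - 1 - i : ℕ) : ℝ)) = k - 1 - i := by
      rw [show k - 1 - i = k - (i + 1) by omega, Nat.cast_sub hi']; push_cast; ring
    rw [e]
    congr 1
    rw [max_eq_right]
    · field_simp; ring
    · have : (2 * (i : ℝ) - 1) * (1 / (2 * (k : ℝ) - 1)) ≤ 1 := by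
        rw [mul_one_div, div_le_one h2]; linarith
      linarith
  · intro i _ hi
    have hi' : k ≤ i := by
      by_contra h; exact hi (Finset.mem_range.2 (by omega))
    have hik : (k : ℝ) ≤ i := by exact_mod_cast hi'
    rw [max_eq_left, Real.zero_rpow hr.ne']
    have : 1 ≤ (2 * (i : ℝ) - 1) * (1 / (2 * (k : ℝ) - 1)) := by
      rw [mul_one_div, le_div_iff₀ h2]; linarith
    linarith

lemma three_point {k : ℕ} (hk : 1 ≤ k) {r : ℝ} (hr : 1 < r) (h : f k r = f (k + 1) r) :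
    f (k + 1) r < f (k + 2) r := by
  have h1 : (1 : ℝ) ≤ k := by exact_mod_cast hk
  set x : ℝ := 1 / (2 * (k : ℝ) - 1) with hx
  set y : ℝ := 1 / (2 * ((k + 1 : ℕ) : ℝ) - 1) with hy
  set z : ℝ := 1 / (2 * ((k + 2 : ℕ) : ℝ) - 1) with hz
  have p1 : (0 : ℝ) < 2 * k - 1 := by linarith
  have p2 : (0 : ℝ) < 2 * k + 1 := by linarith
  have p3 : (0 : ℝ) < 2 * k + 3 := by linarith
  have ey : y = 1 / (2 * k + 1) := by rw [hy]; push_cast; ring_nf
  have ez : z = 1 / (2 * k + 3) := by rw [hz]; push_cast; ring_nf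
  have hx0 : 0 < x := by rw [hx]; positivity
  have hz0 : 0 < z := by rw [ez]; positivity
  have hxy : y < x := by rw [ey, hx, div_lt_div_iff_of_pos_left (by norm_num) p2 p1]; linarith
  have hyz : z < y := by rw [ey, ez, div_lt_div_iff_of_pos_left (by norm_num) p3 p2]; linarith
  have hxz : 0 < x - z := by linarith
  set l : ℝ := (y - z) / (x - z) with hl
  have hl0 : 0 < l := div_pos (by linarith) hxz
  have hl1 : 0 < 1 - l := by rw [hl, sub_pos, div_lt_one hxz]; linarith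
  have hyl : l * x + (1 - l) * z = y := by
    have : l * (x - z) = y - z := by rw [hl]; field_simp
    linarith
  have hr0 : 0 < r := by linarith
  have hs : f (k + 1) r < l * f k r + (1 - l) * f (k + 2) r := by
    rw [f_eq_Φ hk (by omega : k ≤ k + 2) hr0, f_eq_Φ (by omega : 1 ≤ k + 1) (by omega : k + 1 ≤ k + 2) hr0,
      f_eq_Φ (by omega : 1 ≤ k + 2) le_rfl hr0, ← hx, ← hy, ← hz]
    unfold Φ
    rw [Finset.mul_sum, Finset.mul_sum, ← Finset.sum_add_distrib]
    refine Finset.sum_lt_sum (fun i _ => ?_) ⟨0, Finset.mem_range.2 (by omega), ?_⟩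
    · set c : ℝ := 2 * (i : ℝ) - 1
      have hm : max 0 (1 - c * y) ≤ l * max 0 (1 - c * x) + (1 - l) * max 0 (1 - c * z) := by
        refine max_le ?_ ?_
        · have := le_max_left 0 (1 - c * x)
          have := le_max_left 0 (1 - c * z)
          positivity
        · have e : 1 - c * y = l * (1 - c * x) + (1 - l) * (1 - c * z) := by rw [← hyl]; ring
          rw [e]
          have := le_max_right 0 (1 - c * x)
          have := le_max_right 0 (1 - c * z)
          gcongr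
      have hc := (convexOn_rpow hr.le).2 (le_max_left 0 (1 - c * x) : max 0 (1 - c * x) ∈ Set.Ici (0 : ℝ))
        (le_max_left 0 (1 - c * z) : max 0 (1 - c * z) ∈ Set.Ici (0 : ℝ)) hl0.le hl1.le (by ring)
      simp only [smul_eq_mul] at hc
      exact (Real.rpow_le_rpow (le_max_left _ _) hm hr0.le).trans hc
    · push_cast
      have e : ∀ t : ℝ, 0 < t → max 0 (1 - (2 * (0 : ℝ) - 1) * t) = 1 + t := by
        intro t ht
        rw [max_eq_right (by linarith)]; ring
      rw [e x hx0, e y (by linarith), e z hz0]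
      have hc := (strictConvexOn_rpow hr).2 (by simp only [Set.mem_Ici]; linarith : (1 + x) ∈ Set.Ici (0 : ℝ))
        (by simp only [Set.mem_Ici]; linarith : (1 + z) ∈ Set.Ici (0 : ℝ)) (by intro h'; linarith)
        hl0 hl1 (by ring)
      simp only [smul_eq_mul] at hc
      have e2 : l * (1 + x) + (1 - l) * (1 + z) = 1 + y := by rw [← hyl]; ring
      rw [e2] at hc
      exact hc
  rw [h] at hs
  nlinarith

theorem ρ_lt {k : ℕ} (hk : 1 ≤ k) : ρ k < ρ (k + 1) := by
  rcases hk.eq_or_lt with h | h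
  · rw [← h, ρ_one]
    have := ρ_ge (k := 2) (by norm_num)
    push_cast at this
    norm_num
    linarith
  · have h1 : (2 : ℝ) ≤ k := by exact_mod_cast h
    have h2 := three_point hk (by linarith [ρ_ge hk] : 1 < ρ k) (ρ_eq hk)
    by_contra hcon
    push Not at hcon
    rcases hcon.eq_or_lt with h3 | h3
    · have := ρ_eq (k := k + 1) (by omega)
      rw [h3] at this
      exact absurd this h2.ne
    · exact absurd (f_gt_of_gt (k := k + 1) (by omega) h3) (not_lt.2 h2.le)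

lemma ρ_mono {j k : ℕ} (hj : 1 ≤ j) (hjk : j ≤ k) : ρ j ≤ ρ k := by
  induction k, hjk using Nat.le_induction with
  | base => exact le_rfl
  | succ k hk ih => exact ih.trans (ρ_lt (by omega)).le

/-- The values `g(j;r)` above the crossing. -/
lemma g_desc {k : ℕ} (hk : 1 ≤ k) {r : ℝ} (hr : r < ρ k) : ∀ j, k < j → g j r < g k r := by
  intro j hj
  induction j, hj using Nat.le_induction with
  | base => exact (f_lt_iff hk (by omega) r).1 (f_lt_of_lt hk hr)
  | succ j hj ih =>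
    have h1 : 1 ≤ j := by omega
    have h2 : r < ρ j := lt_of_lt_of_le hr (ρ_mono hk (by omega))
    exact ((f_lt_iff h1 (by omega) r).1 (f_lt_of_lt h1 h2)).trans ih

lemma g_asc {k : ℕ} {r : ℝ} (hr : ∀ j, 1 ≤ j → j < k → ρ j < r) :
    ∀ j, 1 ≤ j → j < k → g j r < g k r := by
  intro j hj hjk
  obtain ⟨d, hd⟩ : ∃ d, k = j + 1 + d := ⟨k - (j + 1), by omega⟩
  subst hd
  clear hjk
  induction d with
  | zero => exact (f_lt_iff (by omega) hj r).1 (f_gt_of_gt hj (hr j hj (by omega)))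
  | succ d ih =>
    have h1 := ih (fun i hi hi2 => hr i hi (by omega))
    have h2 := (f_lt_iff (by omega) (by omega : 1 ≤ j + 1 + d) r).1
      (f_gt_of_gt (by omega) (hr (j + 1 + d) (by omega) (by omega)))
    exact h1.trans h2

theorem between {k : ℕ} (hk : 2 ≤ k) {r : ℝ} (h1 : ρ (k - 1) < r) (h2 : r < ρ k) :
    s r = ENNReal.ofReal (g k r) ∧ ∀ j, 1 ≤ j → j ≠ k → s r ≠ ENNReal.ofReal (g j r) := by
  have hr : 0 < r := lt_trans (ρ_pos (by omega)) h1
  have hlt : ∀ j, 1 ≤ j → j ≠ k → g j r < g k r := by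
    intro j hj hjk
    rcases Nat.lt_or_ge j k with h | h
    · exact g_asc (fun i hi hi2 => lt_of_le_of_lt (ρ_mono hi (by omega)) h1) j hj h
    · exact g_desc (by omega) h2 j (by omega)
  have hs : s r = ENNReal.ofReal (g k r) := s_eq_of_max hr (by omega) fun j hj => by
    rcases eq_or_ne j k with h | h
    · rw [h]
    · exact (hlt j hj h).le
  refine ⟨hs, fun j hj hjk heq => ?_⟩
  rw [hs] at heq
  have h3 := (ENNReal.ofReal_eq_ofReal_iff (g_pos (by omega) r).le (g_pos hj r).le).1 heq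
  linarith [hlt j hj hjk]

theorem at_root {k : ℕ} (hk : 1 ≤ k) {j : ℕ} (hj : 1 ≤ j) :
    s (ρ k) = ENNReal.ofReal (g j (ρ k)) ↔ j = k ∨ j = k + 1 := by
  have hr := ρ_pos hk
  have heq : g k (ρ k) = g (k + 1) (ρ k) := (root_iff hk _).2 rfl
  have hlt : ∀ j, 1 ≤ j → j ≠ k → j ≠ k + 1 → g j (ρ k) < g k (ρ k) := by
    intro j hj hjk hjk2
    rcases Nat.lt_or_ge j k with h | h
    · refine g_asc (fun i hi hi2 => ?_) j hj h
      exact lt_of_lt_of_le (ρ_lt hi) (ρ_mono (by omega) (by omega))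
    · rw [heq]
      exact g_desc (by omega) (ρ_lt hk) j (by omega)
  have hs : s (ρ k) = ENNReal.ofReal (g k (ρ k)) := s_eq_of_max hr hk fun j hj => by
    rcases eq_or_ne j k with h | h
    · rw [h]
    · rcases eq_or_ne j (k + 1) with h' | h'
      · rw [h', heq]
      · exact (hlt j hj h h').le
  constructor
  · intro h
    by_contra hcon
    push Not at hcon
    rw [hs] at h
    have h3 := (ENNReal.ofReal_eq_ofReal_iff (g_pos hk _).le (g_pos hj _).le).1 h
    linarith [hlt j hj hcon.1 hcon.2]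
  · rintro (rfl | rfl)
    · exact hs
    · rw [hs, heq]

theorem ρ_tendsto : Tendsto ρ atTop atTop := by
  refine tendsto_atTop_mono' atTop ?_ tendsto_natCast_atTop_atTop
  filter_upwards [eventually_ge_atTop 1] with k hk
  exact ρ_ge hk

end Pool.Agent.Q206.MH
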